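import Mathlib

set_option autoImplicit false

/-! Abstract lemmas: continuity of constrained infima along monotone families of subspaces, and
linear dependence of constrained minimisers. -/

open Set Filter Topology
open scoped InnerProductSpace

namespace Pool.Agent.H771Z.DM

variable {H H1 H2 : Type*} [NormedAddCommGroup H] [InnerProductSpace ℝ H]
  [NormedAddCommGroup H1] [InnerProductSpace ℝ H1] [NormedAddCommGroup H2] [InnerProductSpace ℝ H2]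

/-- the functional -/
noncomputable def QQ (p1 : H →L[ℝ] H1) (p2 : H →L[ℝ] H2) (E : ℝ) (ψ : H1) (u : H) : ℝ :=
  ‖p2 u‖ ^ 2 - E * ‖p1 u‖ ^ 2 - 2 * ⟪ψ, p1 u⟫_ℝ

/-- the constrained infimum -/
noncomputable def FF (p1 : H →L[ℝ] H1) (p2 : H →L[ℝ] H2) (E : ℝ) (ψ : H1) {I : Type*}
    (φ : I → H) (a : I → ℝ) (V : Submodule ℝ H) : ℝ :=
  sInf (QQ p1 p2 E ψ '' {u | u ∈ V ∧ ∀ i, ⟪p1 (φ i), p1 u⟫_ℝ = a i})

/-- correction of the constraints -/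
noncomputable def cor (p1 : H →L[ℝ] H1) {I : Type*} [Fintype I] (φ : I → H) (a : I → ℝ)
    (u : H) : H :=
  u + ∑ i, (a i - ⟪p1 (φ i), p1 u⟫_ℝ) • φ i

section
variable (p1 : H →L[ℝ] H1) (p2 : H →L[ℝ] H2) {I : Type*} [Fintype I] [DecidableEq I]
  (φ : I → H) (a : I → ℝ)

lemma QQ_cont (E : ℝ) (ψ : H1) : Continuous (QQ p1 p2 E ψ) := by
  unfold QQ
  fun_prop

omit [DecidableEq I] in
lemma cor_cont : Continuous (cor p1 φ a) := by
  unfold cor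
  fun_prop

omit [DecidableEq I] in
lemma cor_mem {V : Submodule ℝ H} (hφ : ∀ i, φ i ∈ V) {u : H} (hu : u ∈ V) : cor p1 φ a u ∈ V :=
  V.add_mem hu (V.sum_mem fun i _ => V.smul_mem _ (hφ i))

lemma inner_sumφ (ho : ∀ i j, ⟪p1 (φ i), p1 (φ j)⟫_ℝ = if i = j then 1 else 0) (c : I → ℝ)
    (i : I) : ⟪p1 (φ i), p1 (∑ j, c j • φ j)⟫_ℝ = c i := by
  rw [map_sum, inner_sum]
  simp_rw [map_smul, inner_smul_right, ho]
  simp

lemma cor_con (ho : ∀ i j, ⟪p1 (φ i), p1 (φ j)⟫_ℝ = if i = j then 1 else 0) (u : H) (i : I) :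
    ⟪p1 (φ i), p1 (cor p1 φ a u)⟫_ℝ = a i := by
  unfold cor
  rw [map_add, inner_add_right, inner_sumφ p1 φ ho]
  ring

omit [DecidableEq I] in
lemma cor_self {u : H} (hu : ∀ i, ⟪p1 (φ i), p1 u⟫_ℝ = a i) : cor p1 φ a u = u := by
  unfold cor
  simp [hu]

lemma con_ne (ho : ∀ i j, ⟪p1 (φ i), p1 (φ j)⟫_ℝ = if i = j then 1 else 0) {V : Submodule ℝ H}
    (hφ : ∀ i, φ i ∈ V) (E : ℝ) (ψ : H1) :
    (QQ p1 p2 E ψ '' {u | u ∈ V ∧ ∀ i, ⟪p1 (φ i), p1 u⟫_ℝ = a i}).Nonempty :=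
  ⟨_, cor p1 φ a 0, ⟨cor_mem p1 φ a hφ V.zero_mem, cor_con p1 φ a ho 0⟩, rfl⟩

theorem cont_inf {W : Type*} [Fintype W] (V : (W → ℝ) → Submodule ℝ H) (hmono : Monotone V)
    (S : Set (W → ℝ)) (E : ℝ) (ψ : H1)
    (ho : ∀ i j, ⟪p1 (φ i), p1 (φ j)⟫_ℝ = if i = j then 1 else 0) (hφ : ∀ s i, φ i ∈ V s)
    (P1 : ∀ t, ∀ u ∈ V t, ∀ ε > 0, ∃ δ > 0, ∃ U ∈ V (fun w => t w - δ), ‖U - u‖ < ε)
    (P2 : ∀ t ∈ S, ∀ R : ℝ, ∀ κ > 0, ∃ δ > 0, ∀ u ∈ V (fun w => t w + δ), ‖p2 u‖ ≤ R →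
      ∃ U ∈ V t, ‖p2 U‖ ≤ ‖p2 u‖ + κ ∧ ‖p1 (U - u)‖ ≤ κ)
    {ρ C CP : ℝ} (hρ : 0 < ρ) (hCP : 0 ≤ CP)
    (hco : ∀ s ∈ S, ∀ u ∈ V s, (∀ i, ⟪p1 (φ i), p1 u⟫_ℝ = a i) →
      ρ * ‖p2 u‖ ^ 2 - C ≤ QQ p1 p2 E ψ u)
    (hP : ∀ s ∈ S, ∀ u ∈ V s, ‖p1 u‖ ≤ CP * ‖p2 u‖) :
    ContinuousOn (fun s => FF p1 p2 E ψ φ a (V s)) S := by
  have hbdd : ∀ s ∈ S,
      BddBelow (QQ p1 p2 E ψ '' {u | u ∈ V s ∧ ∀ i, ⟪p1 (φ i), p1 u⟫_ℝ = a i}) := by
    intro s hs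
    refine ⟨-C, ?_⟩
    rintro _ ⟨u, ⟨h1, h2⟩, rfl⟩
    have := hco s hs u h1 h2
    have : 0 ≤ ρ * ‖p2 u‖ ^ 2 := by positivity
    linarith
  have hle : ∀ s ∈ S, ∀ U ∈ V s, FF p1 p2 E ψ φ a (V s) ≤ QQ p1 p2 E ψ (cor p1 φ a U) :=
    fun s hs U hU => csInf_le (hbdd s hs)
      ⟨_, ⟨cor_mem p1 φ a (hφ s) hU, cor_con p1 φ a ho U⟩, rfl⟩
  rw [Metric.continuousOn_iff]
  intro t ht ε hε
  -- upper estimate
  have up : ∀ ε > 0, ∃ δ > 0, ∀ s ∈ S, dist s t < δ →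
      FF p1 p2 E ψ φ a (V s) < FF p1 p2 E ψ φ a (V t) + ε := by
    intro ε hε
    obtain ⟨_, ⟨u, ⟨h1, h2⟩, rfl⟩, h3⟩ := exists_lt_of_csInf_lt
      (con_ne p1 p2 φ a ho (hφ t) E ψ) (show FF p1 p2 E ψ φ a (V t) <
        FF p1 p2 E ψ φ a (V t) + ε by linarith)
    have hc : Continuous (fun U => QQ p1 p2 E ψ (cor p1 φ a U)) :=
      (QQ_cont p1 p2 E ψ).comp (cor_cont p1 φ a)
    have hopen : IsOpen {U | QQ p1 p2 E ψ (cor p1 φ a U) < FF p1 p2 E ψ φ a (V t) + ε} :=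
      isOpen_lt hc continuous_const
    obtain ⟨r, hr, hball⟩ := Metric.isOpen_iff.1 hopen u (by
      show QQ p1 p2 E ψ (cor p1 φ a u) < _
      rw [cor_self p1 φ a h2]
      exact h3)
    obtain ⟨δ, hδ, U, hU, hUu⟩ := P1 t u h1 r hr
    refine ⟨δ, hδ, fun s hs hst => ?_⟩
    have hUs : U ∈ V s := by
      apply hmono _ hU
      intro w
      have := (dist_le_pi_dist s t w).trans_lt hst
      rw [Real.dist_eq, abs_lt] at this
      show t w - δ ≤ s w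
      linarith [this.1]
    exact (hle s hs U hUs).trans_lt (hball (by rwa [Metric.mem_ball, dist_eq_norm]))
  obtain ⟨δ1, hδ1, h1⟩ := up ε hε
  obtain ⟨δ0, hδ0, h0⟩ := up 1 one_pos
  -- lower estimate
  set R := √((FF p1 p2 E ψ φ a (V t) + 2 + C) / ρ) with hR
  have hR0 : 0 ≤ R := Real.sqrt_nonneg _
  set K := 1 + ∑ i, ‖p1 (φ i)‖ * ‖p2 (φ i)‖ + ∑ i, ‖p1 (φ i)‖ * ‖p1 (φ i)‖ with hK
  have s1 : 0 ≤ ∑ i, ‖p1 (φ i)‖ * ‖p2 (φ i)‖ := Finset.sum_nonneg fun i _ => by positivity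
  have s2 : 0 ≤ ∑ i, ‖p1 (φ i)‖ * ‖p1 (φ i)‖ := Finset.sum_nonneg fun i _ => by positivity
  have hK1 : 1 ≤ K := by linarith
  set M := 2 * R + 1 + |E| * (2 * (CP * R) + 1) + 2 * ‖ψ‖ with hM
  have hM0 : 0 < M := by positivity
  set k := min 1 (ε / (4 * M)) with hk
  have hk0 : 0 < k := lt_min one_pos (by positivity)
  have hk1 : k ≤ 1 := min_le_left _ _
  have hkM : k * M ≤ ε / 4 := by
    have : k ≤ ε / (4 * M) := min_le_right _ _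
    calc k * M ≤ ε / (4 * M) * M := mul_le_mul_of_nonneg_right this hM0.le
      _ = ε / 4 := by field_simp
  obtain ⟨δ2, hδ2, h2⟩ := P2 t ht R (k / K) (by positivity)
  refine ⟨min δ1 (min δ0 δ2), by positivity, fun s hs hst => ?_⟩
  have d1 : dist s t < δ1 := hst.trans_le (min_le_left _ _)
  have d0 : dist s t < δ0 := hst.trans_le ((min_le_right _ _).trans (min_le_left _ _))
  have d2 : dist s t < δ2 := hst.trans_le ((min_le_right _ _).trans (min_le_right _ _))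
  rw [Real.dist_eq, abs_lt]
  refine ⟨?_, by linarith [h1 s hs d1]⟩
  obtain ⟨_, ⟨u, ⟨u1, u2⟩, rfl⟩, u3⟩ := exists_lt_of_csInf_lt
    (con_ne p1 p2 φ a ho (hφ s) E ψ) (show FF p1 p2 E ψ φ a (V s) <
      FF p1 p2 E ψ φ a (V s) + min 1 (ε / 4) by
        have : 0 < min 1 (ε / 4) := by positivity
        linarith)
  have m1 : min 1 (ε / 4) ≤ 1 := min_le_left _ _
  have m2 : min 1 (ε / 4) ≤ ε / 4 := min_le_right _ _
  have uR : ‖p2 u‖ ≤ R := by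
    apply Real.le_sqrt_of_sq_le
    rw [le_div_iff₀ hρ]
    have := hco s hs u u1 u2
    have := h0 s hs d0
    linarith
  have uR' : ‖p1 u‖ ≤ CP * R := (hP s hs u u1).trans (mul_le_mul_of_nonneg_left uR hCP)
  have hus : u ∈ V (fun w => t w + δ2) := by
    apply hmono _ u1
    intro w
    have := (dist_le_pi_dist s t w).trans_lt d2
    rw [Real.dist_eq, abs_lt] at this
    show s w ≤ t w + δ2
    linarith [this.2]
  obtain ⟨U, hU, b2, b1⟩ := h2 u hus uR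
  have hd : ∀ i, |a i - ⟪p1 (φ i), p1 U⟫_ℝ| ≤ ‖p1 (φ i)‖ * (k / K) := by
    intro i
    rw [← u2 i, abs_sub_comm, ← inner_sub_right, ← map_sub]
    exact (abs_real_inner_le_norm _ _).trans (mul_le_mul_of_nonneg_left b1 (norm_nonneg _))
  have hkK : k / K * K = k := by field_simp
  have hkK0 : 0 ≤ k / K := by positivity
  have c2 : ‖p2 (cor p1 φ a U)‖ ≤ ‖p2 u‖ + k := by
    unfold cor
    rw [map_add, map_sum]
    refine (norm_add_le _ _).trans ?_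
    have : ‖∑ i, p2 ((a i - ⟪p1 (φ i), p1 U⟫_ℝ) • φ i)‖ ≤
        (k / K) * ∑ i, ‖p1 (φ i)‖ * ‖p2 (φ i)‖ := by
      rw [Finset.mul_sum]
      refine (norm_sum_le _ _).trans (Finset.sum_le_sum fun i _ => ?_)
      rw [map_smul, norm_smul, Real.norm_eq_abs]
      nlinarith [mul_le_mul_of_nonneg_right (hd i) (norm_nonneg (p2 (φ i)))]
    nlinarith
  have c1 : ‖p1 (cor p1 φ a U) - p1 u‖ ≤ k := by
    unfold cor
    rw [map_add, map_sum, add_sub_right_comm, ← map_sub]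
    refine (norm_add_le _ _).trans ?_
    have : ‖∑ i, p1 ((a i - ⟪p1 (φ i), p1 U⟫_ℝ) • φ i)‖ ≤
        (k / K) * ∑ i, ‖p1 (φ i)‖ * ‖p1 (φ i)‖ := by
      rw [Finset.mul_sum]
      refine (norm_sum_le _ _).trans (Finset.sum_le_sum fun i _ => ?_)
      rw [map_smul, norm_smul, Real.norm_eq_abs]
      nlinarith [mul_le_mul_of_nonneg_right (hd i) (norm_nonneg (p1 (φ i)))]
    nlinarith
  have hQ : QQ p1 p2 E ψ (cor p1 φ a U) ≤ QQ p1 p2 E ψ u + k * M := by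
    unfold QQ
    set x := p1 (cor p1 φ a U)
    set y := p1 u
    have e1 : ‖p2 (cor p1 φ a U)‖ ^ 2 ≤ ‖p2 u‖ ^ 2 + k * (2 * R + 1) := by
      have := pow_le_pow_left₀ (norm_nonneg _) c2 2
      nlinarith [norm_nonneg (p2 u)]
    have e2 : |‖x‖ ^ 2 - ‖y‖ ^ 2| ≤ k * (2 * (CP * R) + 1) := by
      have h3 : |‖x‖ - ‖y‖| ≤ k := (abs_norm_sub_norm_le x y).trans c1
      have h4 : ‖x‖ ^ 2 - ‖y‖ ^ 2 = (‖x‖ - ‖y‖) * (‖x‖ + ‖y‖) := by ring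
      rw [h4, abs_mul, abs_of_nonneg (show 0 ≤ ‖x‖ + ‖y‖ by positivity)]
      apply mul_le_mul h3 _ (by positivity) hk0.le
      have := (abs_le.1 h3).2
      linarith
    have e3 : |⟪ψ, x⟫_ℝ - ⟪ψ, y⟫_ℝ| ≤ ‖ψ‖ * k := by
      rw [← inner_sub_right]
      exact (abs_real_inner_le_norm _ _).trans (mul_le_mul_of_nonneg_left c1 (norm_nonneg _))
    have e4 : |E * (‖x‖ ^ 2 - ‖y‖ ^ 2)| ≤ |E| * (k * (2 * (CP * R) + 1)) := by
      rw [abs_mul]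
      exact mul_le_mul_of_nonneg_left e2 (abs_nonneg _)
    have := (abs_le.1 e4).1
    have := (abs_le.1 e3).1
    rw [hM]
    nlinarith
  have := hle t ht U hU
  linarith

theorem lin_min [CompleteSpace H] (V : Submodule ℝ H) (hV : IsClosed (V : Set H)) (E : ℝ)
    (ho : ∀ i j, ⟪p1 (φ i), p1 (φ j)⟫_ℝ = if i = j then 1 else 0) (hφ : ∀ i, φ i ∈ V)
    {ρ : ℝ} (hρ : 0 < ρ)
    (hco : ∀ w ∈ V, (∀ i, ⟪p1 (φ i), p1 w⟫_ℝ = 0) → ρ * ‖w‖ ^ 2 ≤ QQ p1 p2 E 0 w) :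
    ∃ u : I → H, (∀ i, u i ∈ V) ∧ (∀ i j, ⟪p1 (φ i), p1 (u j)⟫_ℝ = if i = j then 1 else 0) ∧
      ∀ a : I → ℝ, FF p1 p2 E 0 φ a V = QQ p1 p2 E 0 (∑ i, a i • u i) := by
  let W' : Submodule ℝ H := V ⊓ ⨅ i, LinearMap.ker ((innerSL ℝ (p1 (φ i))).comp p1).toLinearMap
  have hW : ∀ w, w ∈ W' ↔ w ∈ V ∧ ∀ i, ⟪p1 (φ i), p1 w⟫_ℝ = 0 := by
    intro w
    simp [W', Submodule.mem_iInf]
  have hWc : IsClosed (W' : Set H) := by
    have : (W' : Set H) = (V : Set H) ∩ ⋂ i, {w | ⟪p1 (φ i), p1 w⟫_ℝ = 0} := by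
      ext w
      simp [hW]
    rw [this]
    exact hV.inter (isClosed_iInter fun i => isClosed_eq (by fun_prop) continuous_const)
  have : CompleteSpace W' := hWc.completeSpace_coe
  let B0 : H →L[ℝ] H →L[ℝ] ℝ :=
    (innerSL ℝ : H2 →L[ℝ] H2 →L[ℝ] ℝ).bilinearComp p2 p2 -
      E • (innerSL ℝ : H1 →L[ℝ] H1 →L[ℝ] ℝ).bilinearComp p1 p1
  have hB0 : ∀ u v, B0 u v = ⟪p2 u, p2 v⟫_ℝ - E * ⟪p1 u, p1 v⟫_ℝ := fun u v => rfl
  have hBQ : ∀ u, B0 u u = QQ p1 p2 E 0 u := by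
    intro u
    rw [hB0, real_inner_self_eq_norm_sq, real_inner_self_eq_norm_sq]
    simp [QQ]
  have hBs : ∀ u v, B0 u v = B0 v u := by
    intro u v
    rw [hB0, hB0, real_inner_comm (p2 u), real_inner_comm (p1 u)]
  let B : W' →L[ℝ] W' →L[ℝ] ℝ := B0.bilinearComp W'.subtypeL W'.subtypeL
  have hB : ∀ u v : W', B u v = B0 u v := fun u v => rfl
  have coer : IsCoercive B := by
    refine ⟨ρ, hρ, fun w => ?_⟩
    rw [hB, hBQ]
    have := hco w ((hW w).1 w.2).1 ((hW w).1 w.2).2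
    have e : ‖w‖ = ‖(w : H)‖ := rfl
    rw [e]
    nlinarith
  have hz : ∀ i, ∃ z : W', ∀ w : W', B0 z w = B0 (φ i) w := by
    intro i
    refine ⟨coer.continuousLinearEquivOfBilin.symm
      ((InnerProductSpace.toDual ℝ W').symm ((B0 (φ i)).comp W'.subtypeL)), fun w => ?_⟩
    rw [← hB, ← coer.continuousLinearEquivOfBilin_apply, ContinuousLinearEquiv.apply_symm_apply,
      InnerProductSpace.toDual_symm_apply]
    rfl
  choose z hz using hz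
  have hcon : ∀ i j, ⟪p1 (φ i), p1 (φ j - z j)⟫_ℝ = if i = j then 1 else 0 := by
    intro i j
    rw [map_sub, inner_sub_right, ho, ((hW _).1 (z j).2).2 i, sub_zero]
  have hmem : ∀ i, φ i - z i ∈ V := fun i => V.sub_mem (hφ i) ((hW _).1 (z i).2).1
  refine ⟨fun i => φ i - z i, hmem, hcon, fun a => ?_⟩
  set u0 := ∑ i, a i • (φ i - z i) with hu0
  have m0 : u0 ∈ V := V.sum_mem fun i _ => V.smul_mem _ (hmem i)
  have c0 : ∀ i, ⟪p1 (φ i), p1 u0⟫_ℝ = a i := by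
    intro i
    rw [hu0, map_sum, inner_sum]
    simp_rw [map_smul, inner_smul_right, hcon]
    simp
  have orth : ∀ w : W', B0 u0 w = 0 := by
    intro w
    rw [hu0, map_sum, sum_apply]
    apply Finset.sum_eq_zero
    intro i _
    rw [map_smul, map_sub, smul_apply, sub_apply, hz,
      sub_self, smul_zero]
  apply IsLeast.csInf_eq
  refine ⟨⟨u0, ⟨m0, c0⟩, rfl⟩, ?_⟩
  rintro _ ⟨u, ⟨h1, h2⟩, rfl⟩
  have hw : u - u0 ∈ W' := by
    rw [hW]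
    refine ⟨V.sub_mem h1 m0, fun i => ?_⟩
    rw [map_sub, inner_sub_right, h2, c0, sub_self]
  have o := orth ⟨_, hw⟩
  have pos := hco _ ((hW _).1 hw).1 ((hW _).1 hw).2
  have pos' : 0 ≤ ρ * ‖u - u0‖ ^ 2 := by positivity
  have e : u = u0 + (u - u0) := by abel
  rw [← hBQ, ← hBQ] at *
  have : B0 u u = B0 u0 u0 + 2 * B0 u0 (u - u0) + B0 (u - u0) (u - u0) := by
    conv_lhs => rw [e]
    rw [map_add, map_add, add_apply, add_apply,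
      hBs (u - u0) u0]
    ring
  simp only at o
  linarith

end

end Pool.Agent.H771Z.DM
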