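import Mathlib
import Pool.Agent.Helper475.Miranda

set_option autoImplicit false

/-! The finite dimensional model and the topological argument. -/

open Set Finset

namespace Pool.Agent.H771Z.DM

/-- connectors -/
abbrev PP (m : ℕ) := {p : Fin m × Fin m // p.1 ≤ p.2}

/-- windows -/
abbrev WW (m : ℕ) := PP m × Bool

/-- the main cell of a window -/
def en {m : ℕ} (w : WW m) : Fin m := if w.2 then w.1.1.2 else w.1.1.1

variable {m : ℕ}

/-- the model form -/
def Mf (β g : WW m → ℝ) (a : Fin m → ℝ) (x : PP m → ℝ) : ℝ :=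
  ∑ i, a i ^ 2 + ∑ p, x p ^ 2 - ∑ w, g w * (a (en w) + β w * x w.1) ^ 2

def DD (β g : WW m → ℝ) (p : PP m) : ℝ :=
  1 - g (p, false) * β (p, false) ^ 2 - g (p, true) * β (p, true) ^ 2

def hh (β g : WW m → ℝ) (a : Fin m → ℝ) (p : PP m) : ℝ :=
  g (p, false) * β (p, false) * a p.1.1 + g (p, true) * β (p, true) * a p.1.2

noncomputable def S0 (β g : WW m → ℝ) (a : Fin m → ℝ) : ℝ :=
  ∑ i, a i ^ 2 - ∑ p, (g (p, false) * a p.1.1 ^ 2 + g (p, true) * a p.1.2 ^ 2 +
    hh β g a p ^ 2 / DD β g p)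

noncomputable def TT (β g : WW m → ℝ) (a b : Fin m → ℝ) (p : PP m) : ℝ :=
  g (p, false) * (a p.1.1 * b p.1.1) + g (p, true) * (a p.1.2 * b p.1.2) +
    hh β g a p * hh β g b p / DD β g p

lemma Mf_eq (β g : WW m → ℝ) (a : Fin m → ℝ) (x : PP m → ℝ) :
    Mf β g a x = ∑ i, a i ^ 2 + ∑ p, (DD β g p * x p ^ 2 - 2 * hh β g a p * x p -
      g (p, false) * a p.1.1 ^ 2 - g (p, true) * a p.1.2 ^ 2) := by
  unfold Mf
  rw [Fintype.sum_prod_type, add_sub_assoc, ← Finset.sum_sub_distrib]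
  congr 1
  apply Finset.sum_congr rfl
  intro p _
  rw [Fintype.sum_bool]
  simp only [en, DD, hh, if_true, Bool.false_eq_true, if_false]
  ring

lemma polar (β g : WW m → ℝ) (a b : Fin m → ℝ) :
    S0 β g (a + b) - S0 β g (a - b) = 4 * (∑ i, a i * b i - ∑ p, TT β g a b p) := by
  unfold S0
  have e1 : ∑ i, (a + b) i ^ 2 - ∑ i, (a - b) i ^ 2 = 4 * ∑ i, a i * b i := by
    rw [← Finset.sum_sub_distrib, Finset.mul_sum]
    apply Finset.sum_congr rfl
    intro i _
    simp only [Pi.add_apply, Pi.sub_apply]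
    ring
  have e2 : ∑ p : PP m, (g (p, false) * (a + b) p.1.1 ^ 2 + g (p, true) * (a + b) p.1.2 ^ 2 +
      hh β g (a + b) p ^ 2 / DD β g p) - ∑ p : PP m, (g (p, false) * (a - b) p.1.1 ^ 2 +
      g (p, true) * (a - b) p.1.2 ^ 2 + hh β g (a - b) p ^ 2 / DD β g p) =
      4 * ∑ p, TT β g a b p := by
    rw [← Finset.sum_sub_distrib, Finset.mul_sum]
    apply Finset.sum_congr rfl
    intro p _
    simp only [Pi.add_apply, Pi.sub_apply, TT, hh]
    ring
  linarith

lemma close (β g : WW m → ℝ) (a : Fin m → ℝ) {D0 ε Hb S : ℝ} (hD0 : 0 < D0) (hε : 0 ≤ ε)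
    (hεD : ε ≤ D0 / 2) (hD : ∀ p, D0 ≤ DD β g p) (hh2 : ∀ p, hh β g a p ^ 2 ≤ Hb)
    (ha : ∑ i, a i ^ 2 ≤ 4)
    (up : ∀ x, S ≤ Mf β g a x + ε * (∑ i, a i ^ 2 + ∑ p, x p ^ 2))
    (low : ∀ r, (∀ x, r ≤ Mf β g a x - ε * (∑ i, a i ^ 2 + ∑ p, x p ^ 2)) → r ≤ S) :
    |S - S0 β g a| ≤ ε * (4 + Fintype.card (PP m) * (2 * Hb / D0 ^ 2)) := by
  have hq : ∀ p, 2 * (hh β g a p / DD β g p) ^ 2 ≤ 2 * Hb / D0 ^ 2 := by
    intro p
    rw [div_pow, mul_div_assoc]
    apply mul_le_mul_of_nonneg_left _ (by norm_num)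
    exact div_le_div₀ ((sq_nonneg _).trans (hh2 p)) (hh2 p) (by positivity)
      (pow_le_pow_left₀ hD0.le (hD p) 2)
  have hs : ∑ p, 2 * (hh β g a p / DD β g p) ^ 2 ≤ Fintype.card (PP m) * (2 * Hb / D0 ^ 2) := by
    refine (Finset.sum_le_sum fun p _ => hq p).trans ?_
    simp
  rw [abs_le]
  constructor
  · have := low (S0 β g a - ε * (∑ i, a i ^ 2 + ∑ p, 2 * (hh β g a p / DD β g p) ^ 2)) (by
      intro x
      rw [Mf_eq]
      unfold S0
      have : ∑ p, (-(g (p, false) * a p.1.1 ^ 2 + g (p, true) * a p.1.2 ^ 2 +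
          hh β g a p ^ 2 / DD β g p) - ε * (2 * (hh β g a p / DD β g p) ^ 2)) ≤
          ∑ p, ((DD β g p * x p ^ 2 - 2 * hh β g a p * x p -
          g (p, false) * a p.1.1 ^ 2 - g (p, true) * a p.1.2 ^ 2) - ε * x p ^ 2) := by
        apply Finset.sum_le_sum
        intro p _
        have hp : 0 < DD β g p := hD0.trans_le (hD p)
        set D := DD β g p
        set z := hh β g a p / D with hz
        have e1 : hh β g a p = z * D := by rw [hz]; field_simp
        have e2 : hh β g a p ^ 2 / D = z ^ 2 * D := by rw [e1]; field_simp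
        rw [e2, e1]
        have h1 : 2 * ε ≤ D := by linarith [hD p]
        have h2 : x p ^ 2 ≤ 2 * (x p - z) ^ 2 + 2 * z ^ 2 := by nlinarith [sq_nonneg (x p - 2 * z)]
        nlinarith [mul_le_mul_of_nonneg_left h2 hε,
          mul_le_mul_of_nonneg_right h1 (sq_nonneg (x p - z))]
      rw [Finset.sum_sub_distrib, Finset.sum_sub_distrib, Finset.sum_neg_distrib,
        ← Finset.mul_sum univ _ ε, ← Finset.mul_sum univ _ ε] at this
      linarith)
    nlinarith [mul_le_mul_of_nonneg_left hs hε, mul_le_mul_of_nonneg_left ha hε]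
  · have := up (fun p => hh β g a p / DD β g p)
    rw [Mf_eq] at this
    have e : ∑ p, (DD β g p * (hh β g a p / DD β g p) ^ 2 -
        2 * hh β g a p * (hh β g a p / DD β g p) -
        g (p, false) * a p.1.1 ^ 2 - g (p, true) * a p.1.2 ^ 2) =
        -∑ p, (g (p, false) * a p.1.1 ^ 2 + g (p, true) * a p.1.2 ^ 2 +
          hh β g a p ^ 2 / DD β g p) := by
      rw [← Finset.sum_neg_distrib]
      apply Finset.sum_congr rfl
      intro p _
      have hp : 0 < DD β g p := hD0.trans_le (hD p)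
      field_simp
      ring
    rw [e] at this
    unfold S0
    have h3 : ∑ p, (hh β g a p / DD β g p) ^ 2 ≤ ∑ p, 2 * (hh β g a p / DD β g p) ^ 2 :=
      Finset.sum_le_sum fun p _ => by nlinarith [sq_nonneg (hh β g a p / DD β g p)]
    nlinarith [mul_le_mul_of_nonneg_left (h3.trans hs) hε, mul_le_mul_of_nonneg_left ha hε]

lemma coerc (β g : WW m → ℝ) {D0 ε b1 : ℝ} (hD0 : 0 < D0) (hεD : ε ≤ D0 / 2)
    (hD : ∀ p, D0 ≤ DD β g p) (hg0 : ∀ w, 0 ≤ g w) (hg : ∀ w, g w ≤ 2) (hβ0 : ∀ w, 0 ≤ β w)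
    (hβ : ∀ w, β w ≤ b1) (a : Fin m → ℝ) (x : PP m → ℝ) :
    D0 / 4 * ∑ p, x p ^ 2 - (ε + Fintype.card (PP m) * (4 + 4 * (16 * b1 ^ 2) / D0)) *
      ∑ i, a i ^ 2 ≤ Mf β g a x - ε * (∑ i, a i ^ 2 + ∑ p, x p ^ 2) := by
  rw [Mf_eq]
  set A := ∑ i, a i ^ 2 with hA
  have hA0 : 0 ≤ A := Finset.sum_nonneg fun i _ => sq_nonneg _
  have hai : ∀ i, a i ^ 2 ≤ A := fun i =>
    Finset.single_le_sum (f := fun i => a i ^ 2) (fun i _ => sq_nonneg _) (Finset.mem_univ i)
  have : ∑ p, (D0 / 4 * x p ^ 2 - (4 + 4 * (16 * b1 ^ 2) / D0) * A) ≤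
      ∑ p, ((DD β g p * x p ^ 2 - 2 * hh β g a p * x p -
          g (p, false) * a p.1.1 ^ 2 - g (p, true) * a p.1.2 ^ 2) - ε * x p ^ 2) := by
    apply Finset.sum_le_sum
    intro p _
    have t1 : g (p, false) * a p.1.1 ^ 2 ≤ 2 * A :=
      mul_le_mul (hg _) (hai _) (sq_nonneg _) (by norm_num)
    have t2 : g (p, true) * a p.1.2 ^ 2 ≤ 2 * A :=
      mul_le_mul (hg _) (hai _) (sq_nonneg _) (by norm_num)
    have t3 : ∀ w, (g w * β w) ^ 2 ≤ 4 * b1 ^ 2 := by
      intro w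
      have : g w * β w ≤ 2 * b1 := mul_le_mul (hg w) (hβ w) (hβ0 w) (by norm_num)
      have := pow_le_pow_left₀ (mul_nonneg (hg0 w) (hβ0 w)) this 2
      linarith
    have t4 : hh β g a p ^ 2 ≤ 16 * b1 ^ 2 * A := by
      unfold hh
      have u1 := mul_le_mul (t3 (p, false)) (hai p.1.1) (sq_nonneg _) (by positivity)
      have u2 := mul_le_mul (t3 (p, true)) (hai p.1.2) (sq_nonneg _) (by positivity)
      nlinarith [sq_nonneg (g (p, false) * β (p, false) * a p.1.1 -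
        g (p, true) * β (p, true) * a p.1.2)]
    have t5 : 2 * hh β g a p * x p ≤ D0 / 4 * x p ^ 2 + 4 * hh β g a p ^ 2 / D0 := by
      have : D0 / 4 * x p ^ 2 + 4 * hh β g a p ^ 2 / D0 - 2 * hh β g a p * x p =
          (D0 * x p - 4 * hh β g a p) ^ 2 / (4 * D0) := by
        field_simp
        ring
      have h2 : 0 ≤ (D0 * x p - 4 * hh β g a p) ^ 2 / (4 * D0) := by positivity
      linarith
    have t6 : 4 * hh β g a p ^ 2 / D0 ≤ 4 * (16 * b1 ^ 2) / D0 * A := by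
      rw [div_mul_eq_mul_div]
      apply div_le_div_of_nonneg_right _ hD0.le
      linarith
    nlinarith [mul_le_mul_of_nonneg_right (hD p) (sq_nonneg (x p)),
      mul_le_mul_of_nonneg_right hεD (sq_nonneg (x p))]
  rw [Finset.sum_sub_distrib, Finset.sum_sub_distrib, ← Finset.mul_sum,
    ← Finset.mul_sum univ _ ε] at this
  simp only [Finset.sum_const, Finset.card_univ, nsmul_eq_mul] at this
  nlinarith

/-- Poincare-Miranda for a finite index type -/
lemma miranda {P : Type*} [Fintype P] (F : (P → ℝ) → P → ℝ)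
    (hF : ∀ p, ContinuousOn (fun t => F t p) {x | ∀ i, 0 ≤ x i ∧ x i ≤ 1})
    (h0 : ∀ x : P → ℝ, (∀ i, 0 ≤ x i ∧ x i ≤ 1) → ∀ i, x i = 0 → F x i ≤ 0)
    (h1 : ∀ x : P → ℝ, (∀ i, 0 ≤ x i ∧ x i ≤ 1) → ∀ i, x i = 1 → 0 ≤ F x i) :
    ∃ x : P → ℝ, (∀ i, 0 ≤ x i ∧ x i ≤ 1) ∧ ∀ i, F x i = 0 := by
  let e := Fintype.equivFin P
  obtain ⟨x, hx, hF0⟩ := Pool.Agent.Helper475.Miranda.poincare_miranda (Fintype.card P)
    (fun x j => F (fun p => x (e p)) (e.symm j))
    (by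
      rw [continuousOn_pi]
      intro j
      exact (hF (e.symm j)).comp (f := fun (x : Fin (Fintype.card P) → ℝ) p => x (e p))
        (by fun_prop) (fun x hx p => hx (e p)))
    (fun x hx j hj => h0 _ (fun p => hx (e p)) _ (by simpa using hj))
    (fun x hx j hj => h1 _ (fun p => hx (e p)) _ (by simpa using hj))
  refine ⟨fun p => x (e p), fun p => hx (e p), fun p => ?_⟩
  have := congrFun hF0 (e p)
  simpa using this

/-- unit vectors -/
def ee (i : Fin m) : Fin m → ℝ := Pi.single i 1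

lemma ee_01 (i k : Fin m) : 0 ≤ ee i k ∧ ee i k ≤ 1 := by
  unfold ee
  by_cases h : k = i
  · subst h; simp
  · simp [Pi.single_eq_of_ne h]

lemma ee_sum (i : Fin m) : ∑ k, ee i k ^ 2 = 1 := by
  rw [Finset.sum_eq_single i]
  · simp [ee]
  · intro k _ hk
    simp [ee, Pi.single_eq_of_ne hk]
  · simp

lemma ee_inner (i j : Fin m) : ∑ k, ee i k * ee j k = if i = j then 1 else 0 := by
  rw [Finset.sum_eq_single i]
  · by_cases h : i = j
    · subst h; simp [ee]
    · simp [ee, h]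
  · intro k _ hk
    simp [ee, Pi.single_eq_of_ne hk]
  · simp

lemma TT_off (β g : WW m → ℝ) (p0 : PP m) (h : p0.1.1 ≠ p0.1.2) :
    ∑ p, TT β g (ee p0.1.1) (ee p0.1.2) p =
      g (p0, false) * β (p0, false) * (g (p0, true) * β (p0, true)) / DD β g p0 := by
  have hlt : p0.1.1 < p0.1.2 := lt_of_le_of_ne p0.2 h
  rw [Finset.sum_eq_single p0]
  · simp [TT, hh, ee, Pi.single_eq_of_ne h, Pi.single_eq_of_ne h.symm]
  · intro p _ hp
    have hle := p.2
    by_cases h1 : p.1.1 = p0.1.1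
    · have h2 : p.1.2 ≠ p0.1.2 := fun h2 => hp (Subtype.ext (Prod.ext h1 h2))
      have h3 : p.1.1 ≠ p0.1.2 := by rw [h1]; exact h
      simp [TT, hh, ee, Pi.single_eq_of_ne h2, Pi.single_eq_of_ne h3]
    · by_cases h2 : p.1.2 = p0.1.1
      · have h3 : p.1.1 ≠ p0.1.2 := by
          intro h3
          rw [h2, h3] at hle
          exact absurd hlt (not_lt.2 hle)
        have h4 : p.1.2 ≠ p0.1.2 := by rw [h2]; exact h
        simp [TT, hh, ee, Pi.single_eq_of_ne h3, Pi.single_eq_of_ne h4]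
      · simp [TT, hh, ee, Pi.single_eq_of_ne h1, Pi.single_eq_of_ne h2]
  · simp

theorem fin_dim (β : WW m → ℝ) {b0 b1 : ℝ} (hb0 : 0 < b0) (hβ0 : ∀ w, b0 ≤ β w)
    (hβ1 : ∀ w, β w ≤ b1) :
    ∃ (gb : WW m → ℝ) (ε ρ C : ℝ), 0 < ε ∧ 0 < ρ ∧ (∀ w, 0 ≤ gb w ∧ gb w ≤ 2) ∧
      (∀ p, 0 < gb (p, false)) ∧ (∀ p : PP m, p.1.1 ≠ p.1.2 → 0 < gb (p, true)) ∧
      (∀ g : WW m → ℝ, (∀ w, 0 ≤ g w ∧ g w ≤ gb w) → ∀ a x,
        ρ * ∑ p, x p ^ 2 - C * ∑ i, a i ^ 2 ≤ Mf β g a x - ε * (∑ i, a i ^ 2 + ∑ p, x p ^ 2)) ∧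
      ∀ (g : (PP m → ℝ) → WW m → ℝ) (S : (PP m → ℝ) → (Fin m → ℝ) → ℝ),
        (∀ t, (∀ p, 0 ≤ t p ∧ t p ≤ 1) → ∀ w, (0 ≤ g t w ∧ g t w ≤ gb w) ∧
          (t w.1 = 0 → g t w = 0) ∧ (t w.1 = 1 → g t w = gb w)) →
        (∀ a, ContinuousOn (fun t => S t a) {t | ∀ p, 0 ≤ t p ∧ t p ≤ 1}) →
        (∀ t, (∀ p, 0 ≤ t p ∧ t p ≤ 1) → ∀ a x,
          S t a ≤ Mf β (g t) a x + ε * (∑ i, a i ^ 2 + ∑ p, x p ^ 2)) →
        (∀ t, (∀ p, 0 ≤ t p ∧ t p ≤ 1) → ∀ a r,
          (∀ x, r ≤ Mf β (g t) a x - ε * (∑ i, a i ^ 2 + ∑ p, x p ^ 2)) → r ≤ S t a) →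
        ∃ t, (∀ p, 0 < t p ∧ t p ≤ 1) ∧ ∃ δ > 0, ∀ p : PP m,
          S t (ee p.1.1 + ee p.1.2) - S t (ee p.1.1 - ee p.1.2) = -(4 * δ) := by
  set N : ℝ := (Fintype.card (PP m) : ℝ) with hN
  have hN0 : 0 ≤ N := Nat.cast_nonneg _
  set b := max b0 b1 with hb
  have hbpos : 0 < b := hb0.trans_le (le_max_left _ _)
  have hβb : ∀ w, β w ≤ b := fun w => (hβ1 w).trans (le_max_right _ _)
  have hb0b : b0 ≤ b := le_max_left _ _
  have hβp : ∀ w, 0 < β w := fun w => hb0.trans_le (hβ0 w)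
  set ζ := 1 / (8 * (N + 1) * (1 + b ^ 2)) with hζ
  have hζ0 : 0 < ζ := by positivity
  have hζ1 : ζ * (8 * (N + 1) * (1 + b ^ 2)) = 1 := by rw [hζ]; field_simp
  have hζb : ζ * b ^ 2 ≤ 1 / 8 := by
    nlinarith [mul_nonneg hζ0.le hN0, mul_nonneg (mul_nonneg hζ0.le hN0) (sq_nonneg b)]
  have hζN : N * ζ ≤ 1 / 8 := by
    nlinarith [mul_nonneg hζ0.le (sq_nonneg b), mul_nonneg (mul_nonneg hζ0.le hN0) (sq_nonneg b)]
  have hζ8 : ζ ≤ 1 / 8 := by
    nlinarith [mul_nonneg hζ0.le (sq_nonneg b), mul_nonneg (mul_nonneg hζ0.le hN0) (sq_nonneg b),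
      mul_nonneg hζ0.le hN0]
  set gb : WW m → ℝ := fun w => if w.1.1.1 = w.1.1.2 then
    (if w.2 then 0 else 2 / (1 + 2 * β w ^ 2)) else ζ with hgb
  have gb_off : ∀ (p : PP m) s, p.1.1 ≠ p.1.2 → gb (p, s) = ζ := by
    intro p s h
    simp [hgb, h]
  have gb_t : ∀ (p : PP m), p.1.1 = p.1.2 → gb (p, true) = 0 := by
    intro p h
    simp [hgb, h]
  have gb_f : ∀ (p : PP m), p.1.1 = p.1.2 → gb (p, false) = 2 / (1 + 2 * β (p, false) ^ 2) := by
    intro p h
    simp [hgb, h]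
  have gb02 : ∀ w, 0 ≤ gb w ∧ gb w ≤ 2 := by
    rintro ⟨p, s⟩
    by_cases h : p.1.1 = p.1.2
    · cases s
      · rw [gb_f p h]
        refine ⟨by positivity, ?_⟩
        rw [div_le_iff₀ (by positivity)]
        nlinarith [sq_nonneg (β (p, false))]
      · rw [gb_t p h]
        norm_num
    · rw [gb_off p s h]
      exact ⟨hζ0.le, by linarith⟩
  set D0 := 1 / (2 + 2 * b ^ 2) with hD0def
  have hD0 : 0 < D0 := by positivity
  have hβ2 : ∀ w, β w ^ 2 ≤ b ^ 2 := fun w => pow_le_pow_left₀ (hβp w).le (hβb w) 2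
  have hDoff : ∀ g : WW m → ℝ, (∀ w, 0 ≤ g w ∧ g w ≤ gb w) → ∀ p : PP m, p.1.1 ≠ p.1.2 →
      1 / 2 ≤ DD β g p := by
    intro g hg p h
    unfold DD
    have h1 := (hg (p, false)).2
    have h2 := (hg (p, true)).2
    rw [gb_off p _ h] at h1 h2
    have u1 := mul_le_mul h1 (hβ2 (p, false)) (sq_nonneg _) hζ0.le
    have u2 := mul_le_mul h2 (hβ2 (p, true)) (sq_nonneg _) hζ0.le
    linarith
  have hD : ∀ g : WW m → ℝ, (∀ w, 0 ≤ g w ∧ g w ≤ gb w) → ∀ p, D0 ≤ DD β g p := by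
    intro g hg p
    by_cases h : p.1.1 = p.1.2
    · unfold DD
      have h1 := (hg (p, false)).2
      have h2 := (hg (p, true)).2
      rw [gb_f p h] at h1
      rw [gb_t p h] at h2
      have h3 : g (p, true) = 0 := le_antisymm h2 (hg (p, true)).1
      rw [h3]
      have u1 := mul_le_mul_of_nonneg_right h1 (sq_nonneg (β (p, false)))
      have u2 : 2 / (1 + 2 * β (p, false) ^ 2) * β (p, false) ^ 2 =
          1 - 1 / (1 + 2 * β (p, false) ^ 2) := by
        field_simp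
        ring
      have u3 : D0 ≤ 1 / (1 + 2 * β (p, false) ^ 2) := by
        apply one_div_le_one_div_of_le (by positivity)
        linarith [hβ2 (p, false)]
      linarith
    · refine le_trans ?_ (hDoff g hg p h)
      apply one_div_le_one_div_of_le (by norm_num)
      nlinarith [sq_nonneg b]
  have hD1 : ∀ g : WW m → ℝ, (∀ w, 0 ≤ g w ∧ g w ≤ gb w) → ∀ p, DD β g p ≤ 1 := by
    intro g hg p
    unfold DD
    have := mul_nonneg (hg (p, false)).1 (sq_nonneg (β (p, false)))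
    have := mul_nonneg (hg (p, true)).1 (sq_nonneg (β (p, true)))
    linarith
  set δ := ζ ^ 2 * b0 ^ 2 / 2 with hδ
  have hδ0 : 0 < δ := by positivity
  have hδ1 : δ ≤ 1 / 2 := by
    have : b0 ^ 2 ≤ b ^ 2 := pow_le_pow_left₀ hb0.le hb0b 2
    have : ζ * b0 ^ 2 ≤ 1 / 8 := (mul_le_mul_of_nonneg_left this hζ0.le).trans hζb
    nlinarith [mul_nonneg hζ0.le (sq_nonneg b0)]
  set C0 := 4 + N * (2 * (64 * b ^ 2) / D0 ^ 2) with hC0
  have hC00 : 0 < C0 := by positivity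
  set ε := min (D0 / 2) (δ / C0) with hε
  have hε0 : 0 < ε := lt_min (by positivity) (by positivity)
  have hεD : ε ≤ D0 / 2 := min_le_left _ _
  have hεC : ε * C0 ≤ δ := by
    have : ε ≤ δ / C0 := min_le_right _ _
    rwa [le_div_iff₀ hC00] at this
  refine ⟨gb, ε, D0 / 4, ε + N * (4 + 4 * (16 * b ^ 2) / D0), hε0, by positivity, gb02, ?_, ?_,
    ?_, ?_⟩
  · intro p
    by_cases h : p.1.1 = p.1.2
    · rw [gb_f p h]; positivity
    · rw [gb_off p _ h]; exact hζ0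
  · intro p h
    rw [gb_off p _ h]; exact hζ0
  · intro g hg a x
    exact coerc β g hD0 hεD (hD g hg) (fun w => (hg w).1)
      (fun w => (hg w).2.trans (gb02 w).2) (fun w => (hβp w).le) hβb a x
  intro g S hg hcont up low
  have hcl : ∀ t, (∀ p, 0 ≤ t p ∧ t p ≤ 1) → ∀ a : Fin m → ℝ, (∀ k, |a k| ≤ 2) →
      ∑ i, a i ^ 2 ≤ 4 → |S t a - S0 β (g t) a| ≤ δ := by
    intro t ht a ha ha4
    refine (close β (g t) a hD0 hε0.le hεD (hD _ fun w => (hg t ht w).1) (Hb := 64 * b ^ 2) ?_ ha4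
      (up t ht a) (low t ht a)).trans hεC
    intro p
    have t3 : ∀ w k, |g t w * β w * a k| ≤ 4 * b := by
      intro w k
      have h1 : g t w * β w ≤ 2 * b :=
        mul_le_mul ((hg t ht w).1.2.trans (gb02 w).2) (hβb w) (hβp w).le (by norm_num)
      rw [abs_mul, abs_of_nonneg (mul_nonneg (hg t ht w).1.1 (hβp w).le)]
      nlinarith [mul_le_mul h1 (ha k) (abs_nonneg _) (by positivity)]
    have : |hh β (g t) a p| ≤ 8 * b := by
      unfold hh
      refine (abs_add_le _ _).trans ?_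
      linarith [t3 (p, false) p.1.1, t3 (p, true) p.1.2]
    have := pow_le_pow_left₀ (abs_nonneg _) this 2
    rw [sq_abs] at this
    linarith
  have key : ∀ t, (∀ p, 0 ≤ t p ∧ t p ≤ 1) → ∀ i j : Fin m,
      |(S t (ee i + ee j) - S t (ee i - ee j)) -
        4 * ((if i = j then 1 else 0) - ∑ p, TT β (g t) (ee i) (ee j) p)| ≤ 2 * δ := by
    intro t ht i j
    have h1 := hcl t ht (ee i + ee j) (fun k => by
      have := ee_01 i k
      have := ee_01 j k
      rw [Pi.add_apply, abs_le]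
      constructor <;> linarith) (by
      have : ∑ k, (ee i + ee j) k ^ 2 ≤ ∑ k, (2 * ee i k ^ 2 + 2 * ee j k ^ 2) :=
        Finset.sum_le_sum fun k _ => by
          rw [Pi.add_apply]; nlinarith [sq_nonneg (ee i k - ee j k)]
      rw [Finset.sum_add_distrib, ← Finset.mul_sum, ← Finset.mul_sum, ee_sum, ee_sum] at this
      linarith)
    have h2 := hcl t ht (ee i - ee j) (fun k => by
      have := ee_01 i k
      have := ee_01 j k
      rw [Pi.sub_apply, abs_le]
      constructor <;> linarith) (by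
      have : ∑ k, (ee i - ee j) k ^ 2 ≤ ∑ k, (2 * ee i k ^ 2 + 2 * ee j k ^ 2) :=
        Finset.sum_le_sum fun k _ => by
          rw [Pi.sub_apply]; nlinarith [sq_nonneg (ee i k + ee j k)]
      rw [Finset.sum_add_distrib, ← Finset.mul_sum, ← Finset.mul_sum, ee_sum, ee_sum] at this
      linarith)
    rw [← ee_inner, ← polar]
    rw [abs_le] at h1 h2 ⊢
    constructor <;> linarith [h1.1, h1.2, h2.1, h2.2]
  have TTnn : ∀ t, (∀ p, 0 ≤ t p ∧ t p ≤ 1) → ∀ i p, 0 ≤ TT β (g t) (ee i) (ee i) p := by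
    intro t ht i p
    unfold TT
    have h1 := (hg t ht (p, false)).1.1
    have h2 := (hg t ht (p, true)).1.1
    have h3 : 0 < DD β (g t) p := hD0.trans_le (hD _ (fun w => (hg t ht w).1) p)
    have := mul_self_nonneg (ee i p.1.1)
    have := mul_self_nonneg (ee i p.1.2)
    have := mul_self_nonneg (hh β (g t) (ee i) p)
    positivity
  have at0 : ∀ t, (∀ p, 0 ≤ t p ∧ t p ≤ 1) → ∀ p : PP m, t p = 0 →
      -(4 * δ) < S t (ee p.1.1 + ee p.1.2) - S t (ee p.1.1 - ee p.1.2) := by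
    intro t ht p0 h0
    have k1 := (abs_le.1 (key t ht p0.1.1 p0.1.2)).1
    have z1 := (hg t ht (p0, false)).2.1 h0
    have z2 := (hg t ht (p0, true)).2.1 h0
    by_cases h : p0.1.1 = p0.1.2
    · rw [if_pos h, ← h] at k1
      rw [← h]
      have : ∑ p, TT β (g t) (ee p0.1.1) (ee p0.1.1) p ≤ ∑ _p : PP m, 3 * ζ := by
        apply Finset.sum_le_sum
        intro p _
        by_cases hp : p.1.1 = p.1.2
        · by_cases hpp : p = p0
          · subst hpp
            simp only [TT, hh, z1, z2]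
            simp
            positivity
          · have n1 : p.1.1 ≠ p0.1.1 := by
              intro n1
              apply hpp
              exact Subtype.ext (Prod.ext n1 (by rw [← hp, ← h, n1]))
            have n2 : p.1.2 ≠ p0.1.1 := by rw [← hp]; exact n1
            simp only [TT, hh, ee, Pi.single_eq_of_ne n1, Pi.single_eq_of_ne n2]
            simp
            positivity
        · have g1 := (hg t ht (p, false)).1
          have g2 := (hg t ht (p, true)).1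
          rw [gb_off p _ hp] at g1 g2
          have e1 := ee_01 p0.1.1 p.1.1
          have e2 := ee_01 p0.1.1 p.1.2
          have hDp := hDoff _ (fun w => (hg t ht w).1) p hp
          have v1 : g t (p, false) * (ee p0.1.1 p.1.1 * ee p0.1.1 p.1.1) ≤ ζ * 1 :=
            mul_le_mul g1.2 (mul_le_one₀ e1.2 e1.1 e1.2) (mul_self_nonneg _) hζ0.le
          have v2 : g t (p, true) * (ee p0.1.1 p.1.2 * ee p0.1.1 p.1.2) ≤ ζ * 1 :=
            mul_le_mul g2.2 (mul_le_one₀ e2.2 e2.1 e2.2) (mul_self_nonneg _) hζ0.le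
          have v3 : ∀ s k, 0 ≤ g t (p, s) * β (p, s) * ee p0.1.1 k ∧
              g t (p, s) * β (p, s) * ee p0.1.1 k ≤ ζ * b := by
            intro s k
            have g3 := (hg t ht (p, s)).1
            rw [gb_off p _ hp] at g3
            have e3 := ee_01 p0.1.1 k
            have b3 := hβp (p, s)
            refine ⟨mul_nonneg (mul_nonneg g3.1 b3.le) e3.1, ?_⟩
            have := mul_le_mul g3.2 (hβb (p, s)) b3.le hζ0.le
            nlinarith [mul_le_mul_of_nonneg_left e3.2 (mul_nonneg g3.1 b3.le)]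
          have v4 : hh β (g t) (ee p0.1.1) p * hh β (g t) (ee p0.1.1) p ≤
              (2 * (ζ * b)) * (2 * (ζ * b)) := by
            have w1 := v3 false p.1.1
            have w2 := v3 true p.1.2
            apply mul_self_le_mul_self
            · unfold hh; linarith
            · unfold hh; linarith
          have v5 : hh β (g t) (ee p0.1.1) p * hh β (g t) (ee p0.1.1) p / DD β (g t) p ≤ ζ := by
            rw [div_le_iff₀ (by linarith)]
            nlinarith [mul_le_mul_of_nonneg_left hζb hζ0.le,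
              mul_le_mul_of_nonneg_left hDp hζ0.le]
          unfold TT
          linarith
      simp only [Finset.sum_const, Finset.card_univ, nsmul_eq_mul] at this
      rw [← hN] at this
      nlinarith
    · rw [if_neg h, TT_off β _ p0 h, z1, z2] at k1
      simp only [zero_mul, zero_div] at k1
      linarith
  have at1 : ∀ t, (∀ p, 0 ≤ t p ∧ t p ≤ 1) → ∀ p : PP m, t p = 1 →
      S t (ee p.1.1 + ee p.1.2) - S t (ee p.1.1 - ee p.1.2) ≤ -(4 * δ) := by
    intro t ht p0 h0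
    have k1 := (abs_le.1 (key t ht p0.1.1 p0.1.2)).2
    have z1 := (hg t ht (p0, false)).2.2 h0
    have z2 := (hg t ht (p0, true)).2.2 h0
    by_cases h : p0.1.1 = p0.1.2
    · rw [if_pos h, ← h] at k1
      rw [← h]
      have h1 : TT β (g t) (ee p0.1.1) (ee p0.1.1) p0 ≤
          ∑ p, TT β (g t) (ee p0.1.1) (ee p0.1.1) p :=
        Finset.single_le_sum (f := fun p => TT β (g t) (ee p0.1.1) (ee p0.1.1) p)
          (fun p _ => TTnn t ht _ p) (Finset.mem_univ p0)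
      have h2 : TT β (g t) (ee p0.1.1) (ee p0.1.1) p0 = 2 := by
        rw [gb_f p0 h] at z1
        rw [gb_t p0 h] at z2
        simp only [TT, hh, DD, z1, z2, ee, Pi.single_eq_same]
        have : 1 - 2 / (1 + 2 * β (p0, false) ^ 2) * β (p0, false) ^ 2 - 0 * β (p0, true) ^ 2 =
            1 / (1 + 2 * β (p0, false) ^ 2) := by
          field_simp
          ring
        rw [this]
        field_simp
        ring
      linarith
    · rw [if_neg h, TT_off β _ p0 h, z1, z2, gb_off p0 _ h, gb_off p0 _ h] at k1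
      have hDp := hDoff _ (fun w => (hg t ht w).1) p0 h
      have hDp1 := hD1 _ (fun w => (hg t ht w).1) p0
      have h1 : b0 * b0 ≤ β (p0, false) * β (p0, true) :=
        mul_le_mul (hβ0 _) (hβ0 _) hb0.le (hβp _).le
      have h2 : 2 * δ ≤ ζ * β (p0, false) * (ζ * β (p0, true)) / DD β (g t) p0 := by
        rw [le_div_iff₀ (by linarith)]
        nlinarith [mul_le_mul_of_nonneg_left h1 (sq_nonneg ζ),
          mul_le_mul_of_nonneg_left hDp1 hδ0.le]
      linarith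
  obtain ⟨t, ht, hF⟩ := miranda
    (fun t (p : PP m) => -(S t (ee p.1.1 + ee p.1.2) - S t (ee p.1.1 - ee p.1.2) + 4 * δ))
    (fun p => (((hcont _).sub (hcont _)).add continuousOn_const).neg)
    (fun t ht p h => by linarith [at0 t ht p h]) (fun t ht p h => by linarith [at1 t ht p h])
  refine ⟨t, fun p => ⟨lt_of_le_of_ne (ht p).1 fun h => ?_, (ht p).2⟩, δ, hδ0,
    fun p => by linarith [hF p]⟩
  linarith [at0 t ht p h.symm, hF p]

end Pool.Agent.H771Z.DM
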