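import Mathlib
import Pool.Agent.H771Z.DM.Abs1
import Pool.Agent.H771Z.DM.FinDim

set_option autoImplicit false

/-! The abstract setting of cells joined by small windows: two-sided comparison with the model. -/

open Set Filter Topology
open scoped InnerProductSpace

namespace Pool.Agent.H771Z.DM

/-- cells -/
abbrev KK (m : ℕ) := Fin m ⊕ PP m

variable {H H1 H2 : Type*} [NormedAddCommGroup H] [InnerProductSpace ℝ H]
  [NormedAddCommGroup H1] [InnerProductSpace ℝ H1] [NormedAddCommGroup H2] [InnerProductSpace ℝ H2]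

/-- the residual functional of `φ` -/
noncomputable def ell (p1 : H →L[ℝ] H1) (p2 : H →L[ℝ] H2) (lam : ℝ) (φ : H) : H →L[ℝ] ℝ :=
  (innerSL ℝ (p2 φ)).comp p2 - lam • (innerSL ℝ (p1 φ)).comp p1

lemma ell_apply (p1 : H →L[ℝ] H1) (p2 : H →L[ℝ] H2) (lam : ℝ) (φ u : H) :
    ell p1 p2 lam φ u = ⟪p2 φ, p2 u⟫_ℝ - lam * ⟪p1 φ, p1 u⟫_ℝ := rfl

/-- the hypotheses -/
structure Hyp {m : ℕ} (p1 : H →L[ℝ] H1) (p2 : H →L[ℝ] H2) (V : (WW m → ℝ) → Submodule ℝ H)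
    (D : (WW m → ℝ) → Set H) (Loc : WW m → Set H) (φ : KK m → H) (β : WW m → ℝ)
    (lam γ CP ε0 k : ℝ) : Prop where
  hnorm : ∀ u, ‖u‖ ^ 2 ≤ ‖p1 u‖ ^ 2 + ‖p2 u‖ ^ 2
  closed : ∀ s, IsClosed (V s : Set H)
  mono : Monotone V
  den : ∀ s, (V s : Set H) ⊆ closure (D s)
  dsub : ∀ s, D s ⊆ V s
  dzero : ∀ s, (0 : H) ∈ D s
  mem : ∀ s j, φ j ∈ V s
  ortho : ∀ i j, ⟪p1 (φ i), p1 (φ j)⟫_ℝ = if i = j then 1 else 0
  ell0 : ∀ j, ∀ u ∈ V 0, ell p1 p2 lam (φ j) u = 0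
  zero : ∀ w t, 0 ≤ t → t ≤ ε0 → ∀ j, j ≠ Sum.inl (en w) → j ≠ Sum.inr w.1 →
    ∀ u ∈ V (Pi.single w t), ell p1 p2 lam (φ j) u = 0
  gap : ∀ u ∈ V 0, γ * (‖p1 u‖ ^ 2 - ∑ j, ⟪p1 (φ j), p1 u⟫_ℝ ^ 2) ≤
    ‖p2 u‖ ^ 2 - lam * ‖p1 u‖ ^ 2
  cp : 0 ≤ CP
  eps : 0 ≤ ε0
  poinc : ∀ s, (∀ w, s w ≤ ε0) → ∀ u ∈ V s, ‖p1 u‖ ≤ CP * ‖p2 u‖
  pos : ∀ w, ∃ u ∈ V (Pi.single w ε0), ell p1 p2 lam (φ (Sum.inl (en w))) u ≠ 0
  cmp : ∀ w t, 0 ≤ t → t ≤ ε0 → ∀ N, 0 ≤ N →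
    (∀ u ∈ V (Pi.single w t), |ell p1 p2 lam (φ (Sum.inl (en w))) u| ≤ N * ‖p2 u‖) →
    ∀ u ∈ V (Pi.single w t), |ell p1 p2 lam (φ (Sum.inr w.1)) u -
      β w * ell p1 p2 lam (φ (Sum.inl (en w))) u| ≤ k * N * ‖p2 u‖
  dec : ∀ s, (∀ w, 0 ≤ s w ∧ s w ≤ ε0) → ∀ U ∈ D s, ∃ z : WW m → H, U - ∑ w, z w ∈ V 0 ∧
    (∀ w, z w ∈ V (Pi.single w (s w)) ∧ z w ∈ Loc w ∧ ‖p1 (z w)‖ ≤ k * ‖p2 U‖) ∧
    ‖p2 (U - ∑ w, z w)‖ ^ 2 + ∑ w, ‖p2 (z w)‖ ^ 2 ≤ (1 + k) * ‖p2 U‖ ^ 2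
  loc : ∀ w w', w ≠ w' → ∀ u ∈ Loc w, ∀ v ∈ Loc w', ⟪p2 u, p2 v⟫_ℝ = 0
  P1 : ∀ t, ∀ u ∈ V t, ∀ ε > 0, ∃ δ > 0, ∃ U ∈ V (fun w => t w - δ), ‖U - u‖ < ε
  P2 : ∀ t, (∀ w, 0 ≤ t w ∧ t w ≤ ε0) → ∀ R : ℝ, ∀ κ > 0, ∃ δ > 0,
    ∀ u ∈ V (fun w => t w + δ), ‖p2 u‖ ≤ R → ∃ U ∈ V t, ‖p2 U‖ ≤ ‖p2 u‖ + κ ∧ ‖p1 (U - u)‖ ≤ κ

/-- the strength of a window -/
noncomputable def nn {m : ℕ} (p1 : H →L[ℝ] H1) (p2 : H →L[ℝ] H2)
    (V : (WW m → ℝ) → Submodule ℝ H) (φ : KK m → H) (lam : ℝ) (w : WW m) (t : ℝ) : ℝ :=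
  -FF p1 p2 0 (lam • p1 (φ (Sum.inl (en w)))) (fun i : Empty => (i.elim : H))
    (fun i => i.elim) (V (Pi.single w t)) - lam

/-- combination of the residual functionals -/
noncomputable def ellc {m : ℕ} (p1 : H →L[ℝ] H1) (p2 : H →L[ℝ] H2) (lam : ℝ) (φ : KK m → H)
    (c : KK m → ℝ) : H →L[ℝ] ℝ := ∑ j, c j • ell p1 p2 lam (φ j)

/-- the combination of the coefficients seen by a window -/
def yy {m : ℕ} (β : WW m → ℝ) (c : KK m → ℝ) (w : WW m) : ℝ :=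
  c (Sum.inl (en w)) + β w * c (Sum.inr w.1)

namespace Hyp

variable {m : ℕ} {p1 : H →L[ℝ] H1} {p2 : H →L[ℝ] H2} {V : (WW m → ℝ) → Submodule ℝ H}
  {D : (WW m → ℝ) → Set H} {Loc : WW m → Set H} {φ : KK m → H} {β : WW m → ℝ}
  {lam γ CP ε0 k : ℝ} (h : Hyp p1 p2 V D Loc φ β lam γ CP ε0 k)
include h

lemma aφ (i j : KK m) : ⟪p2 (φ i), p2 (φ j)⟫_ℝ = lam * if i = j then 1 else 0 := by
  have := h.ell0 i _ (h.mem 0 j)
  rw [ell_apply, h.ortho] at this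
  linarith

lemma nφ (i : KK m) : ‖p1 (φ i)‖ = 1 := by
  have := h.ortho i i
  rw [if_pos rfl, real_inner_self_eq_norm_sq] at this
  nlinarith [norm_nonneg (p1 (φ i))]

lemma single_box (w : WW m) {t : ℝ} (h0 : 0 ≤ t) (h1 : t ≤ ε0) :
    ∀ w', 0 ≤ (Pi.single w t : WW m → ℝ) w' ∧ (Pi.single w t : WW m → ℝ) w' ≤ ε0 := by
  intro w'
  by_cases e : w' = w
  · subst e; simp [h0, h1]
  · simp [Pi.single_eq_of_ne e, h.eps]

lemma n_coer (j : KK m) {s : WW m → ℝ} (hs : ∀ w, s w ≤ ε0) {u : H} (hu : u ∈ V s) :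
    1 / 2 * ‖p2 u‖ ^ 2 - 2 * (|lam| * CP) ^ 2 ≤ QQ p1 p2 0 (lam • p1 (φ j)) u := by
  unfold QQ
  have h1 : |⟪lam • p1 (φ j), p1 u⟫_ℝ| ≤ |lam| * CP * ‖p2 u‖ := by
    refine (abs_real_inner_le_norm _ _).trans ?_
    rw [norm_smul, h.nφ, mul_one, Real.norm_eq_abs, mul_assoc]
    exact mul_le_mul_of_nonneg_left (h.poinc s hs u hu) (abs_nonneg _)
  have := (abs_le.1 h1).2
  nlinarith [sq_nonneg (‖p2 u‖ - 2 * (|lam| * CP))]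

lemma n_id (j : KK m) (u : H) : QQ p1 p2 0 (lam • p1 (φ j)) (φ j - u) =
    -lam - (2 * ell p1 p2 lam (φ j) u - ‖p2 u‖ ^ 2) := by
  unfold QQ
  have e1 := h.aφ j j
  have e2 := h.ortho j j
  rw [if_pos rfl] at e1 e2
  rw [ell_apply, map_sub, map_sub, norm_sub_sq_real, ← real_inner_self_eq_norm_sq (p2 (φ j)), e1,
    inner_smul_left, inner_sub_right, e2]
  simp only [conj_trivial]
  ring

lemma n1 (w : WW m) {t : ℝ} (h0 : 0 ≤ t) (h1 : t ≤ ε0) {u : H} (hu : u ∈ V (Pi.single w t)) :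
    2 * ell p1 p2 lam (φ (Sum.inl (en w))) u - ‖p2 u‖ ^ 2 ≤ nn p1 p2 V φ lam w t := by
  have : FF p1 p2 0 (lam • p1 (φ (Sum.inl (en w)))) (fun i : Empty => (i.elim : H))
      (fun i => i.elim) (V (Pi.single w t)) ≤
      QQ p1 p2 0 (lam • p1 (φ (Sum.inl (en w)))) (φ (Sum.inl (en w)) - u) := by
    apply csInf_le
    · refine ⟨-(2 * (|lam| * CP) ^ 2), ?_⟩
      rintro _ ⟨v, ⟨hv, -⟩, rfl⟩
      have := h.n_coer (Sum.inl (en w)) (fun w' => (h.single_box w h0 h1 w').2) hv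
      nlinarith [sq_nonneg ‖p2 v‖]
    · exact ⟨_, ⟨Submodule.sub_mem _ (h.mem _ _) hu, fun i => i.elim⟩, rfl⟩
  rw [h.n_id] at this
  unfold nn
  linarith

lemma n2 (w : WW m) (t : ℝ) {r : ℝ} (hr : r < nn p1 p2 V φ lam w t) :
    ∃ u ∈ V (Pi.single w t), r < 2 * ell p1 p2 lam (φ (Sum.inl (en w))) u - ‖p2 u‖ ^ 2 := by
  unfold nn at hr
  have hr' : FF p1 p2 0 (lam • p1 (φ (Sum.inl (en w)))) (fun i : Empty => (i.elim : H))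
    (fun i => i.elim) (V (Pi.single w t)) < -r - lam := by linarith
  obtain ⟨_, ⟨v, ⟨hv, -⟩, rfl⟩, h3⟩ := exists_lt_of_csInf_lt
    (con_ne p1 p2 (fun i : Empty => (i.elim : H)) (fun i => i.elim) (fun i => i.elim)
      (fun i => i.elim) _ _) hr'
  refine ⟨φ (Sum.inl (en w)) - v, Submodule.sub_mem _ (h.mem _ _) hv, ?_⟩
  have := h.n_id (Sum.inl (en w)) (φ (Sum.inl (en w)) - v)
  rw [sub_sub_cancel] at this
  linarith

lemma n_nonneg (w : WW m) {t : ℝ} (h0 : 0 ≤ t) (h1 : t ≤ ε0) : 0 ≤ nn p1 p2 V φ lam w t := by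
  have := h.n1 w h0 h1 (Submodule.zero_mem _)
  simpa using this

lemma n_zero (w : WW m) : nn p1 p2 V φ lam w 0 = 0 := by
  refine le_antisymm (not_lt.1 fun hp => ?_) (h.n_nonneg w le_rfl h.eps)
  obtain ⟨u, hu, h3⟩ := h.n2 w 0 hp
  rw [Pi.single_zero] at hu
  rw [h.ell0 _ u hu] at h3
  nlinarith [sq_nonneg ‖p2 u‖]

lemma n_mono (w : WW m) {t t' : ℝ} (h0 : 0 ≤ t) (h1 : t ≤ t') (h2 : t' ≤ ε0) :
    nn p1 p2 V φ lam w t ≤ nn p1 p2 V φ lam w t' := by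
  refine not_lt.1 fun hp => ?_
  obtain ⟨u, hu, h3⟩ := h.n2 w t hp
  have hu' : u ∈ V (Pi.single w t') := h.mono (Pi.single_le_single.2 h1) hu
  linarith [h.n1 w (h0.trans h1) h2 hu']

lemma n4 (w : WW m) {t : ℝ} (h0 : 0 ≤ t) (h1 : t ≤ ε0) {u : H} (hu : u ∈ V (Pi.single w t)) :
    |ell p1 p2 lam (φ (Sum.inl (en w))) u| ≤ √(nn p1 p2 V φ lam w t) * ‖p2 u‖ := by
  have hn := h.n_nonneg w h0 h1
  have := discrim_le_zero (a := ‖p2 u‖ ^ 2) (b := -(2 * ell p1 p2 lam (φ (Sum.inl (en w))) u))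
    (c := nn p1 p2 V φ lam w t) (by
      intro x
      have := h.n1 w h0 h1 (Submodule.smul_mem _ x hu)
      rw [map_smul, map_smul, norm_smul, mul_pow, Real.norm_eq_abs, sq_abs, smul_eq_mul] at this
      nlinarith)
  unfold discrim at this
  apply abs_le_of_sq_le_sq _ (by positivity)
  rw [mul_pow, Real.sq_sqrt hn]
  nlinarith

lemma n_pos (w : WW m) : 0 < nn p1 p2 V φ lam w ε0 := by
  obtain ⟨u, hu, h3⟩ := h.pos w
  refine lt_of_le_of_ne (h.n_nonneg w h.eps le_rfl) fun e => h3 ?_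
  have := h.n4 w h.eps le_rfl hu
  rw [← e, Real.sqrt_zero, zero_mul] at this
  exact abs_nonpos_iff.1 this

lemma n_cont (w : WW m) : ContinuousOn (nn p1 p2 V φ lam w) (Icc 0 ε0) := by
  have := cont_inf p1 p2 (fun i : Empty => (i.elim : H)) (fun i => i.elim) V h.mono
    {s | ∀ w, 0 ≤ s w ∧ s w ≤ ε0} 0 (lam • p1 (φ (Sum.inl (en w)))) (fun i => i.elim)
    (fun s i => i.elim) h.P1 h.P2 (ρ := 1 / 2) (C := 2 * (|lam| * CP) ^ 2) (by norm_num) h.cp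
    (fun s hs u hu _ => h.n_coer _ (fun w => (hs w).2) hu)
    (fun s hs u hu => h.poinc s (fun w => (hs w).2) u hu)
  have hc : Continuous (fun t : ℝ => (Pi.single w t : WW m → ℝ)) :=
    continuous_single (A := fun _ => ℝ) w
  exact ((this.comp hc.continuousOn fun t ht => h.single_box w ht.1 ht.2).neg).sub
    continuousOn_const

lemma expand (E : ℝ) (d : KK m → ℝ) (z : H) :
    QQ p1 p2 E 0 (∑ j, d j • φ j + z) = (lam - E) * ∑ j, d j ^ 2 + 2 * ellc p1 p2 lam φ d z +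
      2 * (lam - E) * ∑ j, d j * ⟪p1 (φ j), p1 z⟫_ℝ + QQ p1 p2 E 0 z := by
  have e1 : ‖p1 (∑ j, d j • φ j)‖ ^ 2 = ∑ j, d j ^ 2 := by
    rw [← real_inner_self_eq_norm_sq]
    nth_rewrite 1 [map_sum]
    rw [sum_inner]
    apply Finset.sum_congr rfl
    intro j _
    rw [map_smul, real_inner_smul_left, inner_sumφ p1 φ h.ortho, pow_two]
  have e2 : ‖p2 (∑ j, d j • φ j)‖ ^ 2 = lam * ∑ j, d j ^ 2 := by
    rw [← real_inner_self_eq_norm_sq, map_sum, sum_inner, Finset.mul_sum]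
    apply Finset.sum_congr rfl
    intro j _
    rw [inner_sum]
    simp_rw [map_smul, real_inner_smul_left, real_inner_smul_right, h.aφ]
    simp
    ring
  have e3 : ⟪p1 (∑ j, d j • φ j), p1 z⟫_ℝ = ∑ j, d j * ⟪p1 (φ j), p1 z⟫_ℝ := by
    rw [map_sum, sum_inner]
    simp_rw [map_smul, real_inner_smul_left]
  have e4 : ⟪p2 (∑ j, d j • φ j), p2 z⟫_ℝ = ∑ j, d j * ⟪p2 (φ j), p2 z⟫_ℝ := by
    rw [map_sum, sum_inner]
    simp_rw [map_smul, real_inner_smul_left]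
  have e5 : ellc p1 p2 lam φ d z = ∑ j, d j * ⟪p2 (φ j), p2 z⟫_ℝ -
      lam * ∑ j, d j * ⟪p1 (φ j), p1 z⟫_ℝ := by
    unfold ellc
    rw [sum_apply, Finset.mul_sum, ← Finset.sum_sub_distrib]
    apply Finset.sum_congr rfl
    intro j _
    rw [smul_apply, ell_apply, smul_eq_mul]
    ring
  unfold QQ
  rw [map_add, map_add, norm_add_sq_real, norm_add_sq_real, e1, e2, e3, e4, e5]
  simp only [inner_zero_left]
  ring

lemma ellc0 (c : KK m → ℝ) {u : H} (hu : u ∈ V 0) : ellc p1 p2 lam φ c u = 0 := by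
  unfold ellc
  rw [sum_apply]
  apply Finset.sum_eq_zero
  intro j _
  rw [smul_apply, h.ell0 j u hu, smul_zero]

lemma pair (c : KK m → ℝ) {Y : ℝ} (hY : ∀ j, |c j| ≤ Y) (w : WW m) {t : ℝ}
    (h0 : 0 ≤ t) (h1 : t ≤ ε0) {u : H} (hu : u ∈ V (Pi.single w t)) :
    |ellc p1 p2 lam φ c u - yy β c w * ell p1 p2 lam (φ (Sum.inl (en w))) u| ≤
      Y * (k * √(nn p1 p2 V φ lam w t) * ‖p2 u‖) := by
  have e : ellc p1 p2 lam φ c u = c (Sum.inl (en w)) * ell p1 p2 lam (φ (Sum.inl (en w))) u +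
      c (Sum.inr w.1) * ell p1 p2 lam (φ (Sum.inr w.1)) u := by
    unfold ellc
    rw [sum_apply, Finset.sum_eq_add (Sum.inl (en w)) (Sum.inr w.1) (by simp)]
    · simp
    · intro j _ hj
      rw [smul_apply, h.zero w t h0 h1 j hj.1 hj.2 u hu, smul_zero]
    · simp
    · simp
  have := h.cmp w t h0 h1 _ (Real.sqrt_nonneg _) (fun v hv => h.n4 w h0 h1 hv) u hu
  have e2 : ellc p1 p2 lam φ c u - yy β c w * ell p1 p2 lam (φ (Sum.inl (en w))) u =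
      c (Sum.inr w.1) * (ell p1 p2 lam (φ (Sum.inr w.1)) u -
        β w * ell p1 p2 lam (φ (Sum.inl (en w))) u) := by
    rw [e]
    unfold yy
    ring
  rw [e2, abs_mul]
  exact mul_le_mul (hY _) this (abs_nonneg _) ((abs_nonneg _).trans (hY (Sum.inr w.1)))

end Hyp

end Pool.Agent.H771Z.DM
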