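import Mathlib
import Pool.Agent.H771Z.DM.Abs2

set_option autoImplicit false

/-! Lower and upper comparison with the model form. -/

open Set Filter Topology
open scoped InnerProductSpace

namespace Pool.Agent.H771Z.DM

variable {H H1 H2 : Type*} [NormedAddCommGroup H] [InnerProductSpace ℝ H]
  [NormedAddCommGroup H1] [InnerProductSpace ℝ H1] [NormedAddCommGroup H2] [InnerProductSpace ℝ H2]

lemma low_arith {lam γ k M M' x A0 S B B0 b b0 e : ℝ} (hl : 0 < lam) (hγ : 0 < γ) (hk : 0 < k)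
    (hk6 : k ≤ 1 / 6) (hM' : 0 ≤ M') (hk1 : (2 * γ * M' + lam + 2 * lam ^ 2 / γ) * M ^ 2 * k ≤ 1)
    (hk2 : 3 * k * (lam + γ) ≤ γ / 2) (hx : 0 ≤ x) (hA : 0 ≤ A0) (hb : 0 ≤ b)
    (he : e = (M * k) ^ 2 * x)
    (h1 : A0 + S ≤ (1 + k) * x) (h2 : B ≤ (1 + γ / (2 * lam)) * B0 + (1 + 2 * lam / γ) * e)
    (h3 : b0 ≤ 2 * b + 2 * M' * e) (h4 : γ * (B0 - b0) ≤ A0 - lam * B0) :
    k * x + (1 - 3 * k) * S - 2 * γ * b ≤ x - lam * B := by
  have he0 : 0 ≤ e := by rw [he]; positivity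
  set r := (lam + γ / 2) / (lam + γ) with hr
  have hr0 : 0 ≤ r := by positivity
  have hr1 : r ≤ 1 - 3 * k := by
    rw [hr, div_le_iff₀ (by positivity)]
    nlinarith
  have hr2 : r ≤ 1 := by linarith
  have g1 : (lam + γ) * B0 ≤ A0 + (2 * γ * b + 2 * γ * M' * e) := by
    nlinarith [mul_le_mul_of_nonneg_left h3 hγ.le]
  have g2 : lam * ((1 + γ / (2 * lam)) * B0) = r * ((lam + γ) * B0) := by
    rw [hr]
    field_simp
  have g3 : lam * B ≤ r * ((lam + γ) * B0) + (lam + 2 * lam ^ 2 / γ) * e := by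
    have := mul_le_mul_of_nonneg_left h2 hl.le
    rw [mul_add, g2] at this
    have e2 : lam * ((1 + 2 * lam / γ) * e) = (lam + 2 * lam ^ 2 / γ) * e := by ring
    linarith
  have g4 : r * ((lam + γ) * B0) ≤ (1 - 3 * k) * A0 + (2 * γ * b + 2 * γ * M' * e) := by
    have t1 := mul_le_mul_of_nonneg_left g1 hr0
    have t2 := mul_le_mul_of_nonneg_right hr1 hA
    have t3 : r * (2 * γ * b + 2 * γ * M' * e) ≤ 1 * (2 * γ * b + 2 * γ * M' * e) :=
      mul_le_mul_of_nonneg_right hr2 (by positivity)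
    nlinarith
  have g5 : (2 * γ * M' + lam + 2 * lam ^ 2 / γ) * e ≤ k * x := by
    have := mul_le_mul_of_nonneg_right hk1 (show 0 ≤ k * x by positivity)
    rw [he]
    nlinarith
  have g6 : (1 - 3 * k) * (A0 + S) ≤ (1 - 2 * k) * x := by
    have := mul_le_mul_of_nonneg_left h1 (show 0 ≤ 1 - 3 * k by linarith)
    nlinarith [mul_nonneg (sq_nonneg k) hx]
  nlinarith

namespace Hyp

variable {m : ℕ} {p1 : H →L[ℝ] H1} {p2 : H →L[ℝ] H2} {V : (WW m → ℝ) → Submodule ℝ H}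
  {D : (WW m → ℝ) → Set H} {Loc : WW m → Set H} {φ : KK m → H} {β : WW m → ℝ}
  {lam γ CP ε0 k : ℝ} (h : Hyp p1 p2 V D Loc φ β lam γ CP ε0 k)
include h

lemma low (hl : 0 < lam) (hγ : 0 < γ) (hk : 0 < k) (hk6 : k ≤ 1 / 6)
    (hk1 : (2 * γ * (Fintype.card (KK m) : ℝ) + lam + 2 * lam ^ 2 / γ) *
      (Fintype.card (WW m) : ℝ) ^ 2 * k ≤ 1) (hk2 : 3 * k * (lam + γ) ≤ γ / 2)
    {s : WW m → ℝ} (hs : ∀ w, 0 ≤ s w ∧ s w ≤ ε0) (c : KK m → ℝ) {Y : ℝ} (hY : ∀ j, |c j| ≤ Y)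
    (hY' : ∀ w, |yy β c w| ≤ Y) {U : H} (hU : U ∈ V s) :
    k * ‖p2 U‖ ^ 2 - ∑ w, nn p1 p2 V φ lam w (s w) * (yy β c w ^ 2 + 12 * k * Y ^ 2) -
      2 * γ * ∑ j, ⟪p1 (φ j), p1 U⟫_ℝ ^ 2 ≤ QQ p1 p2 lam 0 U + 2 * ellc p1 p2 lam φ c U := by
  have hcl : IsClosed {U : H | k * ‖p2 U‖ ^ 2 -
      ∑ w, nn p1 p2 V φ lam w (s w) * (yy β c w ^ 2 + 12 * k * Y ^ 2) -
      2 * γ * ∑ j, ⟪p1 (φ j), p1 U⟫_ℝ ^ 2 ≤ QQ p1 p2 lam 0 U + 2 * ellc p1 p2 lam φ c U} := by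
    apply isClosed_le
    · fun_prop
    · exact (QQ_cont p1 p2 lam 0).add (continuous_const.mul (ellc p1 p2 lam φ c).continuous)
  refine closure_minimal ?_ hcl (h.den s hU)
  intro U hU
  obtain ⟨z, z0, z1, z2⟩ := h.dec s hs U hU
  set w0 := U - ∑ w, z w with hw0
  set M : ℝ := (Fintype.card (WW m) : ℝ) with hM
  have d1 : ‖p1 (∑ w, z w)‖ ≤ M * k * ‖p2 U‖ := by
    rw [map_sum]
    refine (norm_sum_le _ _).trans ((Finset.sum_le_sum fun w _ => (z1 w).2.2).trans ?_)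
    simp only [Finset.sum_const, Finset.card_univ, nsmul_eq_mul]
    rw [mul_assoc]
  have d2 : ‖p1 (∑ w, z w)‖ ^ 2 ≤ (M * k) ^ 2 * ‖p2 U‖ ^ 2 := by
    rw [← mul_pow]
    exact pow_le_pow_left₀ (norm_nonneg _) d1 2
  have eU : U = w0 + ∑ w, z w := by rw [hw0]; abel
  have key := low_arith (x := ‖p2 U‖ ^ 2) (A0 := ‖p2 w0‖ ^ 2) (S := ∑ w, ‖p2 (z w)‖ ^ 2)
    (B := ‖p1 U‖ ^ 2) (B0 := ‖p1 w0‖ ^ 2) (b := ∑ j, ⟪p1 (φ j), p1 U⟫_ℝ ^ 2)
    (b0 := ∑ j, ⟪p1 (φ j), p1 w0⟫_ℝ ^ 2) hl hγ hk hk6 (Nat.cast_nonneg _) hk1 hk2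
    (by positivity) (by positivity) (Finset.sum_nonneg fun _ _ => sq_nonneg _) rfl z2
    (by
      have t1 : ‖p1 U‖ ≤ ‖p1 w0‖ + ‖p1 (∑ w, z w)‖ := by
        conv_lhs => rw [eU, map_add]
        exact norm_add_le _ _
      have t2 := pow_le_pow_left₀ (norm_nonneg _) t1 2
      set a := ‖p1 w0‖
      set b := ‖p1 (∑ w, z w)‖
      have t3 : 2 * a * b ≤ γ / (2 * lam) * a ^ 2 + 2 * lam / γ * b ^ 2 := by
        have : γ / (2 * lam) * a ^ 2 + 2 * lam / γ * b ^ 2 - 2 * a * b =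
            (γ * a - 2 * lam * b) ^ 2 / (2 * lam * γ) := by
          field_simp
          ring
        have t4 : 0 ≤ (γ * a - 2 * lam * b) ^ 2 / (2 * lam * γ) := by positivity
        linarith
      have t5 := mul_le_mul_of_nonneg_left d2 (show 0 ≤ 1 + 2 * lam / γ by positivity)
      nlinarith)
    (by
      have : ∑ j, ⟪p1 (φ j), p1 w0⟫_ℝ ^ 2 ≤
          ∑ j, (2 * ⟪p1 (φ j), p1 U⟫_ℝ ^ 2 + 2 * ((M * k) ^ 2 * ‖p2 U‖ ^ 2)) := by
        apply Finset.sum_le_sum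
        intro j _
        rw [hw0, map_sub, inner_sub_right]
        have t1 := abs_real_inner_le_norm (p1 (φ j)) (p1 (∑ w, z w))
        rw [h.nφ, one_mul] at t1
        have t2 := pow_le_pow_left₀ (abs_nonneg _) t1 2
        rw [sq_abs] at t2
        nlinarith [sq_nonneg (⟪p1 (φ j), p1 U⟫_ℝ + ⟪p1 (φ j), p1 (∑ w, z w)⟫_ℝ)]
      rw [Finset.sum_add_distrib, ← Finset.mul_sum] at this
      simp only [Finset.sum_const, Finset.card_univ, nsmul_eq_mul] at this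
      linarith)
    (h.gap w0 z0)
  have e1 : ellc p1 p2 lam φ c U = ∑ w, ellc p1 p2 lam φ c (z w) := by
    conv_lhs => rw [eU, map_add, h.ellc0 c z0, zero_add, map_sum]
  have e2 : ∑ w, (-((1 - 3 * k) * ‖p2 (z w)‖ ^ 2) -
      nn p1 p2 V φ lam w (s w) * (yy β c w ^ 2 + 12 * k * Y ^ 2)) ≤
      ∑ w, 2 * ellc p1 p2 lam φ c (z w) := by
    apply Finset.sum_le_sum
    intro w _
    have t1 := h.pair c hY w (hs w).1 (hs w).2 (z1 w).1
    have t2 := h.n4 w (hs w).1 (hs w).2 (z1 w).1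
    have hn := h.n_nonneg w (hs w).1 (hs w).2
    have hsq := Real.sq_sqrt hn
    have hs0 := Real.sqrt_nonneg (nn p1 p2 V φ lam w (s w))
    set N := √(nn p1 p2 V φ lam w (s w))
    rw [← hsq]
    set a := ‖p2 (z w)‖
    have ha : 0 ≤ a := norm_nonneg _
    have hY0 : 0 ≤ Y := (abs_nonneg _).trans (hY' w)
    have t3 : |yy β c w * ell p1 p2 lam (φ (Sum.inl (en w))) (z w)| ≤ |yy β c w| * (N * a) := by
      rw [abs_mul]
      exact mul_le_mul_of_nonneg_left t2 (abs_nonneg _)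
    have t4 : -((|yy β c w| + k * Y) * N * a) ≤ ellc p1 p2 lam φ c (z w) := by
      have := (abs_le.1 t1).1
      have := (abs_le.1 t3).1
      nlinarith
    set y := |yy β c w|
    have hy : y ^ 2 = yy β c w ^ 2 := sq_abs _
    have hy0 : 0 ≤ y := abs_nonneg _
    have hyY : y ≤ Y := hY' w
    rw [← hy]
    have t5 : (y + k * Y) ^ 2 * (1 + 6 * k) ≤ y ^ 2 + 12 * k * Y ^ 2 := by
      have u1 : y * Y ≤ Y ^ 2 := by nlinarith
      have u2 : y ^ 2 ≤ Y ^ 2 := by nlinarith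
      have u3 : (y + k * Y) ^ 2 ≤ y ^ 2 + 3 * k * Y ^ 2 := by
        nlinarith [mul_le_mul_of_nonneg_left u1 hk.le,
          mul_le_mul_of_nonneg_right hk6 (mul_nonneg hk.le (sq_nonneg Y))]
      nlinarith [mul_le_mul_of_nonneg_right u3 (show 0 ≤ 1 + 6 * k by positivity),
        mul_le_mul_of_nonneg_left u2 hk.le,
        mul_le_mul_of_nonneg_right hk6 (mul_nonneg hk.le (sq_nonneg Y))]
    set q := (y + k * Y) * N with hq
    have t6 : 2 * (q * a) ≤ (1 - 3 * k) * a ^ 2 + (1 + 6 * k) * q ^ 2 := by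
      have u1 : 1 ≤ (1 - 3 * k) * (1 + 6 * k) := by nlinarith
      have u2 : 0 < 1 + 6 * k := by positivity
      have u3 : (1 + 6 * k) * (2 * (q * a)) ≤
          (1 + 6 * k) * ((1 - 3 * k) * a ^ 2 + (1 + 6 * k) * q ^ 2) := by
        nlinarith [sq_nonneg (a - (1 + 6 * k) * q), mul_le_mul_of_nonneg_right u1 (sq_nonneg a)]
      exact le_of_mul_le_mul_left u3 u2
    have t7 : (1 + 6 * k) * q ^ 2 ≤ N ^ 2 * (y ^ 2 + 12 * k * Y ^ 2) := by
      rw [hq, mul_pow]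
      nlinarith [mul_le_mul_of_nonneg_left t5 (sq_nonneg N)]
    linarith
  rw [Finset.sum_sub_distrib, Finset.sum_neg_distrib, ← Finset.mul_sum, ← Finset.mul_sum,
    ← e1] at e2
  simp only [mem_setOf_eq]
  unfold QQ
  rw [inner_zero_left]
  linarith

lemma near (hk : 0 < k) (hk1 : k ≤ 1) (w : WW m) {t : ℝ} (h0 : 0 ≤ t) (h1 : t ≤ ε0) :
    ∃ U z : H, U ∈ V (Pi.single w t) ∧ U - z ∈ V 0 ∧ z ∈ V (Pi.single w t) ∧ z ∈ Loc w ∧
      ‖p1 z‖ ≤ k * ‖p2 U‖ ∧ ‖p2 z‖ ^ 2 ≤ (1 + k) * ‖p2 U‖ ^ 2 ∧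
      (1 - k) * nn p1 p2 V φ lam w t ≤
        2 * ell p1 p2 lam (φ (Sum.inl (en w))) U - ‖p2 U‖ ^ 2 ∧
      ‖p2 U‖ ≤ 2 * √(nn p1 p2 V φ lam w t) := by
  have hn := h.n_nonneg w h0 h1
  have ex : ∃ U ∈ D (Pi.single w t), (1 - k) * nn p1 p2 V φ lam w t ≤
      2 * ell p1 p2 lam (φ (Sum.inl (en w))) U - ‖p2 U‖ ^ 2 := by
    rcases hn.eq_or_lt with e | hp
    · exact ⟨0, h.dzero _, by simp [← e]⟩
    · obtain ⟨u, hu, h3⟩ := h.n2 w t (r := (1 - k) * nn p1 p2 V φ lam w t) (by nlinarith)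
      have ho : IsOpen {U : H | (1 - k) * nn p1 p2 V φ lam w t <
          2 * ell p1 p2 lam (φ (Sum.inl (en w))) U - ‖p2 U‖ ^ 2} :=
        isOpen_lt continuous_const (by fun_prop)
      obtain ⟨U, U1, U2⟩ := mem_closure_iff.1 (h.den _ hu) _ ho h3
      exact ⟨U, U2, le_of_lt U1⟩
  obtain ⟨U, U1, U2⟩ := ex
  obtain ⟨z, z0, z1, z2⟩ := h.dec _ (h.single_box w h0 h1) U U1
  have hz : ∑ w', z w' = z w + ∑ w' ∈ Finset.univ.erase w, z w' :=
    (Finset.add_sum_erase _ _ (Finset.mem_univ w)).symm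
  have hr : ∑ w' ∈ Finset.univ.erase w, z w' ∈ V 0 := by
    apply Submodule.sum_mem
    intro w' hw'
    have := (z1 w').1
    rwa [Pi.single_eq_of_ne (Finset.ne_of_mem_erase hw'), Pi.single_zero] at this
  refine ⟨U, z w, h.dsub _ U1, ?_, ?_, (z1 w).2.1, (z1 w).2.2, ?_, U2, ?_⟩
  · have := Submodule.add_mem _ z0 hr
    rw [hz] at this
    convert this using 1
    abel
  · have := (z1 w).1
    rwa [Pi.single_eq_same] at this
  · have := Finset.single_le_sum (f := fun w => ‖p2 (z w)‖ ^ 2) (fun _ _ => sq_nonneg _)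
      (Finset.mem_univ w)
    nlinarith [sq_nonneg ‖p2 (U - ∑ w, z w)‖]
  · have t1 := (abs_le.1 (h.n4 w h0 h1 (h.dsub _ U1))).2
    have t2 : 0 ≤ (1 - k) * nn p1 p2 V φ lam w t := mul_nonneg (by linarith) hn
    by_contra hc
    push Not at hc
    have hs0 := Real.sqrt_nonneg (nn p1 p2 V φ lam w t)
    nlinarith [mul_pos (lt_of_le_of_lt (by positivity) hc) (sub_pos.2 hc)]

lemma up (hk : 0 < k) (hk1 : k ≤ 1) {s : WW m → ℝ} (hs : ∀ w, 0 ≤ s w ∧ s w ≤ ε0) {E η b1 : ℝ}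
    (hE0 : 0 ≤ E) (hE : E ≤ lam) (hη1 : η ≤ 1)
    (hn : ∀ w, nn p1 p2 V φ lam w (s w) ≤ 2 * η) (hβ : ∀ w, |β w| ≤ b1) (hb1 : 0 ≤ b1)
    (c : KK m → ℝ) {Y : ℝ} (hY0 : 0 ≤ Y) (hY : ∀ j, |c j| ≤ Y) (hY' : ∀ w, |yy β c w| ≤ Y) :
    ∃ u ∈ V s, (∀ j, ⟪p1 (φ j), p1 u⟫_ℝ = 0) ∧ QQ p1 p2 E 0 u + 2 * ellc p1 p2 lam φ c u ≤
      -∑ w, nn p1 p2 V φ lam w (s w) * yy β c w ^ 2 +
        (18 * (Fintype.card (WW m) : ℝ) + 32 * (Fintype.card (WW m) : ℝ) ^ 2 * (2 + b1)) *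
          k * η * Y ^ 2 := by
  choose U z U1 U2 z1 z2 z3 z4 U3 U4 using fun w => h.near hk hk1 w (hs w).1 (hs w).2
  set M : ℝ := (Fintype.card (WW m) : ℝ) with hM
  have hM0 : 0 ≤ M := Nat.cast_nonneg _
  set n : WW m → ℝ := fun w => nn p1 p2 V φ lam w (s w) with hndef
  have n0 : ∀ w, 0 ≤ n w := fun w => h.n_nonneg w (hs w).1 (hs w).2
  have nsq : ∀ w, √(n w) * √(n w) = n w := fun w => Real.mul_self_sqrt (n0 w)
  have n2 : ∀ w, √(n w) ≤ 2 := fun w => by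
    apply Real.sqrt_le_iff.2
    exact ⟨by norm_num, by linarith [hn w]⟩
  have hsU : ∀ w, √(n w) * ‖p2 (U w)‖ ≤ 2 * n w := fun w => by
    have := mul_le_mul_of_nonneg_left (U4 w) (Real.sqrt_nonneg (n w))
    nlinarith [nsq w]
  have hlA : ∀ w, |ell p1 p2 lam (φ (Sum.inl (en w))) (U w)| ≤ 2 * n w := fun w =>
    (h.n4 w (hs w).1 (hs w).2 (U1 w)).trans (hsU w)
  set Z := ∑ w, (-yy β c w) • z w with hZ
  have ZV : Z ∈ V s := by
    apply Submodule.sum_mem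
    intro w _
    apply Submodule.smul_mem
    apply h.mono _ (z1 w)
    intro w'
    by_cases e : w' = w
    · subst e; simp
    · simp [Pi.single_eq_of_ne e, (hs w').1]
  have eZ : ∀ d, ellc p1 p2 lam φ d Z = ∑ w, (-yy β c w) * ellc p1 p2 lam φ d (U w) := by
    intro d
    rw [hZ, map_sum]
    apply Finset.sum_congr rfl
    intro w _
    have := h.ellc0 d (U2 w)
    rw [map_sub, sub_eq_zero] at this
    rw [map_smul, smul_eq_mul, this]
  have nZ : ‖p2 Z‖ ^ 2 = ∑ w, yy β c w ^ 2 * ‖p2 (z w)‖ ^ 2 := by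
    rw [← real_inner_self_eq_norm_sq, hZ, map_sum, sum_inner]
    apply Finset.sum_congr rfl
    intro w _
    rw [inner_sum, Finset.sum_eq_single w]
    · rw [map_smul, real_inner_smul_left, real_inner_smul_right, real_inner_self_eq_norm_sq]
      ring
    · intro w' _ hw'
      rw [map_smul, map_smul, real_inner_smul_left, real_inner_smul_right,
        h.loc w w' (Ne.symm hw') _ (z2 w) _ (z2 w')]
      simp
    · simp
  set d : KK m → ℝ := fun j => -⟪p1 (φ j), p1 Z⟫_ℝ with hd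
  have pZ : ‖p1 Z‖ ≤ 4 * M * Y * k := by
    rw [hZ, map_sum]
    refine (norm_sum_le _ _).trans ((Finset.sum_le_sum (g := fun _ => Y * (k * 4))
      fun w _ => ?_).trans ?_)
    · rw [map_smul, norm_smul, Real.norm_eq_abs, abs_neg]
      apply mul_le_mul (hY' w) ((z3 w).trans _) (norm_nonneg _) hY0
      apply mul_le_mul_of_nonneg_left _ hk.le
      linarith [U4 w, n2 w]
    · simp only [Finset.sum_const, Finset.card_univ, nsmul_eq_mul]
      rw [← hM]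
      apply le_of_eq
      ring
  have hdY : ∀ j, |d j| ≤ 4 * M * Y * k := by
    intro j
    rw [hd, abs_neg]
    refine (abs_real_inner_le_norm _ _).trans ?_
    rw [h.nφ, one_mul]
    exact pZ
  refine ⟨∑ j, d j • φ j + Z, Submodule.add_mem _
    (Submodule.sum_mem _ fun j _ => Submodule.smul_mem _ _ (h.mem _ _)) ZV, fun j => ?_, ?_⟩
  · rw [map_add, inner_add_right, inner_sumφ p1 φ h.ortho]
    simp [hd]
  rw [h.expand, map_add, h.ellc0 c (Submodule.sum_mem _ fun j _ =>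
    Submodule.smul_mem _ _ (h.mem _ _)), zero_add]
  have e1 : ∑ j, d j * ⟪p1 (φ j), p1 Z⟫_ℝ = -∑ j, d j ^ 2 := by
    rw [← Finset.sum_neg_distrib]
    apply Finset.sum_congr rfl
    intro j _
    simp only [hd]
    ring
  have e2 : 0 ≤ (lam - E) * ∑ j, d j ^ 2 :=
    mul_nonneg (by linarith) (Finset.sum_nonneg fun _ _ => sq_nonneg _)
  have e3 : QQ p1 p2 E 0 Z ≤ ‖p2 Z‖ ^ 2 := by
    unfold QQ
    rw [inner_zero_left]
    nlinarith [mul_nonneg hE0 (sq_nonneg ‖p1 Z‖)]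
  have e4 : ellc p1 p2 lam φ d Z ≤ M * (Y * (4 * M * Y * k * (2 + b1) * (4 * η))) := by
    rw [eZ]
    refine (Finset.sum_le_sum (g := fun _ => Y * (4 * M * Y * k * (2 + b1) * (4 * η)))
      fun w _ => ?_).trans ?_
    · refine (le_abs_self _).trans ?_
      rw [abs_mul, abs_neg]
      apply mul_le_mul (hY' w) _ (abs_nonneg _) hY0
      set Yd := 4 * M * Y * k with hYd
      have hYd0 : 0 ≤ Yd := by positivity
      have t1 := h.pair d hdY w (hs w).1 (hs w).2 (U1 w)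
      have t2 : |yy β d w| ≤ Yd * (1 + b1) := by
        unfold yy
        refine (abs_add_le _ _).trans ?_
        rw [abs_mul]
        nlinarith [hdY (Sum.inl (en w)), mul_le_mul (hβ w) (hdY (Sum.inr w.1)) (abs_nonneg _) hb1]
      have t3 : |yy β d w * ell p1 p2 lam (φ (Sum.inl (en w))) (U w)| ≤
          Yd * (1 + b1) * (2 * n w) := by
        rw [abs_mul]
        exact mul_le_mul t2 (hlA w) (abs_nonneg _) (by positivity)
      have t4 : k * √(n w) * ‖p2 (U w)‖ ≤ 2 * n w := by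
        have := mul_le_mul hk1 (hsU w) (by positivity) zero_le_one
        nlinarith
      have t5 := mul_le_mul_of_nonneg_left t4 hYd0
      have t6 : Yd * (2 + b1) * (2 * n w) ≤ Yd * (2 + b1) * (4 * η) :=
        mul_le_mul_of_nonneg_left (by linarith [hn w]) (by positivity)
      rw [abs_le] at t1 t3 ⊢
      constructor <;> nlinarith [t1.1, t1.2, t3.1, t3.2]
    · simp only [Finset.sum_const, Finset.card_univ, nsmul_eq_mul]
      rw [← hM]
  have e5 : ‖p2 Z‖ ^ 2 + 2 * ellc p1 p2 lam φ c Z ≤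
      ∑ w, (-(n w * yy β c w ^ 2) + 18 * k * η * Y ^ 2) := by
    rw [nZ, eZ, Finset.mul_sum, ← Finset.sum_add_distrib]
    apply Finset.sum_le_sum
    intro w _
    have t1 := h.pair c hY w (hs w).1 (hs w).2 (U1 w)
    have t2 : Y * (k * √(n w) * ‖p2 (U w)‖) ≤ Y * (k * (2 * n w)) := by
      apply mul_le_mul_of_nonneg_left _ hY0
      rw [mul_assoc]
      exact mul_le_mul_of_nonneg_left (hsU w) hk.le
    have t3 : |yy β c w * (ellc p1 p2 lam φ c (U w) -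
        yy β c w * ell p1 p2 lam (φ (Sum.inl (en w))) (U w))| ≤ Y * (Y * (k * (2 * n w))) := by
      rw [abs_mul]
      exact mul_le_mul (hY' w) (t1.trans t2) (abs_nonneg _) hY0
    have t4 := (abs_le.1 t3).1
    have t5 : ‖p2 (U w)‖ ^ 2 ≤ 4 * n w := by
      have := pow_le_pow_left₀ (norm_nonneg _) (U4 w) 2
      nlinarith [nsq w]
    have t6 : yy β c w ^ 2 ≤ Y ^ 2 := by
      rw [← sq_abs]
      exact pow_le_pow_left₀ (abs_nonneg _) (hY' w) 2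
    have t7 : ‖p2 (z w)‖ ^ 2 - 2 * ell p1 p2 lam (φ (Sum.inl (en w))) (U w) ≤
        -n w + 5 * k * n w := by
      have := z4 w
      have := U3 w
      nlinarith [mul_le_mul_of_nonneg_left t5 hk.le]
    have t8 := mul_le_mul_of_nonneg_left t7 (sq_nonneg (yy β c w))
    have t9 : yy β c w ^ 2 * (k * n w) ≤ Y ^ 2 * (k * n w) :=
      mul_le_mul_of_nonneg_right t6 (mul_nonneg hk.le (n0 w))
    have t10 : Y ^ 2 * (k * n w) ≤ Y ^ 2 * (k * (2 * η)) :=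
      mul_le_mul_of_nonneg_left (mul_le_mul_of_nonneg_left (hn w) hk.le) (sq_nonneg _)
    nlinarith
  rw [Finset.sum_add_distrib, Finset.sum_neg_distrib] at e5
  simp only [Finset.sum_const, Finset.card_univ, nsmul_eq_mul] at e5
  rw [← hM] at e5
  rw [e1]
  nlinarith

end Hyp

end Pool.Agent.H771Z.DM
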