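import Mathlib
import Pool.Agent.H771Z.DM.Abs3

set_option autoImplicit false

/-! The abstract theorem: a choice of the windows with a degenerate second eigenvalue. -/

open Set Filter Topology
open scoped InnerProductSpace

namespace Pool.Agent.H771Z.DM

lemma QQ_sum {H H1 H2 : Type*} [NormedAddCommGroup H] [InnerProductSpace ℝ H]
    [NormedAddCommGroup H1] [InnerProductSpace ℝ H1] [NormedAddCommGroup H2]
    [InnerProductSpace ℝ H2] (p1 : H →L[ℝ] H1) (p2 : H →L[ℝ] H2) (E : ℝ) {m : ℕ}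
    (u : Fin m → H) (a : Fin m → ℝ) :
    QQ p1 p2 E 0 (∑ i, a i • u i) =
      ∑ i, ∑ j, a i * a j * (⟪p2 (u i), p2 (u j)⟫_ℝ - E * ⟪p1 (u i), p1 (u j)⟫_ℝ) := by
  unfold QQ
  rw [inner_zero_left, ← real_inner_self_eq_norm_sq, ← real_inner_self_eq_norm_sq, map_sum,
    map_sum, sum_inner, sum_inner, Finset.mul_sum, mul_zero, sub_zero, ← Finset.sum_sub_distrib]
  apply Finset.sum_congr rfl
  intro i _
  rw [inner_sum, inner_sum, Finset.mul_sum, ← Finset.sum_sub_distrib]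
  apply Finset.sum_congr rfl
  intro j _
  simp only [map_smul, real_inner_smul_left, real_inner_smul_right]
  ring

lemma ee_quad {m : ℕ} (B : Fin m → Fin m → ℝ) (i j : Fin m) :
    ∑ k, ∑ l, (ee i + ee j) k * (ee i + ee j) l * B k l -
      ∑ k, ∑ l, (ee i - ee j) k * (ee i - ee j) l * B k l = 2 * (B i j + B j i) := by
  have e : ∀ i j : Fin m, ∑ k, ∑ l, ee i k * ee j l * B k l = B i j := by
    intro i j
    rw [Finset.sum_eq_single i, Finset.sum_eq_single j]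
    · simp [ee]
    · intro l _ hl
      simp [ee, Pi.single_eq_of_ne hl]
    · simp
    · intro k _ hk
      simp [ee, Pi.single_eq_of_ne hk]
    · simp
  rw [← e i j, ← e j i, ← Finset.sum_add_distrib, Finset.mul_sum, ← Finset.sum_sub_distrib]
  apply Finset.sum_congr rfl
  intro k _
  rw [← Finset.sum_add_distrib, Finset.mul_sum, ← Finset.sum_sub_distrib]
  apply Finset.sum_congr rfl
  intro l _
  simp only [Pi.add_apply, Pi.sub_apply]
  ring

theorem abstract_main {H H1 H2 : Type*} [NormedAddCommGroup H] [InnerProductSpace ℝ H]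
    [NormedAddCommGroup H1] [InnerProductSpace ℝ H1] [NormedAddCommGroup H2]
    [InnerProductSpace ℝ H2] [CompleteSpace H] {m : ℕ} (β : WW m → ℝ) (hβ : ∀ w, 0 < β w)
    {lam γ : ℝ} (hl : 0 < lam) (hγ : 0 < γ) : ∃ k > 0,
    ∀ (p1 : H →L[ℝ] H1) (p2 : H →L[ℝ] H2) (V : (WW m → ℝ) → Submodule ℝ H)
      (D : (WW m → ℝ) → Set H) (Loc : WW m → Set H) (φ : KK m → H) (CP ε0 : ℝ),
      Hyp p1 p2 V D Loc φ β lam γ CP ε0 k →
      ∃ s : WW m → ℝ, (∀ w, 0 ≤ s w ∧ s w ≤ ε0) ∧ (∀ p, 0 < s (p, false)) ∧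
        (∀ p : PP m, p.1.1 ≠ p.1.2 → 0 < s (p, true)) ∧ ∃ E : ℝ,
        (∀ u ∈ V s, ∑ i, ⟪p1 (φ (Sum.inl i)), p1 u⟫_ℝ = 0 → E * ‖p1 u‖ ^ 2 ≤ ‖p2 u‖ ^ 2) ∧
        ∃ u : Fin m → H, (∀ i, u i ∈ V s) ∧
          (∀ i j, ⟪p1 (φ (Sum.inl i)), p1 (u j)⟫_ℝ = if i = j then 1 else 0) ∧
          ∀ a : Fin m → ℝ, ‖p2 (∑ i, a i • u i)‖ ^ 2 ≤ E * ‖p1 (∑ i, a i • u i)‖ ^ 2 := by
  obtain ⟨b0, hb0, hβ0⟩ : ∃ b0 > 0, ∀ w, b0 ≤ β w := by
    rcases isEmpty_or_nonempty (WW m) with he | he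
    · exact ⟨1, one_pos, fun w => isEmptyElim w⟩
    · obtain ⟨w, hw⟩ := Finite.exists_min β
      exact ⟨β w, hβ w, hw⟩
  set b1 := ∑ w, β w with hb1
  have hb10 : 0 ≤ b1 := Finset.sum_nonneg fun w _ => (hβ w).le
  have hβ1 : ∀ w, β w ≤ b1 := fun w =>
    Finset.single_le_sum (fun w _ => (hβ w).le) (Finset.mem_univ w)
  obtain ⟨gb, ε, ρ, C, hε, hρ, gb02, gbf, gbt, hcoer, hfin⟩ := fin_dim β hb0 hβ0 hβ1
  set M : ℝ := (Fintype.card (WW m) : ℝ) with hM
  have hM0 : 0 ≤ M := Nat.cast_nonneg _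
  set c1 := (2 * γ * (Fintype.card (KK m) : ℝ) + lam + 2 * lam ^ 2 / γ) * M ^ 2 with hc1
  have hc10 : 0 ≤ c1 := by positivity
  set c2 := (24 * M + 32 * M ^ 2 * (2 + b1)) * (1 + b1) ^ 2 with hc2
  have hc20 : 0 ≤ c2 := by positivity
  obtain ⟨k, hk, hk6, hk1, hk2, hk3⟩ : ∃ k > 0, k ≤ 1 / 6 ∧ c1 * k ≤ 1 ∧
      3 * k * (lam + γ) ≤ γ / 2 ∧ c2 * k ≤ ε := by
    refine ⟨min (min (1 / 6) (1 / (c1 + 1))) (min (γ / (6 * (lam + γ))) (ε / (c2 + 1))),
      by positivity, (min_le_left _ _).trans (min_le_left _ _), ?_, ?_, ?_⟩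
    · have : min (min (1 / 6) (1 / (c1 + 1))) (min (γ / (6 * (lam + γ))) (ε / (c2 + 1))) ≤
        1 / (c1 + 1) := (min_le_left _ _).trans (min_le_right _ _)
      refine (mul_le_mul_of_nonneg_left this hc10).trans ?_
      rw [mul_one_div, div_le_one (by positivity)]
      linarith
    · have : min (min (1 / 6) (1 / (c1 + 1))) (min (γ / (6 * (lam + γ))) (ε / (c2 + 1))) ≤
        γ / (6 * (lam + γ)) := (min_le_right _ _).trans (min_le_left _ _)
      rw [le_div_iff₀ (by positivity)] at this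
      linarith
    · have : min (min (1 / 6) (1 / (c1 + 1))) (min (γ / (6 * (lam + γ))) (ε / (c2 + 1))) ≤
        ε / (c2 + 1) := (min_le_right _ _).trans (min_le_right _ _)
      refine (mul_le_mul_of_nonneg_left this hc20).trans ?_
      rw [← mul_div_assoc, div_le_iff₀ (by positivity)]
      nlinarith
  refine ⟨k, hk, fun p1 p2 V D Loc φ CP ε0 h => ?_⟩
  obtain ⟨η, hη, hη1, hηl, hηn⟩ : ∃ η > 0, η ≤ 1 ∧ η ≤ lam ∧
      ∀ w, 2 * η ≤ nn p1 p2 V φ lam w ε0 := by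
    rcases isEmpty_or_nonempty (WW m) with he | he
    · exact ⟨min 1 lam, by positivity, min_le_left _ _, min_le_right _ _, fun w => isEmptyElim w⟩
    · obtain ⟨w, hw⟩ := Finite.exists_min (fun w => nn p1 p2 V φ lam w ε0)
      have := h.n_pos w
      refine ⟨min (min 1 lam) (nn p1 p2 V φ lam w ε0 / 2), by positivity,
        (min_le_left _ _).trans (min_le_left _ _), (min_le_left _ _).trans (min_le_right _ _),
        fun w' => ?_⟩
      have h1 : min (min 1 lam) (nn p1 p2 V φ lam w ε0 / 2) ≤ nn p1 p2 V φ lam w ε0 / 2 :=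
        min_le_right _ _
      linarith [hw w']
  have hτ : ∀ w, ∃ τ ∈ Icc 0 ε0, nn p1 p2 V φ lam w τ = gb w * η := by
    intro w
    apply intermediate_value_Icc h.eps (h.n_cont w)
    rw [h.n_zero]
    exact ⟨mul_nonneg (gb02 w).1 hη.le,
      (mul_le_mul_of_nonneg_right (gb02 w).2 hη.le).trans (hηn w)⟩
  choose τ hτ1 hτ2 using hτ
  have hτp : ∀ w, 0 < gb w → 0 < τ w := by
    intro w hw
    refine lt_of_le_of_ne (hτ1 w).1 fun e => ?_
    have := hτ2 w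
    rw [← e, h.n_zero] at this
    exact absurd this (mul_pos hw hη).ne
  set st : (PP m → ℝ) → WW m → ℝ := fun t w => t w.1 * τ w with hst
  have st1 : ∀ t, (∀ p, 0 ≤ t p ∧ t p ≤ 1) → ∀ w, 0 ≤ st t w ∧ st t w ≤ τ w := fun t ht w =>
    ⟨mul_nonneg (ht _).1 (hτ1 w).1, mul_le_of_le_one_left (hτ1 w).1 (ht _).2⟩
  set E := lam - η with hE
  set Sg : Set (WW m → ℝ) := {s | ∀ w, 0 ≤ s w ∧ s w ≤ τ w} with hSg
  have box : ∀ s ∈ Sg, ∀ w, 0 ≤ s w ∧ s w ≤ ε0 := fun s hs w =>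
    ⟨(hs w).1, (hs w).2.trans (hτ1 w).2⟩
  set gg : (WW m → ℝ) → WW m → ℝ := fun s w => nn p1 p2 V φ lam w (s w) / η with hgg
  have gg1 : ∀ s ∈ Sg, ∀ w, 0 ≤ gg s w ∧ gg s w ≤ gb w := by
    intro s hs w
    refine ⟨div_nonneg (h.n_nonneg w (hs w).1 (box s hs w).2) hη.le, ?_⟩
    rw [hgg]
    simp only
    rw [div_le_iff₀ hη, ← hτ2]
    exact h.n_mono w (hs w).1 (hs w).2 (hτ1 w).2
  have n2η : ∀ s ∈ Sg, ∀ w, nn p1 p2 V φ lam w (s w) ≤ 2 * η := by
    intro s hs w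
    have := ((gg1 s hs w).2.trans (gb02 w).2)
    rw [hgg] at this
    simp only at this
    rwa [div_le_iff₀ hη] at this
  have oA : ∀ i j : Fin m, ⟪p1 (φ (Sum.inl i)), p1 (φ (Sum.inl j))⟫_ℝ =
      if i = j then 1 else 0 := by
    intro i j
    rw [h.ortho]
    simp
  have bY : ∀ c : KK m → ℝ, (∀ j, |c j| ≤ (1 + b1) * √(∑ j, c j ^ 2)) ∧
      ∀ w, |yy β c w| ≤ (1 + b1) * √(∑ j, c j ^ 2) := by
    intro c
    have h1 : ∀ j, |c j| ≤ √(∑ j, c j ^ 2) := fun j =>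
      Real.abs_le_sqrt (Finset.single_le_sum (f := fun j => c j ^ 2) (fun _ _ => sq_nonneg _)
        (Finset.mem_univ j))
    have h0 := Real.sqrt_nonneg (∑ j, c j ^ 2)
    refine ⟨fun j => by nlinarith [h1 j], fun w => ?_⟩
    unfold yy
    refine (abs_add_le _ _).trans ?_
    rw [abs_mul, abs_of_pos (hβ w)]
    nlinarith [h1 (Sum.inl (en w)), mul_le_mul (hβ1 w) (h1 (Sum.inr w.1)) (abs_nonneg _) hb10]
  have Ysq : ∀ c : KK m → ℝ, ((1 + b1) * √(∑ j, c j ^ 2)) ^ 2 = (1 + b1) ^ 2 * ∑ j, c j ^ 2 := by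
    intro c
    rw [mul_pow, Real.sq_sqrt (Finset.sum_nonneg fun _ _ => sq_nonneg _)]
  have MfE : ∀ s (c : KK m → ℝ),
      η * Mf β (gg s) (fun i => c (Sum.inl i)) (fun p => c (Sum.inr p)) =
      η * ∑ j, c j ^ 2 - ∑ w, nn p1 p2 V φ lam w (s w) * yy β c w ^ 2 := by
    intro s c
    unfold Mf
    rw [Fintype.sum_sum_type, mul_sub, Finset.mul_sum Finset.univ _ η]
    congr 1
    apply Finset.sum_congr rfl
    intro w _
    simp only [hgg, yy]
    field_simp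
  -- lower comparison
  have L : ∀ s ∈ Sg, ∀ u ∈ V s, ∀ c : KK m → ℝ, (∀ j, ⟪p1 (φ j), p1 u⟫_ℝ = c j) →
      η * (Mf β (gg s) (fun i => c (Sum.inl i)) (fun p => c (Sum.inr p)) -
        ε * (∑ i, c (Sum.inl i) ^ 2 + ∑ p, c (Sum.inr p) ^ 2)) +
        k * ‖p2 (u - ∑ j, c j • φ j)‖ ^ 2 ≤ QQ p1 p2 E 0 u := by
    intro s hs u hu c hc
    set w := u - ∑ j, c j • φ j with hw
    have wV : w ∈ V s := Submodule.sub_mem _ hu
      (Submodule.sum_mem _ fun j _ => Submodule.smul_mem _ _ (h.mem _ _))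
    have w0 : ∀ j, ⟪p1 (φ j), p1 w⟫_ℝ = 0 := by
      intro j
      rw [hw, map_sub, inner_sub_right, inner_sumφ p1 φ h.ortho, hc, sub_self]
    have eu : u = ∑ j, c j • φ j + w := by rw [hw]; abel
    have t1 := h.low hl hγ hk hk6 hk1 hk2 (box s hs) c (bY c).1 (bY c).2 wV
    have t2 := h.expand E c w
    rw [← eu] at t2
    simp only [w0, mul_zero, Finset.sum_const_zero, ne_eq, OfNat.ofNat_ne_zero,
      not_false_eq_true, zero_pow] at t1 t2
    have t3 : QQ p1 p2 lam 0 w ≤ QQ p1 p2 E 0 w := by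
      unfold QQ
      nlinarith [mul_nonneg hη.le (sq_nonneg ‖p1 w‖)]
    rw [Ysq] at t1
    set A := ∑ j, c j ^ 2 with hA
    have hA0 : 0 ≤ A := Finset.sum_nonneg fun _ _ => sq_nonneg _
    have t4 : ∑ w, nn p1 p2 V φ lam w (s w) * (yy β c w ^ 2 + 12 * k * ((1 + b1) ^ 2 * A)) ≤
        ∑ w, (nn p1 p2 V φ lam w (s w) * yy β c w ^ 2 +
          2 * η * (12 * k * ((1 + b1) ^ 2 * A))) := by
      apply Finset.sum_le_sum
      intro w _
      have := mul_le_mul_of_nonneg_right (n2η s hs w)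
        (show 0 ≤ 12 * k * ((1 + b1) ^ 2 * A) by positivity)
      linarith
    rw [Finset.sum_add_distrib] at t4
    simp only [Finset.sum_const, Finset.card_univ, nsmul_eq_mul] at t4
    rw [← hM] at t4
    have t5 := mul_le_mul_of_nonneg_right hk3 (show 0 ≤ η * A by positivity)
    have t6 : 0 ≤ 32 * M ^ 2 * (2 + b1) * (1 + b1) ^ 2 * k * (η * A) := by positivity
    rw [mul_sub, MfE, ← Fintype.sum_sum_type (fun j => c j ^ 2), ← hA]
    have : lam - E = η := by rw [hE]; ring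
    rw [this] at t2
    rw [hc2] at t5
    nlinarith
  -- coercivity
  set ρ' := min (η * ρ / (2 * lam)) (k / 2) with hρ'
  have hρ'0 : 0 < ρ' := by positivity
  have Co : ∀ s ∈ Sg, ∀ a : Fin m → ℝ, ∀ u ∈ V s, (∀ i, ⟪p1 (φ (Sum.inl i)), p1 u⟫_ℝ = a i) →
      ρ' * ‖p2 u‖ ^ 2 - η * (C + ρ) * ∑ i, a i ^ 2 ≤ QQ p1 p2 E 0 u := by
    intro s hs a u hu ha
    set c : KK m → ℝ := fun j => ⟪p1 (φ j), p1 u⟫_ℝ with hc
    have t1 := L s hs u hu c (fun j => rfl)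
    have ea : (fun i => c (Sum.inl i)) = a := funext ha
    have t2 := hcoer (gg s) (gg1 s hs) (fun i => c (Sum.inl i)) (fun p => c (Sum.inr p))
    have t3 := mul_le_mul_of_nonneg_left t2 hη.le
    have t4 : ‖p2 (∑ j, c j • φ j)‖ ^ 2 = lam * ∑ j, c j ^ 2 := by
      have := h.expand 0 c 0
      simpa [QQ] using this
    have t5 : ‖p2 u‖ ≤ ‖p2 (∑ j, c j • φ j)‖ + ‖p2 (u - ∑ j, c j • φ j)‖ := by
      refine le_trans (le_of_eq ?_) (norm_add_le _ _)
      rw [← map_add]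
      congr 2
      abel
    have t6 : ‖p2 u‖ ^ 2 ≤ 2 * (lam * ∑ j, c j ^ 2) + 2 * ‖p2 (u - ∑ j, c j • φ j)‖ ^ 2 := by
      have := pow_le_pow_left₀ (norm_nonneg _) t5 2
      nlinarith [sq_nonneg (‖p2 (∑ j, c j • φ j)‖ - ‖p2 (u - ∑ j, c j • φ j)‖)]
    have t7 := mul_le_mul_of_nonneg_left t6 hρ'0.le
    have r1 : ρ' * (2 * lam) ≤ η * ρ := by
      have : ρ' ≤ η * ρ / (2 * lam) := min_le_left _ _
      rwa [le_div_iff₀ (by positivity)] at this
    have r2 : ρ' ≤ k / 2 := min_le_right _ _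
    have t8 := mul_le_mul_of_nonneg_right r1
      (Finset.sum_nonneg (s := Finset.univ) fun j _ => sq_nonneg (c j))
    have t9 := mul_le_mul_of_nonneg_right r2 (sq_nonneg ‖p2 (u - ∑ j, c j • φ j)‖)
    rw [Fintype.sum_sum_type (fun j => c j ^ 2)] at t7 t8
    rw [← ea]
    simp only at t3 ⊢
    nlinarith
  have hbdd : ∀ s ∈ Sg, ∀ a : Fin m → ℝ, BddBelow (QQ p1 p2 E 0 ''
      {u | u ∈ V s ∧ ∀ i, ⟪p1 (φ (Sum.inl i)), p1 u⟫_ℝ = a i}) := by
    intro s hs a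
    refine ⟨-(η * (C + ρ) * ∑ i, a i ^ 2), ?_⟩
    rintro _ ⟨u, ⟨h1, h2⟩, rfl⟩
    have := Co s hs a u h1 h2
    have : 0 ≤ ρ' * ‖p2 u‖ ^ 2 := by positivity
    linarith
  obtain ⟨t, ht, δ, hδ, hS⟩ := hfin (fun t => gg (st t))
    (fun t a => FF p1 p2 E 0 (fun i => φ (Sum.inl i)) a (V (st t)) / η)
    (by
      intro t ht w
      refine ⟨gg1 _ (st1 t ht) w, fun e => ?_, fun e => ?_⟩
      · simp only [hgg, hst, e, zero_mul, h.n_zero, zero_div]
      · simp only [hgg, hst, e, one_mul, hτ2]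
        field_simp)
    (by
      intro a
      have := cont_inf p1 p2 (fun i => φ (Sum.inl i)) a V h.mono Sg E 0 oA
        (fun s i => h.mem _ _) h.P1 (fun t ht => h.P2 t (box t ht)) hρ'0 h.cp
        (fun s hs => Co s hs a) (fun s hs u hu => h.poinc s (fun w => (box s hs w).2) u hu)
      have hc : Continuous st := by
        rw [hst]
        fun_prop
      exact (this.comp hc.continuousOn fun t ht => st1 t ht).div_const η)
    (by
      intro t ht a x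
      set c : KK m → ℝ := Sum.elim a x with hc
      obtain ⟨u, u1, u2, u3⟩ := h.up hk (by linarith) (box _ (st1 t ht)) (E := E) (by linarith)
        (by linarith) hη1 (n2η _ (st1 t ht)) (fun w => by rw [abs_of_pos (hβ w)]; exact hβ1 w)
        hb10 c (by positivity) (bY c).1 (bY c).2
      have t1 : FF p1 p2 E 0 (fun i => φ (Sum.inl i)) a (V (st t)) ≤
          QQ p1 p2 E 0 (∑ j, c j • φ j + u) := by
        apply csInf_le (hbdd _ (st1 t ht) a)
        refine ⟨_, ⟨Submodule.add_mem _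
          (Submodule.sum_mem _ fun j _ => Submodule.smul_mem _ _ (h.mem _ _)) u1, fun i => ?_⟩, rfl⟩
        rw [map_add, inner_add_right, inner_sumφ p1 φ h.ortho, u2, add_zero]
        rfl
      rw [h.expand] at t1
      simp only [u2, mul_zero, Finset.sum_const_zero] at t1
      have t2 := MfE (st t) c
      have e1 : (fun i => c (Sum.inl i)) = a := rfl
      have e2 : (fun p => c (Sum.inr p)) = x := rfl
      rw [e1, e2] at t2
      have e3 : ∑ i, a i ^ 2 + ∑ p, x p ^ 2 = ∑ j, c j ^ 2 := by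
        rw [Fintype.sum_sum_type]
        rfl
      rw [Ysq, ← hM] at u3
      rw [div_le_iff₀ hη, e3]
      set A := ∑ j, c j ^ 2 with hA
      have hA0 : 0 ≤ A := Finset.sum_nonneg fun _ _ => sq_nonneg _
      have t5 := mul_le_mul_of_nonneg_right hk3 (show 0 ≤ η * A by positivity)
      have t6 : 0 ≤ 6 * M * (1 + b1) ^ 2 * k * (η * A) := by positivity
      have : lam - E = η := by rw [hE]; ring
      rw [this] at t1
      rw [hc2] at t5
      nlinarith)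
    (by
      intro t ht a r hr
      rw [le_div_iff₀ hη]
      apply le_csInf (con_ne p1 p2 _ a oA (fun i => h.mem _ _) E 0)
      rintro _ ⟨u, ⟨h1, h2⟩, rfl⟩
      have t1 := L _ (st1 t ht) u h1 (fun j => ⟪p1 (φ j), p1 u⟫_ℝ) (fun j => rfl)
      have ea : (fun i => ⟪p1 (φ (Sum.inl i)), p1 u⟫_ℝ) = a := funext h2
      have t2 := mul_le_mul_of_nonneg_left (hr fun p => ⟪p1 (φ (Sum.inr p)), p1 u⟫_ℝ) hη.le
      rw [← ea] at t2
      have : 0 ≤ k * ‖p2 (u - ∑ j, ⟪p1 (φ j), p1 u⟫_ℝ • φ j)‖ ^ 2 := by positivity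
      simp only at t1 t2
      nlinarith)
  have ht' : ∀ p, 0 ≤ t p ∧ t p ≤ 1 := fun p => ⟨(ht p).1.le, (ht p).2⟩
  have hs := st1 t ht'
  obtain ⟨u, u1, u2, u3⟩ := lin_min p1 p2 (fun i => φ (Sum.inl i)) (V (st t)) (h.closed _) E oA
    (fun i => h.mem _ _) (ρ := ρ' / (CP ^ 2 + 1)) (by positivity) (by
      intro w hw hw0
      have t1 := Co _ hs 0 w hw hw0
      have t2 := pow_le_pow_left₀ (norm_nonneg _) (h.poinc _ (fun w => (box _ hs w).2) w hw) 2
      have t3 := h.hnorm w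
      have t4 : ‖w‖ ^ 2 ≤ (CP ^ 2 + 1) * ‖p2 w‖ ^ 2 := by nlinarith
      have t5 := mul_le_mul_of_nonneg_left t4 (show 0 ≤ ρ' / (CP ^ 2 + 1) by positivity)
      have t6 : ρ' / (CP ^ 2 + 1) * ((CP ^ 2 + 1) * ‖p2 w‖ ^ 2) = ρ' * ‖p2 w‖ ^ 2 := by
        field_simp
      simp only [Pi.zero_apply, ne_eq, OfNat.ofNat_ne_zero, not_false_eq_true, zero_pow,
        Finset.sum_const_zero, mul_zero, sub_zero] at t1
      linarith)
  set B : Fin m → Fin m → ℝ := fun i j =>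
    ⟪p2 (u i), p2 (u j)⟫_ℝ - E * ⟪p1 (u i), p1 (u j)⟫_ℝ with hB
  have Bs : ∀ i j, B i j = B j i := by
    intro i j
    simp only [hB]
    rw [real_inner_comm (p2 (u i)), real_inner_comm (p1 (u i))]
  have Ble : ∀ i j, i ≤ j → B i j = -(δ * η) := by
    intro i j hij
    have := hS ⟨(i, j), hij⟩
    simp only at this
    rw [u3, u3, QQ_sum, QQ_sum, ← sub_div, div_eq_iff hη.ne', ee_quad B, ← Bs i j] at this
    linarith
  have Ball : ∀ i j, B i j = -(δ * η) := fun i j =>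
    (le_total i j).elim (Ble i j) fun hji => by rw [Bs, Ble j i hji]
  have Qa : ∀ a : Fin m → ℝ, QQ p1 p2 E 0 (∑ i, a i • u i) = -(δ * η) * (∑ i, a i) ^ 2 := by
    intro a
    rw [QQ_sum, pow_two, Finset.sum_mul_sum, Finset.mul_sum]
    apply Finset.sum_congr rfl
    intro i _
    rw [Finset.mul_sum]
    apply Finset.sum_congr rfl
    intro j _
    have := Ball i j
    simp only [hB] at this
    rw [this]
    ring
  refine ⟨st t, box _ hs, fun p => mul_pos (ht p).1 (hτp _ (gbf p)),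
    fun p hp => mul_pos (ht p).1 (hτp _ (gbt p hp)), E, fun v hv h0 => ?_, u, u1, u2,
    fun a => ?_⟩
  · have t1 : FF p1 p2 E 0 (fun i => φ (Sum.inl i)) (fun i => ⟪p1 (φ (Sum.inl i)), p1 v⟫_ℝ)
        (V (st t)) ≤ QQ p1 p2 E 0 v := csInf_le (hbdd _ hs _) ⟨v, ⟨hv, fun i => rfl⟩, rfl⟩
    rw [u3, Qa, h0] at t1
    unfold QQ at t1
    rw [inner_zero_left] at t1
    nlinarith
  · have t1 := Qa a
    unfold QQ at t1
    rw [inner_zero_left] at t1
    nlinarith [mul_nonneg (mul_pos hδ hη).le (sq_nonneg (∑ i, a i))]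

end Pool.Agent.H771Z.DM
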