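import Mathlib

set_option autoImplicit false

/-! One-dimensional inequalities: a weak Wirtinger inequality and the spectral gap of an
interval. -/

open MeasureTheory Set Real

namespace Pool.Agent.H771Z.DM

/-- weak Wirtinger inequality -/
lemma wirt {w w' : ℝ → ℝ} (hw : ∀ s, HasDerivAt w (w' s) s) (hc : Continuous w') {a b c : ℝ}
    (hab : a ≤ b) (hc0 : 0 < c) (hcb : c * (b - a) < π) (ha : w a = 0) (hb : w b = 0) :
    c ^ 2 * ∫ s in a..b, w s ^ 2 ≤ ∫ s in a..b, w' s ^ 2 := by
  have hwc : Continuous w := continuous_iff_continuousAt.2 fun s => (hw s).continuousAt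
  set m := (a + b) / 2 with hm
  have hcos : ∀ s ∈ uIcc a b, cos (c * (s - m)) ≠ 0 := by
    intro s hs
    rw [uIcc_of_le hab] at hs
    apply ne_of_gt
    apply cos_pos_of_mem_Ioo
    constructor
    · nlinarith [hs.1, hs.2]
    · nlinarith [hs.1, hs.2]
  set ξ : ℝ → ℝ := fun s => c * tan (c * (s - m)) with hξ
  have hξd : ∀ s ∈ uIcc a b, HasDerivAt ξ (c ^ 2 + ξ s ^ 2) s := by
    intro s hs
    have h1 : HasDerivAt (fun s : ℝ => c * (s - m)) c s := by
      simpa using ((hasDerivAt_id s).sub_const m).const_mul c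
    have h2 := ((hasDerivAt_tan (hcos s hs)).comp s h1).const_mul c
    have h3 : c * (1 / cos (c * (s - m)) ^ 2 * c) = c ^ 2 + ξ s ^ 2 := by
      have := hcos s hs
      simp only [hξ, tan_eq_sin_div_cos]
      field_simp
      nlinarith [sin_sq_add_cos_sq (c * (s - m))]
    rw [← h3]
    exact h2
  have hξc : ContinuousOn ξ (uIcc a b) := fun s hs => (hξd s hs).continuousAt.continuousWithinAt
  have hH : ∫ s in a..b, (2 * w s * w' s * ξ s + w s ^ 2 * (c ^ 2 + ξ s ^ 2)) = 0 := by
    have := intervalIntegral.integral_eq_sub_of_hasDerivAt (f := fun s => w s ^ 2 * ξ s)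
      (f' := fun s => 2 * w s * w' s * ξ s + w s ^ 2 * (c ^ 2 + ξ s ^ 2)) (a := a) (b := b)
      (by
        intro s hs
        have := ((hw s).pow 2).mul (hξd s hs)
        refine HasDerivAt.congr_deriv this ?_
        simp)
      (by
        apply ContinuousOn.intervalIntegrable
        exact (((continuous_const.mul hwc).mul hc).continuousOn.mul hξc).add
          ((hwc.pow 2).continuousOn.mul (continuousOn_const.add (hξc.pow 2))))
    rw [this, ha, hb]
    simp
  have hpos : 0 ≤ ∫ s in a..b, (w' s + w s * ξ s) ^ 2 :=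
    intervalIntegral.integral_nonneg hab fun s _ => sq_nonneg _
  have i1 : IntervalIntegrable (fun s => w' s ^ 2) volume a b := (hc.pow 2).intervalIntegrable _ _
  have i2 : IntervalIntegrable (fun s => w s ^ 2) volume a b := (hwc.pow 2).intervalIntegrable _ _
  have i3 : IntervalIntegrable
      (fun s => 2 * w s * w' s * ξ s + w s ^ 2 * (c ^ 2 + ξ s ^ 2)) volume a b := by
    apply ContinuousOn.intervalIntegrable
    exact (((continuous_const.mul hwc).mul hc).continuousOn.mul hξc).add
      ((hwc.pow 2).continuousOn.mul (continuousOn_const.add (hξc.pow 2)))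
  have e : ∫ s in a..b, (w' s + w s * ξ s) ^ 2 = (∫ s in a..b, w' s ^ 2) +
      (∫ s in a..b, (2 * w s * w' s * ξ s + w s ^ 2 * (c ^ 2 + ξ s ^ 2))) -
      c ^ 2 * ∫ s in a..b, w s ^ 2 := by
    rw [← intervalIntegral.integral_add i1 i3, ← intervalIntegral.integral_const_mul,
      ← intervalIntegral.integral_sub (i1.add i3) (i2.const_mul _)]
    apply intervalIntegral.integral_congr
    intro s _
    simp only
    ring
  linarith

/-- the normalised first eigenfunction of the interval `(lo, lo + d)` -/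
noncomputable def sg (lo d s : ℝ) : ℝ := √(2 / d) * sin (π / d * (s - lo))

/-- its derivative -/
noncomputable def sg' (lo d s : ℝ) : ℝ := √(2 / d) * (π / d) * cos (π / d * (s - lo))

lemma lin_deriv (lo d s : ℝ) : HasDerivAt (fun s : ℝ => π / d * (s - lo)) (π / d) s := by
  simpa using ((hasDerivAt_id s).sub_const lo).const_mul (π / d)

lemma sg_deriv (lo d s : ℝ) : HasDerivAt (sg lo d) (sg' lo d s) s := by
  have := ((hasDerivAt_sin _).comp s (lin_deriv lo d s)).const_mul (√(2 / d))
  refine HasDerivAt.congr_deriv this ?_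
  unfold sg'
  ring

lemma sg'_deriv (lo d s : ℝ) : HasDerivAt (sg' lo d) (-((π / d) ^ 2 * sg lo d s)) s := by
  have := ((hasDerivAt_cos _).comp s (lin_deriv lo d s)).const_mul (√(2 / d) * (π / d))
  refine HasDerivAt.congr_deriv this ?_
  unfold sg
  ring

lemma sg_cd (lo d : ℝ) : ContDiff ℝ (⊤ : ℕ∞) (sg lo d) := by
  unfold sg
  exact contDiff_const.mul (contDiff_sin.comp (contDiff_const.mul (contDiff_id.sub contDiff_const)))

lemma sg'_cd (lo d : ℝ) : ContDiff ℝ (⊤ : ℕ∞) (sg' lo d) := by
  unfold sg'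
  exact contDiff_const.mul (contDiff_cos.comp (contDiff_const.mul (contDiff_id.sub contDiff_const)))

lemma sg_cont (lo d : ℝ) : Continuous (sg lo d) := (sg_cd lo d).continuous
lemma sg'_cont (lo d : ℝ) : Continuous (sg' lo d) := (sg'_cd lo d).continuous

lemma sg_lo (lo d : ℝ) : sg lo d lo = 0 := by simp [sg]

lemma sg_hi (lo : ℝ) {d : ℝ} (hd : 0 < d) : sg lo d (lo + d) = 0 := by
  have : π / d * (lo + d - lo) = π := by field_simp; ring
  simp only [sg, this, sin_pi, mul_zero]

lemma sg_pos {lo d s : ℝ} (hd : 0 < d) (h1 : lo < s) (h2 : s < lo + d) : 0 < sg lo d s := by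
  unfold sg
  apply mul_pos (sqrt_pos.2 (by positivity))
  apply sin_pos_of_pos_of_lt_pi
  · exact mul_pos (by positivity) (by linarith)
  · have : π / d * (s - lo) < π / d * d := mul_lt_mul_of_pos_left (by linarith) (by positivity)
    rwa [div_mul_cancel₀ _ hd.ne'] at this

lemma sg_abs (lo d s : ℝ) : |sg lo d s| ≤ √(2 / d) := by
  unfold sg
  rw [abs_mul, abs_of_nonneg (sqrt_nonneg _)]
  exact mul_le_of_le_one_right (sqrt_nonneg _) (abs_sin_le_one _)

lemma sg'_lo (lo d : ℝ) : sg' lo d lo = √(2 / d) * (π / d) := by simp [sg']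

lemma sg'_hi (lo : ℝ) {d : ℝ} (hd : 0 < d) : sg' lo d (lo + d) = -(√(2 / d) * (π / d)) := by
  have : π / d * (lo + d - lo) = π := by field_simp; ring
  simp only [sg', this, cos_pi, mul_neg, mul_one]

lemma sg_norm (lo : ℝ) {d : ℝ} (hd : 0 < d) : ∫ s in lo..(lo + d), sg lo d s ^ 2 = 1 := by
  have h := intervalIntegral.integral_eq_sub_of_hasDerivAt
    (f := fun s => (s - lo) / d - (d / π) ^ 2 / 2 * (sg lo d s * sg' lo d s))
    (f' := fun s => sg lo d s ^ 2) (a := lo) (b := lo + d)
    (by
      intro s _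
      have h1 := (((hasDerivAt_id s).sub_const lo).div_const d).sub
        (((sg_deriv lo d s).mul (sg'_deriv lo d s)).const_mul ((d / π) ^ 2 / 2))
      refine HasDerivAt.congr_deriv h1 ?_
      have h2 : √(2 / d) ^ 2 = 2 / d := sq_sqrt (by positivity)
      have h3 := sin_sq_add_cos_sq (π / d * (s - lo))
      have hp := pi_pos
      unfold sg sg'
      have e1 : (√(2 / d) * sin (π / d * (s - lo))) ^ 2 = 2 / d * sin (π / d * (s - lo)) ^ 2 := by
        rw [mul_pow, h2]
      have e2 : (d / π) ^ 2 / 2 * (√(2 / d) * (π / d) * cos (π / d * (s - lo)) *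
          (√(2 / d) * (π / d) * cos (π / d * (s - lo))) + √(2 / d) * sin (π / d * (s - lo)) *
          -((π / d) ^ 2 * (√(2 / d) * sin (π / d * (s - lo))))) =
          √(2 / d) ^ 2 / 2 * (cos (π / d * (s - lo)) ^ 2 - sin (π / d * (s - lo)) ^ 2) := by
        field_simp
        ring
      rw [e1, e2, h2]
      have : cos (π / d * (s - lo)) ^ 2 = 1 - sin (π / d * (s - lo)) ^ 2 := by linarith
      rw [this]
      field_simp
      ring)
    (((sg_cont lo d).pow 2).intervalIntegrable _ _)
  rw [h, sg_lo, sg_hi lo hd]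
  field_simp
  ring

/-- spectral gap of an interval -/
lemma gap1 {f f' : ℝ → ℝ} (hf : ∀ s, HasDerivAt f (f' s) s) (hc : Continuous f') {lo d : ℝ}
    (hd : 0 < d) (h0 : f lo = 0) (h1 : f (lo + d) = 0) :
    5 / 4 * (π / d) ^ 2 * ((∫ s in Ioo lo (lo + d), f s ^ 2) -
      (∫ s in Ioo lo (lo + d), sg lo d s * f s) ^ 2) ≤
      ∫ s in Ioo lo (lo + d), (f' s ^ 2 - (π / d) ^ 2 * f s ^ 2) := by
  have hle : lo ≤ lo + d := by linarith
  have conv : ∀ F : ℝ → ℝ, ∫ s in Ioo lo (lo + d), F s = ∫ s in lo..(lo + d), F s := by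
    intro F
    rw [intervalIntegral.integral_of_le hle, integral_Ioc_eq_integral_Ioo]
  rw [conv, conv, conv]
  have hfc : Continuous f := continuous_iff_continuousAt.2 fun s => (hf s).continuousAt
  have hp := pi_pos
  have hm : 0 < sg lo d (lo + d / 2) := sg_pos hd (by linarith) (by linarith)
  set c := f (lo + d / 2) / sg lo d (lo + d / 2) with hcdef
  set w : ℝ → ℝ := fun s => f s - c * sg lo d s with hw
  set w' : ℝ → ℝ := fun s => f' s - c * sg' lo d s with hw'
  have hwd : ∀ s, HasDerivAt w (w' s) s := fun s => (hf s).sub ((sg_deriv lo d s).const_mul c)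
  have hw'c : Continuous w' := hc.sub (continuous_const.mul (sg'_cont lo d))
  have hwc : Continuous w := hfc.sub (continuous_const.mul (sg_cont lo d))
  have w0 : w lo = 0 := by simp [hw, h0, sg_lo]
  have w1 : w (lo + d) = 0 := by simp [hw, h1, sg_hi lo hd]
  have wm : w (lo + d / 2) = 0 := by
    simp only [hw, hcdef]
    rw [div_mul_cancel₀ _ hm.ne', sub_self]
  have k1 := wirt hwd hw'c (a := lo) (b := lo + d / 2) (c := 3 / 2 * (π / d)) (by linarith)
    (by positivity) (by
      have : 3 / 2 * (π / d) * (lo + d / 2 - lo) = 3 / 4 * π := by field_simp; ring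
      rw [this]; linarith) w0 wm
  have k2 := wirt hwd hw'c (a := lo + d / 2) (b := lo + d) (c := 3 / 2 * (π / d)) (by linarith)
    (by positivity) (by
      have : 3 / 2 * (π / d) * (lo + d - (lo + d / 2)) = 3 / 4 * π := by field_simp; ring
      rw [this]; linarith) wm w1
  have a1 := intervalIntegral.integral_add_adjacent_intervals (μ := volume)
    (f := fun s => w s ^ 2)
    ((hwc.pow 2).intervalIntegrable lo (lo + d / 2))
    ((hwc.pow 2).intervalIntegrable (lo + d / 2) (lo + d))
  have a2 := intervalIntegral.integral_add_adjacent_intervals (μ := volume)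
    (f := fun s => w' s ^ 2)
    ((hw'c.pow 2).intervalIntegrable lo (lo + d / 2))
    ((hw'c.pow 2).intervalIntegrable (lo + d / 2) (lo + d))
  have k3 : (3 / 2 * (π / d)) ^ 2 * ∫ s in lo..(lo + d), w s ^ 2 ≤
      ∫ s in lo..(lo + d), w' s ^ 2 := by
    rw [← a1, ← a2]
    linarith
  have c1 := sg_cont lo d
  have c2 := sg'_cont lo d
  have hH := intervalIntegral.integral_eq_sub_of_hasDerivAt
    (f := fun s => -2 * c * (f s * sg' lo d s) + c ^ 2 * (sg lo d s * sg' lo d s))
    (f' := fun s => (w' s ^ 2 - (π / d) ^ 2 * w s ^ 2) - (f' s ^ 2 - (π / d) ^ 2 * f s ^ 2))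
    (a := lo) (b := lo + d)
    (by
      intro s _
      have h1 := (((hf s).mul (sg'_deriv lo d s)).const_mul (-2 * c)).add
        (((sg_deriv lo d s).mul (sg'_deriv lo d s)).const_mul (c ^ 2))
      refine HasDerivAt.congr_deriv h1 ?_
      simp only [hw, hw']
      ring)
    (by
      apply Continuous.intervalIntegrable
      fun_prop)
  rw [h0, h1, sg_lo, sg_hi lo hd, intervalIntegral.integral_sub
    (by apply Continuous.intervalIntegrable; fun_prop)
    (by apply Continuous.intervalIntegrable; fun_prop), intervalIntegral.integral_sub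
    (by apply Continuous.intervalIntegrable; fun_prop)
    (by apply Continuous.intervalIntegrable; fun_prop),
    intervalIntegral.integral_const_mul] at hH
  have e : ∫ s in lo..(lo + d), w s ^ 2 = (∫ s in lo..(lo + d), f s ^ 2) -
      2 * c * (∫ s in lo..(lo + d), sg lo d s * f s) +
      c ^ 2 * ∫ s in lo..(lo + d), sg lo d s ^ 2 := by
    rw [← intervalIntegral.integral_const_mul, ← intervalIntegral.integral_const_mul,
      ← intervalIntegral.integral_sub (by apply Continuous.intervalIntegrable; fun_prop)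
      (by apply Continuous.intervalIntegrable; fun_prop),
      ← intervalIntegral.integral_add (by apply Continuous.intervalIntegrable; fun_prop)
      (by apply Continuous.intervalIntegrable; fun_prop)]
    apply intervalIntegral.integral_congr
    intro s _
    simp only [hw]
    ring
  rw [sg_norm lo hd] at e
  have e2 : (∫ s in lo..(lo + d), f s ^ 2) - (∫ s in lo..(lo + d), sg lo d s * f s) ^ 2 ≤
      ∫ s in lo..(lo + d), w s ^ 2 := by
    rw [e]
    nlinarith [sq_nonneg (c - ∫ s in lo..(lo + d), sg lo d s * f s)]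
  have hk : 0 ≤ 5 / 4 * (π / d) ^ 2 := by positivity
  have := mul_le_mul_of_nonneg_left e2 hk
  nlinarith

end Pool.Agent.H771Z.DM
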