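import Mathlib

set_option autoImplicit false

/-! Bounded measurable functions and an inequality for two commuting projections. -/

open MeasureTheory Set

namespace Pool.Agent.H771Z.DM

/-- bounded measurable -/
def BM {X : Type*} [MeasurableSpace X] (f : X → ℝ) : Prop :=
  Measurable f ∧ ∃ C, ∀ x, |f x| ≤ C

namespace BM
variable {X Y : Type*} [MeasurableSpace X] [MeasurableSpace Y] {f g : X → ℝ}

lemma integrable (h : BM f) (μ : Measure X) [IsFiniteMeasure μ] : Integrable f μ := by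
  obtain ⟨h1, C, h2⟩ := h
  exact Integrable.of_bound h1.aestronglyMeasurable C (ae_of_all _ h2)

lemma mul (h : BM f) (h' : BM g) : BM (fun x => f x * g x) := by
  obtain ⟨h1, C, h2⟩ := h
  obtain ⟨h3, D, h4⟩ := h'
  refine ⟨h1.mul h3, C * D, fun x => ?_⟩
  rw [abs_mul]
  exact mul_le_mul (h2 x) (h4 x) (abs_nonneg _) ((abs_nonneg _).trans (h2 x))

lemma add (h : BM f) (h' : BM g) : BM (fun x => f x + g x) := by
  obtain ⟨h1, C, h2⟩ := h
  obtain ⟨h3, D, h4⟩ := h'
  exact ⟨h1.add h3, C + D, fun x => (abs_add_le _ _).trans (add_le_add (h2 x) (h4 x))⟩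

lemma sub (h : BM f) (h' : BM g) : BM (fun x => f x - g x) := by
  obtain ⟨h1, C, h2⟩ := h
  obtain ⟨h3, D, h4⟩ := h'
  exact ⟨h1.sub h3, C + D, fun x => (abs_sub _ _).trans (add_le_add (h2 x) (h4 x))⟩

lemma const (c : ℝ) : BM (fun _ : X => c) := ⟨measurable_const, |c|, fun _ => le_rfl⟩

lemma sq (h : BM f) : BM (fun x => f x ^ 2) := by
  simpa only [pow_two] using h.mul h

lemma comp (h : BM f) {k : Y → X} (hk : Measurable k) : BM (fun y => f (k y)) := by
  obtain ⟨h1, C, h2⟩ := h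
  exact ⟨h1.comp hk, C, fun y => h2 _⟩

lemma sum {ι : Type*} (s : Finset ι) {F : ι → X → ℝ} (h : ∀ i, BM (F i)) :
    BM (fun x => ∑ i ∈ s, F i x) := by
  classical
  induction s using Finset.induction_on with
  | empty => simpa using const 0
  | insert a s ha ih =>
    simp_rw [Finset.sum_insert ha]
    exact (h a).add ih

lemma int_left {v : X × Y → ℝ} (h : BM v) (μ : Measure X) [IsFiniteMeasure μ] :
    BM (fun y => ∫ x, v (x, y) ∂μ) := by
  obtain ⟨h1, C, h2⟩ := h
  refine ⟨(h1.stronglyMeasurable.integral_prod_left' (μ := μ)).measurable, C * μ.real univ,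
    fun y => ?_⟩
  exact norm_integral_le_of_norm_le_const (μ := μ) (f := fun x => v (x, y)) (C := C)
    (ae_of_all _ fun x => h2 _)

lemma int_right {v : X × Y → ℝ} (h : BM v) (ν : Measure Y) [IsFiniteMeasure ν] :
    BM (fun x => ∫ y, v (x, y) ∂ν) := by
  obtain ⟨h1, C, h2⟩ := h
  refine ⟨(h1.stronglyMeasurable.integral_prod_right' (ν := ν)).measurable, C * ν.real univ,
    fun y => ?_⟩
  exact norm_integral_le_of_norm_le_const (μ := ν) (f := fun x => v (y, x)) (C := C)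
    (ae_of_all _ fun x => h2 _)

end BM

lemma two_factor {X Y : Type*} [MeasurableSpace X] [MeasurableSpace Y] (μ : Measure X)
    (ν : Measure Y) [IsFiniteMeasure μ] [IsFiniteMeasure ν] {v : X × Y → ℝ} (hv : BM v)
    {σ : X → ℝ} {τ : Y → ℝ} (hσ : BM σ) (hτ : BM τ) (nσ : ∫ x, σ x ^ 2 ∂μ = 1)
    (nτ : ∫ y, τ y ^ 2 ∂ν = 1) :
    ∫ y, (∫ x, σ x * v (x, y) ∂μ) ^ 2 ∂ν + ∫ x, (∫ y, τ y * v (x, y) ∂ν) ^ 2 ∂μ ≤
      ∫ p, v p ^ 2 ∂(μ.prod ν) + (∫ p, σ p.1 * τ p.2 * v p ∂(μ.prod ν)) ^ 2 := by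
  have s1 : BM (fun p : X × Y => σ p.1) := hσ.comp measurable_fst
  have t2 : BM (fun p : X × Y => τ p.2) := hτ.comp measurable_snd
  set c : Y → ℝ := fun y => ∫ x, σ x * v (x, y) ∂μ with hc
  set d : X → ℝ := fun x => ∫ y, τ y * v (x, y) ∂ν with hd
  set e : ℝ := ∫ p, σ p.1 * τ p.2 * v p ∂(μ.prod ν) with he
  have bc : BM c := (s1.mul hv).int_left μ
  have bd : BM d := (t2.mul hv).int_right ν
  have c2 : BM (fun p : X × Y => c p.2) := bc.comp measurable_snd
  have d1 : BM (fun p : X × Y => d p.1) := bd.comp measurable_fst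
  have e1 : ∫ x, σ x * d x ∂μ = e := by
    rw [he, integral_prod _ (((s1.mul t2).mul hv).integrable _)]
    apply integral_congr_ae (ae_of_all _ fun x => ?_)
    simp only [hd]
    rw [← integral_const_mul]
    apply integral_congr_ae (ae_of_all _ fun y => ?_)
    ring
  have e2 : ∫ y, c y * τ y ∂ν = e := by
    rw [he, integral_prod_symm _ (((s1.mul t2).mul hv).integrable _)]
    apply integral_congr_ae (ae_of_all _ fun y => ?_)
    simp only [hc]
    rw [← integral_mul_const]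
    apply integral_congr_ae (ae_of_all _ fun x => ?_)
    ring
  have T1 : ∫ p, σ p.1 * c p.2 * v p ∂(μ.prod ν) = ∫ y, c y ^ 2 ∂ν := by
    rw [integral_prod_symm _ (((s1.mul c2).mul hv).integrable _)]
    apply integral_congr_ae (ae_of_all _ fun y => ?_)
    simp only
    rw [pow_two]
    nth_rewrite 2 [hc]
    simp only
    rw [← integral_mul_const]
    apply integral_congr_ae (ae_of_all _ fun x => ?_)
    ring
  have T2 : ∫ p, d p.1 * τ p.2 * v p ∂(μ.prod ν) = ∫ x, d x ^ 2 ∂μ := by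
    rw [integral_prod _ (((d1.mul t2).mul hv).integrable _)]
    apply integral_congr_ae (ae_of_all _ fun x => ?_)
    simp only
    rw [pow_two]
    nth_rewrite 2 [hd]
    simp only
    rw [← integral_mul_const]
    apply integral_congr_ae (ae_of_all _ fun y => ?_)
    ring
  have T3 : ∫ p, σ p.1 ^ 2 * c p.2 ^ 2 ∂(μ.prod ν) = ∫ y, c y ^ 2 ∂ν := by
    rw [integral_prod_mul (fun x => σ x ^ 2) (fun y => c y ^ 2), nσ, one_mul]
  have T4 : ∫ p, d p.1 ^ 2 * τ p.2 ^ 2 ∂(μ.prod ν) = ∫ x, d x ^ 2 ∂μ := by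
    rw [integral_prod_mul (fun x => d x ^ 2) (fun y => τ y ^ 2), nτ, mul_one]
  have T5 : ∫ p, σ p.1 ^ 2 * τ p.2 ^ 2 ∂(μ.prod ν) = 1 := by
    rw [integral_prod_mul (fun x => σ x ^ 2) (fun y => τ y ^ 2), nτ, nσ, mul_one]
  have T6 : ∫ p, (σ p.1 * d p.1) * (c p.2 * τ p.2) ∂(μ.prod ν) = e * e := by
    rw [integral_prod_mul (fun x => σ x * d x) (fun y => c y * τ y), e1, e2]
  have T7 : ∫ p, σ p.1 ^ 2 * (c p.2 * τ p.2) ∂(μ.prod ν) = e := by
    rw [integral_prod_mul (fun x => σ x ^ 2) (fun y => c y * τ y), nσ, e2, one_mul]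
  have T8 : ∫ p, (σ p.1 * d p.1) * τ p.2 ^ 2 ∂(μ.prod ν) = e := by
    rw [integral_prod_mul (fun x => σ x * d x) (fun y => τ y ^ 2), nτ, e1, mul_one]
  have hpos : 0 ≤ ∫ p, (v p - σ p.1 * c p.2 - d p.1 * τ p.2 + e * (σ p.1 * τ p.2)) ^ 2
      ∂(μ.prod ν) := integral_nonneg fun p => sq_nonneg _
  have i0 := hv.sq.integrable (μ.prod ν)
  have i1 := ((s1.mul c2).mul hv).integrable (μ.prod ν)
  have i2 := ((d1.mul t2).mul hv).integrable (μ.prod ν)
  have i3 := (s1.sq.mul c2.sq).integrable (μ.prod ν)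
  have i4 := (d1.sq.mul t2.sq).integrable (μ.prod ν)
  have i5 := (s1.sq.mul t2.sq).integrable (μ.prod ν)
  have i6 := ((s1.mul d1).mul (c2.mul t2)).integrable (μ.prod ν)
  have i7 := (s1.sq.mul (c2.mul t2)).integrable (μ.prod ν)
  have i8 := ((s1.mul d1).mul t2.sq).integrable (μ.prod ν)
  have i9 := ((s1.mul t2).mul hv).integrable (μ.prod ν)
  have ex : ∀ p : X × Y, (v p - σ p.1 * c p.2 - d p.1 * τ p.2 + e * (σ p.1 * τ p.2)) ^ 2 =
      v p ^ 2 + (-2) * (σ p.1 * c p.2 * v p) + (-2) * (d p.1 * τ p.2 * v p) +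
      σ p.1 ^ 2 * c p.2 ^ 2 + d p.1 ^ 2 * τ p.2 ^ 2 + e ^ 2 * (σ p.1 ^ 2 * τ p.2 ^ 2) +
      2 * ((σ p.1 * d p.1) * (c p.2 * τ p.2)) + (-2 * e) * (σ p.1 ^ 2 * (c p.2 * τ p.2)) +
      (-2 * e) * ((σ p.1 * d p.1) * τ p.2 ^ 2) + (2 * e) * (σ p.1 * τ p.2 * v p) := by
    intro p
    ring
  simp_rw [ex] at hpos
  rw [integral_add, integral_add, integral_add, integral_add, integral_add, integral_add,
    integral_add, integral_add, integral_add, integral_const_mul, integral_const_mul,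
    integral_const_mul, integral_const_mul, integral_const_mul, integral_const_mul,
    integral_const_mul, T1, T2, T3, T4, T5, T6, T7, T8, ← he] at hpos
  · nlinarith
  all_goals
    first
    | assumption
    | exact Integrable.const_mul (by assumption) _
    | (repeat' apply Integrable.add) <;>
        first
        | assumption
        | exact Integrable.const_mul (by assumption) _

end Pool.Agent.H771Z.DM
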