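import Mathlib
import Pool.Agent.H771Z.DM.OneD
import Pool.Agent.H771Z.DM.TwoF

set_option autoImplicit false

/-! The spectral gap of a box. -/

open MeasureTheory Set Real

namespace Pool.Agent.H771Z.DM

/-- Lebesgue measure on an open box, as a product -/
noncomputable def bμ {n : ℕ} (lo d : Fin n → ℝ) : Measure (Fin n → ℝ) :=
  Measure.pi fun i => volume.restrict (Ioo (lo i) (lo i + d i))

instance bμ_fin {n : ℕ} (lo d : Fin n → ℝ) : IsFiniteMeasure (bμ lo d) := by
  unfold bμ
  infer_instance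

lemma bμ_ae {n : ℕ} (lo d : Fin n → ℝ) :
    ∀ᵐ y ∂(bμ lo d), ∀ i, lo i < y i ∧ y i < lo i + d i := by
  rw [ae_all_iff]
  intro i
  exact (Measure.tendsto_eval_ae_ae (μ := fun i => volume.restrict (Ioo (lo i) (lo i + d i)))
    (i := i)).eventually (ae_restrict_mem measurableSet_Ioo)

lemma meas_cons {n : ℕ} : Measurable (fun p : ℝ × (Fin n → ℝ) =>
    (Fin.cons p.1 p.2 : Fin (n + 1) → ℝ)) := by
  rw [measurable_pi_iff]
  intro i
  refine Fin.cases ?_ (fun j => ?_) i
  · simpa using measurable_fst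
  · simp only [Fin.cons_succ]
    exact (measurable_pi_apply j).comp measurable_snd

lemma int_cons {n : ℕ} (lo d : Fin (n + 1) → ℝ) (F : (Fin (n + 1) → ℝ) → ℝ) :
    ∫ x, F x ∂(bμ lo d) = ∫ p : ℝ × (Fin n → ℝ), F (Fin.cons p.1 p.2)
      ∂((volume.restrict (Ioo (lo 0) (lo 0 + d 0))).prod
        (bμ (fun j => lo j.succ) (fun j => d j.succ))) := by
  have h := (measurePreserving_piFinSuccAbove
    (fun i : Fin (n + 1) => volume.restrict (Ioo (lo i) (lo i + d i))) 0).symm
  have := h.integral_comp' F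
  unfold bμ
  rw [← this]
  apply integral_congr_ae (ae_of_all _ fun p => ?_)
  simp [MeasurableEquiv.piFinSuccAbove, Fin.insertNthEquiv, Fin.insertNth_zero']

/-- product of the normalised first eigenfunctions -/
noncomputable def sp {n : ℕ} (lo d : Fin n → ℝ) (x : Fin n → ℝ) : ℝ :=
  ∏ i, sg (lo i) (d i) (x i)

lemma sg_BM (lo d : ℝ) : BM (sg lo d) := ⟨(sg_cont lo d).measurable, _, sg_abs lo d⟩

lemma sp_BM {n : ℕ} (lo d : Fin n → ℝ) : BM (sp lo d) := by
  refine ⟨?_, ∏ i, √(2 / d i), fun x => ?_⟩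
  · unfold sp
    exact Finset.measurable_prod _ fun i _ =>
      (sg_cont _ _).measurable.comp (measurable_pi_apply i)
  · unfold sp
    rw [Finset.abs_prod]
    exact Finset.prod_le_prod (fun i _ => abs_nonneg _) fun i _ => sg_abs _ _ _

lemma sp_norm {n : ℕ} (lo d : Fin n → ℝ) (hd : ∀ i, 0 < d i) :
    ∫ x, sp lo d x ^ 2 ∂(bμ lo d) = 1 := by
  unfold sp bμ
  simp_rw [← Finset.prod_pow]
  rw [integral_fintype_prod_eq_prod (fun i s => sg (lo i) (d i) s ^ 2)]
  apply Finset.prod_eq_one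
  intro i _
  rw [← sg_norm (lo i) (hd i), intervalIntegral.integral_of_le (by linarith [hd i]),
    integral_Ioc_eq_integral_Ioo]

theorem box_gap (γ : ℝ) (hγ : 0 ≤ γ) : ∀ (n : ℕ) (lo d : Fin n → ℝ), (∀ i, 0 < d i) →
    (∀ i, γ ≤ 5 / 4 * (π / d i) ^ 2) → ∀ (v : (Fin n → ℝ) → ℝ) (dv : Fin n → (Fin n → ℝ) → ℝ),
    BM v → (∀ i, BM (dv i)) →
    (∀ x i, HasDerivAt (fun s => v (Function.update x i s)) (dv i x) (x i)) →
    (∀ x i, Continuous (fun s => dv i (Function.update x i s))) →
    (∀ x i, (∀ j, lo j ≤ x j ∧ x j ≤ lo j + d j) → (x i = lo i ∨ x i = lo i + d i) → v x = 0) →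
    γ * ((∫ x, v x ^ 2 ∂(bμ lo d)) - (∫ x, sp lo d x * v x ∂(bμ lo d)) ^ 2) ≤
      ∫ x, ∑ i, (dv i x ^ 2 - (π / d i) ^ 2 * v x ^ 2) ∂(bμ lo d) := by
  intro n
  induction n with
  | zero =>
    intro lo d _ _ v dv _ _ _ _ _
    unfold bμ sp
    rw [Measure.pi_of_empty _ (fun i => i.elim0)]
    simp
  | succ n ih =>
    intro lo d hd hγd v dv hv hdv hder hcont hvan
    set μ : Measure ℝ := volume.restrict (Ioo (lo 0) (lo 0 + d 0)) with hμ
    set lo' : Fin n → ℝ := fun j => lo j.succ with hlo'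
    set d' : Fin n → ℝ := fun j => d j.succ with hd'
    set ν := bμ lo' d' with hν
    set V : ℝ × (Fin n → ℝ) → ℝ := fun p => v (Fin.cons p.1 p.2) with hV
    have bV : BM V := hv.comp meas_cons
    have bD : ∀ i, BM (fun p : ℝ × (Fin n → ℝ) => dv i (Fin.cons p.1 p.2)) :=
      fun i => (hdv i).comp meas_cons
    have nσ : ∫ s, sg (lo 0) (d 0) s ^ 2 ∂μ = 1 := by
      rw [← sg_norm (lo 0) (hd 0), intervalIntegral.integral_of_le (by linarith [hd 0]),
        integral_Ioc_eq_integral_Ioo]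
    have tf := two_factor μ ν bV (sg_BM (lo 0) (d 0)) (sp_BM lo' d') nσ
      (sp_norm lo' d' fun i => hd _)
    rw [int_cons, int_cons, int_cons]
    have hsp : ∀ p : ℝ × (Fin n → ℝ), sp lo d (Fin.cons p.1 p.2) =
        sg (lo 0) (d 0) p.1 * sp lo' d' p.2 := by
      intro p
      unfold sp
      rw [Fin.prod_univ_succ]
      simp [hlo', hd']
    simp_rw [hsp, Fin.sum_univ_succ]
    have b1 : BM (fun p : ℝ × (Fin n → ℝ) =>
        dv 0 (Fin.cons p.1 p.2) ^ 2 - (π / d 0) ^ 2 * V p ^ 2) :=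
      (bD 0).sq.sub ((BM.const _).mul bV.sq)
    have b2 : BM (fun p : ℝ × (Fin n → ℝ) =>
        ∑ i : Fin n, (dv i.succ (Fin.cons p.1 p.2) ^ 2 - (π / d i.succ) ^ 2 * V p ^ 2)) :=
      BM.sum _ fun i => (bD _).sq.sub ((BM.const _).mul bV.sq)
    have bc : BM (fun y => ∫ s, sg (lo 0) (d 0) s * V (s, y) ∂μ) :=
      (((sg_BM (lo 0) (d 0)).comp measurable_fst).mul bV).int_left μ
    have bd : BM (fun s => ∫ y, sp lo' d' y * V (s, y) ∂ν) :=
      (((sp_BM lo' d').comp measurable_snd).mul bV).int_right ν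
    have h1 : γ * ((∫ p, V p ^ 2 ∂(μ.prod ν)) -
        ∫ y, (∫ s, sg (lo 0) (d 0) s * V (s, y) ∂μ) ^ 2 ∂ν) ≤
        ∫ p : ℝ × (Fin n → ℝ), (dv 0 (Fin.cons p.1 p.2) ^ 2 - (π / d 0) ^ 2 * V p ^ 2)
          ∂(μ.prod ν) := by
      rw [integral_prod_symm _ (bV.sq.integrable _), integral_prod_symm _ (b1.integrable _),
        ← integral_sub ((bV.sq.int_left μ).integrable _) (bc.sq.integrable _),
        ← integral_const_mul]
      apply integral_mono_ae (((bV.sq.int_left μ).integrable _).sub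
        (bc.sq.integrable _) |>.const_mul γ) ((b1.int_left μ).integrable _)
      filter_upwards [bμ_ae lo' d'] with y hy
      have hbox : ∀ s, lo 0 ≤ s → s ≤ lo 0 + d 0 →
          ∀ j, lo j ≤ (Fin.cons s y : Fin (n + 1) → ℝ) j ∧
            (Fin.cons s y : Fin (n + 1) → ℝ) j ≤ lo j + d j := by
        intro s h1 h2 j
        refine Fin.cases ?_ (fun j => ?_) j
        · exact ⟨h1, h2⟩
        · exact ⟨(hy j).1.le, (hy j).2.le⟩
      have g := gap1 (f := fun s => V (s, y)) (f' := fun s => dv 0 (Fin.cons s y))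
        (fun s => by
          have := hder (Fin.cons s y) 0
          simpa only [Fin.update_cons_zero, Fin.cons_zero] using this)
        (by
          have := hcont (Fin.cons 0 y) 0
          simpa only [Fin.update_cons_zero] using this) (lo := lo 0) (hd 0)
        (hvan _ 0 (hbox _ le_rfl (by linarith [hd 0])) (Or.inl rfl))
        (hvan _ 0 (hbox _ (by linarith [hd 0]) le_rfl) (Or.inr rfl))
      have cs : 0 ≤ (∫ s, V (s, y) ^ 2 ∂μ) - (∫ s, sg (lo 0) (d 0) s * V (s, y) ∂μ) ^ 2 := by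
        have by1 : BM (fun s => V (s, y)) := bV.comp measurable_prodMk_right
        have bs := sg_BM (lo 0) (d 0)
        set c := ∫ s, sg (lo 0) (d 0) s * V (s, y) ∂μ with hc
        have hp : 0 ≤ ∫ s, (V (s, y) - c * sg (lo 0) (d 0) s) ^ 2 ∂μ :=
          integral_nonneg fun s => sq_nonneg _
        have ex : ∀ s, (V (s, y) - c * sg (lo 0) (d 0) s) ^ 2 = V (s, y) ^ 2 +
            (-2 * c) * (sg (lo 0) (d 0) s * V (s, y)) + c ^ 2 * sg (lo 0) (d 0) s ^ 2 := by
          intro s
          ring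
        simp_rw [ex] at hp
        rw [integral_add, integral_add, integral_const_mul, integral_const_mul, nσ, ← hc] at hp
        · nlinarith
        · exact by1.sq.integrable _
        · exact ((bs.mul by1).integrable _).const_mul _
        · exact (by1.sq.integrable _).add (((bs.mul by1).integrable _).const_mul _)
        · exact (bs.sq.integrable _).const_mul _
      exact (mul_le_mul_of_nonneg_right (hγd 0) cs).trans g
    have h2 : γ * ((∫ p, V p ^ 2 ∂(μ.prod ν)) -
        ∫ s, (∫ y, sp lo' d' y * V (s, y) ∂ν) ^ 2 ∂μ) ≤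
        ∫ p : ℝ × (Fin n → ℝ), ∑ i : Fin n,
          (dv i.succ (Fin.cons p.1 p.2) ^ 2 - (π / d i.succ) ^ 2 * V p ^ 2) ∂(μ.prod ν) := by
      rw [integral_prod _ (bV.sq.integrable _), integral_prod _ (b2.integrable _),
        ← integral_sub ((bV.sq.int_right ν).integrable _) (bd.sq.integrable _),
        ← integral_const_mul]
      apply integral_mono_ae (((bV.sq.int_right ν).integrable _).sub
        (bd.sq.integrable _) |>.const_mul γ) ((b2.int_right ν).integrable _)
      filter_upwards [ae_restrict_mem (μ := volume)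
        (measurableSet_Ioo (a := lo 0) (b := lo 0 + d 0))] with s hs
      exact ih lo' d' (fun i => hd _) (fun i => hγd _) (fun y => V (s, y))
        (fun i y => dv i.succ (Fin.cons s y)) (bV.comp measurable_prodMk_left)
        (fun i => (bD i.succ).comp measurable_prodMk_left)
        (fun y i => by
          have := hder (Fin.cons s y) i.succ
          simpa only [← Fin.cons_update, Fin.cons_succ] using this)
        (fun y i => by
          have := hcont (Fin.cons s y) i.succ
          simpa only [← Fin.cons_update] using this)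
        (fun y i hy hi => hvan (Fin.cons s y) i.succ
          (fun j => Fin.cases ⟨hs.1.le, hs.2.le⟩ (fun j => hy j) j) hi)
    rw [integral_add (b1.integrable _) (b2.integrable _)]
    have := mul_le_mul_of_nonneg_left tf hγ
    simp only [hV] at this h1 h2 ⊢
    nlinarith

end Pool.Agent.H771Z.DM
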