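import Mathlib

set_option autoImplicit false

/-! Hardy type inequalities from vector fields, and cut-off functions near lines. -/

open MeasureTheory Set Real Filter Topology

namespace Pool.Agent.H771Z.DM

abbrev E3 := EuclideanSpace ℝ (Fin 3)

/-- coordinate vectors -/
noncomputable def ev (i : Fin 3) : E3 := EuclideanSpace.single i 1

/-- smooth with compact support -/
structure Tst (f : E3 → ℝ) : Prop where
  cd : ContDiff ℝ (⊤ : ℕ∞) f
  cs : HasCompactSupport f

/-- the Dirichlet energy -/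
noncomputable def En (f : E3 → ℝ) : ℝ := ∫ x, ‖fderiv ℝ f x‖ ^ 2

lemma norm_sq_dual (L : E3 →L[ℝ] ℝ) : ‖L‖ ^ 2 = ∑ i, L (ev i) ^ 2 := by
  rw [(EuclideanSpace.basisFun (Fin 3) ℝ).norm_dual L]
  simp [ev]

lemma cfd {f : E3 → ℝ} (h : ContDiff ℝ (⊤ : ℕ∞) f) : Continuous (fderiv ℝ f) :=
  h.continuous_fderiv (by simp)

lemma dif {f : E3 → ℝ} (h : ContDiff ℝ (⊤ : ℕ∞) f) : Differentiable ℝ f :=
  h.differentiable (by simp)

namespace Tst
variable {u v : E3 → ℝ}

lemma cont (h : Tst u) : Continuous u := h.cd.continuous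

lemma int_mul (h : Tst u) {g : E3 → ℝ} (hg : Continuous g) : Integrable (fun x => u x * g x) :=
  (h.cont.mul hg).integrable_of_hasCompactSupport h.cs.mul_right

lemma int_sq_mul (h : Tst u) {g : E3 → ℝ} (hg : Continuous g) :
    Integrable (fun x => u x ^ 2 * g x) := by
  have := h.int_mul (h.cont.mul hg)
  refine this.congr (ae_of_all _ fun x => ?_)
  simp only [Pi.mul_apply]
  ring

lemma int_sq (h : Tst u) : Integrable (fun x => u x ^ 2) := by
  simpa using h.int_sq_mul (g := fun _ => 1) continuous_const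

lemma int_D (h : Tst u) (v : E3) : Integrable (fun x => fderiv ℝ u x v ^ 2) := by
  have c : Continuous (fun x => fderiv ℝ u x v) := (cfd h.cd).clm_apply continuous_const
  simp_rw [pow_two]
  exact (c.mul c).integrable_of_hasCompactSupport (h.cs.fderiv_apply ℝ v).mul_right

lemma int_nD (h : Tst u) : Integrable (fun x => ‖fderiv ℝ u x‖ ^ 2) := by
  simp_rw [norm_sq_dual]
  exact integrable_finsetSum _ fun i _ => h.int_D _

lemma int_mul_nD (h : Tst u) {g : E3 → ℝ} (hg : Continuous g) :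
    Integrable (fun x => g x * ‖fderiv ℝ u x‖ ^ 2) := by
  have c : Continuous (fun x => ‖fderiv ℝ u x‖) := (cfd h.cd).norm
  simp_rw [pow_two]
  exact (hg.mul (c.mul c)).integrable_of_hasCompactSupport
    ((h.cs.fderiv ℝ).norm.mul_right.mul_left)

lemma mul_left (h : Tst u) {g : E3 → ℝ} (hg : ContDiff ℝ (⊤ : ℕ∞) g) :
    Tst (fun x => g x * u x) := ⟨hg.mul h.cd, h.cs.mul_left⟩

lemma add (h : Tst u) (h' : Tst v) : Tst (fun x => u x + v x) := ⟨h.cd.add h'.cd, h.cs.add h'.cs⟩

lemma zero : Tst (fun _ => 0) := ⟨contDiff_const, HasCompactSupport.zero⟩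

end Tst

lemma En_nonneg (f : E3 → ℝ) : 0 ≤ En f := integral_nonneg fun _ => sq_nonneg _

lemma vf {u ξ : E3 → ℝ} (hu : Tst u) (hξ : ContDiff ℝ 1 ξ) (v : E3) :
    ∫ x, u x ^ 2 * (fderiv ℝ ξ x v - ξ x ^ 2) ≤ ∫ x, fderiv ℝ u x v ^ 2 := by
  have c1 : Continuous (fun x => fderiv ℝ ξ x v) :=
    (hξ.continuous_fderiv (by simp)).clm_apply continuous_const
  have c2 : Continuous (fun x => fderiv ℝ u x v) := (cfd hu.cd).clm_apply continuous_const
  have c3 := hξ.continuous
  have d1 : ∀ x, fderiv ℝ (fun x => u x ^ 2) x v = u x * (2 * fderiv ℝ u x v) := by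
    intro x
    rw [((dif hu.cd x).hasFDerivAt.pow 2).fderiv]
    simp
    ring
  have i1 : Integrable (fun x => u x * (2 * fderiv ℝ u x v * ξ x)) :=
    hu.int_mul ((continuous_const.mul c2).mul c3)
  have ibp := integral_mul_fderiv_eq_neg_fderiv_mul_of_integrable (μ := (volume : Measure E3))
    (f := fun x => u x ^ 2) (g := ξ) (v := v)
    (by
      simp_rw [d1, mul_assoc (u _)]
      exact i1)
    (hu.int_sq_mul c1) (hu.int_sq_mul c3) (fun x _ => (dif hu.cd x).pow 2)
    (fun x _ => hξ.differentiable (by simp) x)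
  simp_rw [d1, mul_assoc (u _)] at ibp
  have hp : 0 ≤ ∫ x, (fderiv ℝ u x v + u x * ξ x) ^ 2 := integral_nonneg fun _ => sq_nonneg _
  have ex : ∀ x, (fderiv ℝ u x v + u x * ξ x) ^ 2 = fderiv ℝ u x v ^ 2 +
      u x * (2 * fderiv ℝ u x v * ξ x) + u x ^ 2 * ξ x ^ 2 := fun x => by ring
  simp_rw [ex] at hp
  rw [integral_add ((hu.int_D v).fun_add i1) (hu.int_sq_mul (c3.fun_pow 2)),
    integral_add (hu.int_D v) i1] at hp
  simp_rw [mul_sub]
  rw [integral_sub (hu.int_sq_mul c1) (hu.int_sq_mul (c3.fun_pow 2))]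
  linarith

lemma D_le_En {u : E3 → ℝ} (hu : Tst u) (i : Fin 3) : ∫ x, fderiv ℝ u x (ev i) ^ 2 ≤ En u := by
  apply integral_mono (hu.int_D _) hu.int_nD
  intro x
  simp only [norm_sq_dual]
  exact Finset.single_le_sum (f := fun i => fderiv ℝ u x (ev i) ^ 2) (fun _ _ => sq_nonneg _)
    (Finset.mem_univ i)

lemma D2_le_En {u : E3 → ℝ} (hu : Tst u) {i j : Fin 3} (hij : i ≠ j) :
    (∫ x, fderiv ℝ u x (ev i) ^ 2) + ∫ x, fderiv ℝ u x (ev j) ^ 2 ≤ En u := by
  rw [← integral_add (hu.int_D _) (hu.int_D _)]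
  apply integral_mono ((hu.int_D _).fun_add (hu.int_D _)) hu.int_nD
  intro x
  simp only [norm_sq_dual]
  rw [← Finset.sum_pair (f := fun i => fderiv ℝ u x (ev i) ^ 2) hij]
  exact Finset.sum_le_sum_of_subset_of_nonneg (Finset.subset_univ _) fun _ _ _ => sq_nonneg _

/-- the coordinate functionals -/
noncomputable def pr (i : Fin 3) : E3 →L[ℝ] ℝ := EuclideanSpace.proj i

lemma pr_apply (i : Fin 3) (x : E3) : pr i x = x i := rfl

lemma hasF_coord (i : Fin 3) (x : E3) : HasFDerivAt (fun x : E3 => x i) (pr i) x :=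
  (pr i).hasFDerivAt

lemma cd_coord (i : Fin 3) {n : WithTop ℕ∞} : ContDiff ℝ n (fun x : E3 => x i) := (pr i).contDiff

lemma pr_ev (i j : Fin 3) : pr i (ev j) = if i = j then 1 else 0 := by
  simp [pr_apply, ev]

lemma norm_pr (i : Fin 3) : ‖pr i‖ ≤ 1 :=
  (pr i).opNorm_le_bound zero_le_one fun x => by
    rw [one_mul]
    exact PiLp.norm_apply_le x i

lemma fderiv_coord {g : ℝ → ℝ} {g' : ℝ} (i : Fin 3) (x : E3) (h : HasDerivAt g g' (x i)) :
    fderiv ℝ (fun x : E3 => g (x i)) x (ev i) = g' := by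
  have : fderiv ℝ (fun x : E3 => g (x i)) x = g' • pr i :=
    (h.comp_hasFDerivAt x (hasF_coord i x)).fderiv
  rw [this]
  simp [pr_ev]

lemma poincare {u : E3 → ℝ} (hu : Tst u) {R : ℝ} (hR : 0 < R) (hs : ∀ x, u x ≠ 0 → ∀ i, |x i| ≤ R) :
    ∫ x, u x ^ 2 ≤ 4 * R ^ 2 * En u := by
  have h := (vf hu (ξ := fun x => x 0 / (2 * R ^ 2)) ((cd_coord 0).div_const _) (ev 0)).trans
    (D_le_En hu 0)
  have e : ∀ x : E3, fderiv ℝ (fun x : E3 => x 0 / (2 * R ^ 2)) x (ev 0) = 1 / (2 * R ^ 2) :=
    fun x => fderiv_coord (g := fun s => s / (2 * R ^ 2)) 0 x ((hasDerivAt_id _).div_const _)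
  simp_rw [e] at h
  have : ∫ x, u x ^ 2 * (1 / (4 * R ^ 2)) ≤
      ∫ x, u x ^ 2 * (1 / (2 * R ^ 2) - (x 0 / (2 * R ^ 2)) ^ 2) := by
    apply integral_mono (hu.int_sq_mul continuous_const) (hu.int_sq_mul (by fun_prop))
    intro x
    by_cases hx : u x = 0
    · simp [hx]
    · apply mul_le_mul_of_nonneg_left _ (sq_nonneg _)
      have h1 : x 0 ^ 2 ≤ R ^ 2 := by
        rw [← sq_abs]
        exact pow_le_pow_left₀ (abs_nonneg _) (hs x hx 0) 2
      have h2 : (x 0 / (2 * R ^ 2)) ^ 2 ≤ 1 / (4 * R ^ 2) := by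
        rw [div_pow, div_le_div_iff₀ (by positivity) (by positivity)]
        nlinarith [mul_le_mul_of_nonneg_right h1 (sq_nonneg R)]
      have h3 : 1 / (2 * R ^ 2) = 1 / (4 * R ^ 2) + 1 / (4 * R ^ 2) := by
        field_simp
        ring
      linarith
  rw [integral_mul_const] at this
  have h4 := this.trans h
  rw [mul_one_div, div_le_iff₀ (by positivity)] at h4
  linarith

lemma slab {u θ : E3 → ℝ} (hu : Tst u) (hθ : Continuous θ) {R r p : ℝ} (hR : 0 < R) (hr : 0 < r)
    (hs : ∀ x, u x ≠ 0 → ∀ i, |x i| ≤ R) (i : Fin 3) (h01 : ∀ x, 0 ≤ θ x ∧ θ x ≤ 1)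
    (hz : ∀ x, u x ≠ 0 → θ x ≠ 0 → |x i - p| ≤ r) :
    ∫ x, (θ x * u x) ^ 2 ≤ 2 * r * (1 + 16 * R ^ 2) * En u := by
  have h := (vf hu (ξ := fun x => arctan ((x i - p) / r))
    (contDiff_arctan.comp (((cd_coord i).sub contDiff_const).div_const _)) (ev i)).trans
    (D_le_En hu i)
  have e : ∀ x : E3, fderiv ℝ (fun x : E3 => arctan ((x i - p) / r)) x (ev i) =
      1 / (1 + ((x i - p) / r) ^ 2) * (1 / r) :=
    fun x => fderiv_coord (g := fun s => arctan ((s - p) / r)) i x
      ((hasDerivAt_arctan _).comp (x i) (((hasDerivAt_id _).sub_const p).div_const r))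
  simp_rw [e] at h
  have : ∫ x, u x ^ 2 * (θ x ^ 2 * (1 / (2 * r)) - 4) ≤
      ∫ x, u x ^ 2 * (1 / (1 + ((x i - p) / r) ^ 2) * (1 / r) - arctan ((x i - p) / r) ^ 2) := by
    apply integral_mono (hu.int_sq_mul (by fun_prop)) (hu.int_sq_mul ?_)
    · intro x
      by_cases hx : u x = 0
      · simp [hx]
      · apply mul_le_mul_of_nonneg_left _ (sq_nonneg _)
        have h1 : arctan ((x i - p) / r) ^ 2 ≤ 4 := by
          have a1 := arctan_lt_pi_div_two ((x i - p) / r)
          have a2 := neg_pi_div_two_lt_arctan ((x i - p) / r)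
          have a3 := pi_le_four
          nlinarith
        have h2 : θ x ^ 2 * (1 / (2 * r)) ≤ 1 / (1 + ((x i - p) / r) ^ 2) * (1 / r) := by
          by_cases ht : θ x = 0
          · rw [ht]
            simp only [ne_eq, OfNat.ofNat_ne_zero, not_false_eq_true, zero_pow, zero_mul]
            positivity
          · have b1 : ((x i - p) / r) ^ 2 ≤ 1 := by
              rw [div_pow, div_le_one (by positivity), ← sq_abs]
              exact pow_le_pow_left₀ (abs_nonneg _) (hz x hx ht) 2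
            have b2 : θ x ^ 2 ≤ 1 := pow_le_one₀ (h01 x).1 (h01 x).2
            have b3 : 1 / 2 ≤ 1 / (1 + ((x i - p) / r) ^ 2) :=
              one_div_le_one_div_of_le (by positivity) (by linarith)
            calc θ x ^ 2 * (1 / (2 * r)) ≤ 1 * (1 / (2 * r)) :=
                  mul_le_mul_of_nonneg_right b2 (by positivity)
              _ = 1 / 2 * (1 / r) := by field_simp
              _ ≤ _ := mul_le_mul_of_nonneg_right b3 (by positivity)
        linarith
    · apply Continuous.sub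
      · apply Continuous.mul _ continuous_const
        apply Continuous.div continuous_const (by fun_prop)
        intro x
        positivity
      · exact (continuous_arctan.comp (by fun_prop)).pow 2
  have ex : ∀ x, u x ^ 2 * (θ x ^ 2 * (1 / (2 * r)) - 4) =
      (1 / (2 * r)) * (u x ^ 2 * θ x ^ 2) - 4 * u x ^ 2 := fun x => by ring
  simp_rw [ex] at this
  rw [integral_sub ((hu.int_sq_mul (hθ.fun_pow 2)).const_mul _) (hu.int_sq.const_mul _),
    integral_const_mul, integral_const_mul] at this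
  have ex2 : ∀ x, (θ x * u x) ^ 2 = u x ^ 2 * θ x ^ 2 := fun x => by ring
  simp_rw [ex2]
  have h5 := poincare hu hR hs
  have h6 : 1 / (2 * r) * ∫ x, u x ^ 2 * θ x ^ 2 ≤ (1 + 16 * R ^ 2) * En u := by linarith
  rw [one_div_mul_eq_div, div_le_iff₀ (by positivity)] at h6
  linarith

/-- squared distance to a coordinate line -/
def rho (i j : Fin 3) (p q : ℝ) (x : E3) : ℝ := (x i - p) ^ 2 + (x j - q) ^ 2

lemma rho_nonneg (i j : Fin 3) (p q : ℝ) (x : E3) : 0 ≤ rho i j p q x := by
  unfold rho; positivity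

lemma rho_cd (i j : Fin 3) (p q : ℝ) {n : WithTop ℕ∞} : ContDiff ℝ n (rho i j p q) :=
  (((cd_coord i).sub contDiff_const).pow 2).add (((cd_coord j).sub contDiff_const).pow 2)

lemma rho_hasF (i j : Fin 3) (p q : ℝ) (x : E3) :
    HasFDerivAt (rho i j p q) ((2 * (x i - p)) • pr i + (2 * (x j - q)) • pr j) x := by
  have := (((hasF_coord i x).sub_const p).pow 2).add (((hasF_coord j x).sub_const q).pow 2)
  refine HasFDerivAt.congr_fderiv this ?_
  simp

/-- the logarithm -/
noncomputable def LL (K c s : ℝ) : ℝ := log K - log (s + c)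

/-- the profile of the vector field -/
noncomputable def kk (K c s : ℝ) : ℝ := LL K c s / ((1 + LL K c s ^ 2) * (s + c))

lemma LL_deriv (K : ℝ) {c s : ℝ} (h : 0 < s + c) : HasDerivAt (LL K c) (-(1 / (s + c))) s := by
  have := (((hasDerivAt_id s).add_const c).log h.ne').const_sub (log K)
  exact this

lemma kk_deriv (K : ℝ) {c s : ℝ} (h : 0 < s + c) : HasDerivAt (kk K c)
    ((LL K c s ^ 2 - 1) / ((1 + LL K c s ^ 2) ^ 2 * (s + c) ^ 2) -
      LL K c s / ((1 + LL K c s ^ 2) * (s + c) ^ 2)) s := by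
  have h1 := LL_deriv K h
  have h2 : 0 < 1 + LL K c s ^ 2 := by positivity
  have := h1.div (((h1.pow 2).const_add 1).mul ((hasDerivAt_id s).add_const c))
    (mul_pos h2 h).ne'
  refine HasDerivAt.congr_deriv this ?_
  simp only [Pi.mul_apply, Pi.pow_apply, id, Nat.cast_ofNat, Nat.add_one_sub_one, pow_one]
  field_simp
  ring

lemma LL_cd (K : ℝ) {c : ℝ} (hc : 0 < c) (i j : Fin 3) (p q : ℝ) {n : WithTop ℕ∞} :
    ContDiff ℝ n (fun x => LL K c (rho i j p q x)) :=
  contDiff_const.sub (((rho_cd i j p q).add contDiff_const).log fun x =>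
    (add_pos_of_nonneg_of_pos (rho_nonneg i j p q x) hc).ne')

lemma kk_cd (K : ℝ) {c : ℝ} (hc : 0 < c) (i j : Fin 3) (p q : ℝ) {n : WithTop ℕ∞} :
    ContDiff ℝ n (fun x => kk K c (rho i j p q x)) :=
  (LL_cd K hc i j p q).div ((contDiff_const.add ((LL_cd K hc i j p q).pow 2)).mul
    ((rho_cd i j p q).add contDiff_const)) fun x =>
    (mul_pos (by positivity) (add_pos_of_nonneg_of_pos (rho_nonneg i j p q x) hc)).ne'

lemma hardy {u : E3 → ℝ} (hu : Tst u) (K : ℝ) {c : ℝ} (hc : 0 < c) {i j : Fin 3} (hij : i ≠ j)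
    (p q : ℝ) (hs : ∀ x, u x ≠ 0 → 2 ≤ LL K c (rho i j p q x)) :
    ∫ x, u x ^ 2 * (rho i j p q x * kk K c (rho i j p q x) ^ 2) ≤ 2 * En u := by
  have c1 : ContDiff ℝ 1 (fun x => kk K c (rho i j p q x) * (x i - p)) :=
    (kk_cd K hc i j p q).mul ((cd_coord i).sub contDiff_const)
  have c2 : ContDiff ℝ 1 (fun x => kk K c (rho i j p q x) * (x j - q)) :=
    (kk_cd K hc i j p q).mul ((cd_coord j).sub contDiff_const)
  have h1 := vf hu c1 (ev i)
  have h2 := vf hu c2 (ev j)
  have h3 := D2_le_En hu hij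
  have k1 := ((c1.continuous_fderiv (by simp)).clm_apply (continuous_const (y := ev i))).fun_sub
    (c1.continuous.fun_pow 2)
  have k2 := ((c2.continuous_fderiv (by simp)).clm_apply (continuous_const (y := ev j))).fun_sub
    (c2.continuous.fun_pow 2)
  have h4 := add_le_add h1 h2
  rw [← integral_add (hu.int_sq_mul k1) (hu.int_sq_mul k2)] at h4
  have h5 : ∫ x, 1 / 2 * (u x ^ 2 * (rho i j p q x * kk K c (rho i j p q x) ^ 2)) ≤
      ∫ x, (u x ^ 2 * (fderiv ℝ (fun x => kk K c (rho i j p q x) * (x i - p)) x (ev i) -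
        (kk K c (rho i j p q x) * (x i - p)) ^ 2) +
        u x ^ 2 * (fderiv ℝ (fun x => kk K c (rho i j p q x) * (x j - q)) x (ev j) -
        (kk K c (rho i j p q x) * (x j - q)) ^ 2)) := by
    apply integral_mono ((hu.int_sq_mul ((rho_cd i j p q (n := 0)).continuous.fun_mul
      ((kk_cd K hc i j p q (n := 0)).continuous.fun_pow 2))).const_mul _)
      ((hu.int_sq_mul k1).fun_add (hu.int_sq_mul k2))
    intro x
    by_cases hx : u x = 0
    · simp [hx]
    have hρ := rho_nonneg i j p q x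
    have hσ : 0 < rho i j p q x + c := by positivity
    have d0 := (kk_deriv K hσ).comp_hasFDerivAt x (rho_hasF i j p q x)
    have d1 := (d0.mul ((hasF_coord i x).sub_const p)).fderiv
    have d2 := (d0.mul ((hasF_coord j x).sub_const q)).fderiv
    have e1 : (fun x => kk K c (rho i j p q x) * (x i - p)) =
      (kk K c ∘ rho i j p q * fun x => x i - p) := rfl
    have e2 : (fun x => kk K c (rho i j p q x) * (x j - q)) =
      (kk K c ∘ rho i j p q * fun x => x j - q) := rfl
    simp only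
    rw [e1, e2, d1, d2]
    simp only [add_apply, smul_apply, pr_ev, if_true, if_neg hij, if_neg hij.symm, smul_eq_mul,
      Function.comp_apply]
    have hL := hs x hx
    set ρ := rho i j p q x with hρdef
    have eρ : ρ = (x i - p) ^ 2 + (x j - q) ^ 2 := rfl
    set L := LL K c ρ
    have ek : kk K c ρ = L / ((1 + L ^ 2) * (ρ + c)) := rfl
    set k := kk K c ρ
    set k' := (L ^ 2 - 1) / ((1 + L ^ 2) ^ 2 * (ρ + c) ^ 2) - L / ((1 + L ^ 2) * (ρ + c) ^ 2)
      with hk'
    have key : 1 / 2 * (ρ * k ^ 2) ≤ 2 * k + 2 * ρ * k' - ρ * k ^ 2 := by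
      have : 2 * k + 2 * ρ * k' - ρ * k ^ 2 - 1 / 2 * (ρ * k ^ 2) =
          (ρ * (L ^ 2 - 4) / 2 + 2 * c * L * (1 + L ^ 2)) / ((1 + L ^ 2) ^ 2 * (ρ + c) ^ 2) := by
        rw [ek, hk']
        field_simp
        ring
      have h7 : 0 ≤ L ^ 2 - 4 := by nlinarith
      have h8 : 0 ≤ (ρ * (L ^ 2 - 4) / 2 + 2 * c * L * (1 + L ^ 2)) /
          ((1 + L ^ 2) ^ 2 * (ρ + c) ^ 2) := by
        have : 0 ≤ L := by linarith
        positivity
      linarith
    have := mul_le_mul_of_nonneg_left key (sq_nonneg (u x))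
    rw [eρ] at this ⊢
    nlinarith
  rw [integral_const_mul] at h5
  linarith

lemma ST_bound : ∃ C > 0, ∀ s, |deriv smoothTransition s| ≤ C := by
  have hc : Continuous (deriv smoothTransition) :=
    (smoothTransition.contDiff (n := 1)).continuous_deriv le_rfl
  obtain ⟨C, hC⟩ := (isCompact_Icc (a := (0 : ℝ)) (b := 1)).exists_bound_of_continuousOn
    hc.continuousOn
  refine ⟨max C 1, by positivity, fun s => ?_⟩
  by_cases hs : s ∈ Icc (0 : ℝ) 1
  · exact (hC s hs).trans (le_max_left _ _)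
  · have : deriv smoothTransition s = 0 := by
      rcases not_and_or.1 hs with h | h
      · have : smoothTransition =ᶠ[𝓝 s] fun _ => 0 := by
          filter_upwards [Iio_mem_nhds (not_le.1 h)] with t ht
          exact smoothTransition.zero_of_nonpos (le_of_lt ht)
        rw [this.deriv_eq, deriv_const]
      · have : smoothTransition =ᶠ[𝓝 s] fun _ => 1 := by
          filter_upwards [Ioi_mem_nhds (not_le.1 h)] with t ht
          exact smoothTransition.one_of_one_le (le_of_lt ht)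
        rw [this.deriv_eq, deriv_const]
    rw [this, abs_zero]
    positivity

/-- cut-off functions near a line, with small cost -/
theorem exists_cutoff {i j : Fin 3} (hij : i ≠ j) (p q : ℝ) {R κ r1 : ℝ} (hR : 0 < R)
    (hκ : 0 < κ) (hr1 : 0 < r1) : ∃ r0 > 0, ∃ θ : E3 → ℝ, ContDiff ℝ (⊤ : ℕ∞) θ ∧
      (∀ x, 0 ≤ θ x ∧ θ x ≤ 1) ∧ (∀ x, rho i j p q x ≤ r0 ^ 2 → θ x = 1) ∧
      (∀ x, (∀ l, |x l| ≤ R) → θ x ≠ 0 → rho i j p q x < r1 ^ 2) ∧
      ∀ u, Tst u → (∀ x, u x ≠ 0 → ∀ l, |x l| ≤ R) →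
        ∫ x, u x ^ 2 * ‖fderiv ℝ θ x‖ ^ 2 ≤ κ * En u ∧ ∫ x, (θ x * u x) ^ 2 ≤ κ * En u := by
  obtain ⟨C, hC, hST⟩ := ST_bound
  set r := min r1 (κ / (2 * (1 + 16 * R ^ 2))) with hr
  have hr0 : 0 < r := by positivity
  have hrr : r ≤ r1 := min_le_left _ _
  have hrκ : 2 * r * (1 + 16 * R ^ 2) ≤ κ := by
    have : r ≤ κ / (2 * (1 + 16 * R ^ 2)) := min_le_right _ _
    rw [le_div_iff₀ (by positivity)] at this
    linarith
  set B := (R + |p|) ^ 2 + (R + |q|) ^ 2 + 1 with hB
  have hB0 : 0 < B := by positivity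
  set K := exp 2 * B with hK
  have hK0 : 0 < K := by positivity
  set M := 16 * C ^ 2 / κ + 1 with hM
  have hM1 : 1 ≤ M := by
    have : 0 ≤ 16 * C ^ 2 / κ := by positivity
    linarith
  have hM0 : 0 < M := by linarith
  set A := 1 / 2 * log (1 + (log K - log (r ^ 2)) ^ 2) with hA
  set c := min 1 (K * exp (-exp (A + M)) / 2) with hc
  have hc0 : 0 < c := by positivity
  have hc1 : c ≤ 1 := min_le_left _ _
  have hc2 : c ≤ K * exp (-exp (A + M)) / 2 := min_le_right _ _
  have hreg : ∀ x : E3, (∀ l, |x l| ≤ R) → 2 ≤ LL K c (rho i j p q x) := by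
    intro x hx
    have h1 : ∀ (l : Fin 3) (p : ℝ), (x l - p) ^ 2 ≤ (R + |p|) ^ 2 := by
      intro l p
      rw [← sq_abs]
      exact pow_le_pow_left₀ (abs_nonneg _) ((abs_sub _ _).trans (by linarith [hx l])) 2
    have h2 : rho i j p q x + c ≤ B := by
      unfold rho
      linarith [h1 i p, h1 j q]
    have h3 := log_le_log (add_pos_of_nonneg_of_pos (rho_nonneg i j p q x) hc0) h2
    unfold LL
    rw [hK, log_mul (exp_pos 2).ne' hB0.ne', log_exp]
    linarith
  set G : ℝ → ℝ := fun s => (1 / 2 * log (1 + LL K c s ^ 2) - A) / M with hG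
  have hGd : ∀ s, 0 ≤ s → HasDerivAt G (-(kk K c s) / M) s := by
    intro s hs
    have hσ : 0 < s + c := by positivity
    have h1 := LL_deriv K hσ
    have h2 : 0 < 1 + LL K c s ^ 2 := by positivity
    have := (((((h1.pow 2).const_add 1).log h2.ne').const_mul (1 / 2)).sub_const A).div_const M
    refine HasDerivAt.congr_deriv this ?_
    simp only [Pi.pow_apply, Nat.cast_ofNat, Nat.add_one_sub_one, pow_one, kk]
    field_simp
  have hθ : ContDiff ℝ (⊤ : ℕ∞) (fun x => smoothTransition (G (rho i j p q x))) := by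
    apply smoothTransition.contDiff.comp
    exact ((contDiff_const.mul ((contDiff_const.add ((LL_cd K hc0 i j p q).pow 2)).log
      fun x => by positivity)).sub contDiff_const).div_const M
  have hzero : ∀ x : E3, (∀ l, |x l| ≤ R) → smoothTransition (G (rho i j p q x)) ≠ 0 →
      rho i j p q x < r ^ 2 := by
    intro x hx hne
    by_contra hge
    push Not at hge
    apply hne
    apply smoothTransition.zero_of_nonpos
    apply div_nonpos_of_nonpos_of_nonneg _ hM0.le
    have h1 := hreg x hx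
    have h2 : LL K c (rho i j p q x) ≤ log K - log (r ^ 2) := by
      unfold LL
      have := log_le_log (show 0 < r ^ 2 by positivity) (show r ^ 2 ≤ rho i j p q x + c by linarith)
      linarith
    have h3 := pow_le_pow_left₀ (by linarith) h2 2
    have h4 := log_le_log (show 0 < 1 + LL K c (rho i j p q x) ^ 2 by positivity)
      (add_le_add_right h3 1)
    linarith
  refine ⟨√c, sqrt_pos.2 hc0, fun x => smoothTransition (G (rho i j p q x)), hθ,
    fun x => ⟨smoothTransition.nonneg _, smoothTransition.le_one _⟩, fun x hx => ?_,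
    fun x hx hne => (hzero x hx hne).trans_le (pow_le_pow_left₀ hr0.le hrr 2), fun u hu hs => ⟨?_, ?_⟩⟩
  · apply smoothTransition.one_of_one_le
    rw [sq_sqrt hc0.le] at hx
    have hσ : 0 < rho i j p q x + c := add_pos_of_nonneg_of_pos (rho_nonneg i j p q x) hc0
    have h1 := log_le_log hσ (show rho i j p q x + c ≤ K * exp (-exp (A + M)) by linarith)
    rw [log_mul hK0.ne' (exp_pos _).ne', log_exp] at h1
    have h2 : exp (A + M) ≤ LL K c (rho i j p q x) := by
      unfold LL
      linarith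
    have h3 := pow_le_pow_left₀ (exp_pos _).le h2 2
    have h4 := log_le_log (show 0 < exp (A + M) ^ 2 by positivity)
      (show exp (A + M) ^ 2 ≤ 1 + LL K c (rho i j p q x) ^ 2 by linarith)
    rw [log_pow, log_exp] at h4
    simp only [hG]
    rw [le_div_iff₀ hM0]
    push_cast at h4
    linarith
  · have h1 := hardy hu K hc0 hij p q (fun x hx => hreg x (hs x hx))
    have h2 : ∫ x, u x ^ 2 * ‖fderiv ℝ (fun x => smoothTransition (G (rho i j p q x))) x‖ ^ 2 ≤
        ∫ x, 8 * C ^ 2 / M ^ 2 * (u x ^ 2 * (rho i j p q x * kk K c (rho i j p q x) ^ 2)) := by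
      apply integral_mono (hu.int_sq_mul ((cfd hθ).norm.fun_pow 2))
        ((hu.int_sq_mul ((rho_cd i j p q (n := 0)).continuous.fun_mul
        ((kk_cd K hc0 i j p q (n := 0)).continuous.fun_pow 2))).const_mul _)
      intro x
      have d1 : HasDerivAt smoothTransition (deriv smoothTransition (G (rho i j p q x)))
          (G (rho i j p q x)) :=
        ((smoothTransition.contDiff (n := 1)).differentiable (by simp) _).hasDerivAt
      have d2 := ((d1.comp _ (hGd _ (rho_nonneg i j p q x))).comp_hasFDerivAt x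
        (rho_hasF i j p q x)).fderiv
      have e : (fun x => smoothTransition (G (rho i j p q x))) =
        (smoothTransition ∘ G) ∘ rho i j p q := rfl
      simp only
      rw [e, d2, norm_smul, mul_pow, Real.norm_eq_abs, sq_abs]
      have n1 : ‖(2 * (x i - p)) • pr i + (2 * (x j - q)) • pr j‖ ≤
          |2 * (x i - p)| + |2 * (x j - q)| := by
        refine (norm_add_le _ _).trans (add_le_add ?_ ?_)
        · rw [norm_smul]
          exact mul_le_of_le_one_right (abs_nonneg _) (norm_pr i)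
        · rw [norm_smul]
          exact mul_le_of_le_one_right (abs_nonneg _) (norm_pr j)
      have n2 : ‖(2 * (x i - p)) • pr i + (2 * (x j - q)) • pr j‖ ^ 2 ≤ 8 * rho i j p q x := by
        refine (pow_le_pow_left₀ (norm_nonneg _) n1 2).trans ?_
        unfold rho
        nlinarith [sq_abs (2 * (x i - p)), sq_abs (2 * (x j - q)),
          sq_nonneg (|2 * (x i - p)| - |2 * (x j - q)|)]
      have n3 : deriv smoothTransition (G (rho i j p q x)) ^ 2 ≤ C ^ 2 := by
        rw [← sq_abs]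
        exact pow_le_pow_left₀ (abs_nonneg _) (hST _) 2
      have n4 : (deriv smoothTransition (G (rho i j p q x)) * (-kk K c (rho i j p q x) / M)) ^ 2 ≤
          C ^ 2 * (kk K c (rho i j p q x) ^ 2 / M ^ 2) := by
        rw [mul_pow, div_pow, neg_sq]
        exact mul_le_mul_of_nonneg_right n3 (by positivity)
      have n5 := mul_le_mul n4 n2 (sq_nonneg _) (by positivity)
      refine (mul_le_mul_of_nonneg_left n5 (sq_nonneg _)).trans (le_of_eq ?_)
      ring
    rw [integral_const_mul] at h2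
    have h3 : 8 * C ^ 2 / M ^ 2 * 2 ≤ κ := by
      rw [div_mul_eq_mul_div, div_le_iff₀ (by positivity)]
      have : 16 * C ^ 2 ≤ κ * M := by
        rw [hM, mul_add, mul_div_cancel₀ _ hκ.ne']
        linarith
      nlinarith [mul_le_mul_of_nonneg_left hM1 (mul_pos hκ hM0).le]
    have h4 := mul_le_mul_of_nonneg_left h1 (show 0 ≤ 8 * C ^ 2 / M ^ 2 by positivity)
    nlinarith [mul_le_mul_of_nonneg_right h3 (En_nonneg u)]
  · refine (slab hu hθ.continuous hR hr0 hs i
      (fun x => ⟨smoothTransition.nonneg _, smoothTransition.le_one _⟩) (p := p)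
      fun x hx hne => ?_).trans (mul_le_mul_of_nonneg_right hrκ (En_nonneg u))
    have := hzero x (hs x hx) hne
    unfold rho at this
    apply abs_le_of_sq_le_sq _ hr0.le
    nlinarith [sq_nonneg (x j - q)]

end Pool.Agent.H771Z.DM
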