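import Mathlib
import Pool.Agent.H771Z.DM.Field

set_option autoImplicit false

/-! The energy space, as a closed subspace of `L² × L²`. -/

open MeasureTheory Set Filter Topology
open scoped InnerProductSpace

namespace Pool.Agent.H771Z.DM

noncomputable abbrev HA := Lp ℝ 2 (volume : Measure E3)
noncomputable abbrev HB := Lp E3 2 (volume : Measure E3)
noncomputable abbrev HS := WithLp 2 (HA × HB)

noncomputable def q1 : HS →L[ℝ] HA := WithLp.fstL 2 ℝ HA HB
noncomputable def q2 : HS →L[ℝ] HB := WithLp.sndL 2 ℝ HA HB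

lemma HS_norm (U : HS) : ‖U‖ ^ 2 = ‖q1 U‖ ^ 2 + ‖q2 U‖ ^ 2 := WithLp.prod_norm_sq_eq_of_L2 U

/-- `U` is represented by the pair of functions `f`, `G` -/
def Rep (U : HS) (f : E3 → ℝ) (G : E3 → E3) : Prop :=
  (q1 U : E3 → ℝ) =ᵐ[volume] f ∧ (q2 U : E3 → E3) =ᵐ[volume] G

lemma exists_rep {f : E3 → ℝ} {G : E3 → E3} (hf : MemLp f 2 volume) (hG : MemLp G 2 volume) :
    ∃ U, Rep U f G :=
  ⟨WithLp.toLp 2 (hf.toLp f, hG.toLp G), hf.coeFn_toLp, hG.coeFn_toLp⟩

namespace Rep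
variable {U U' : HS} {f f' : E3 → ℝ} {G G' : E3 → E3}

lemma inner1 (h : Rep U f G) (h' : Rep U' f' G') : ⟪q1 U, q1 U'⟫_ℝ = ∫ x, f x * f' x := by
  rw [L2.inner_def]
  apply integral_congr_ae
  filter_upwards [h.1, h'.1] with x h1 h2
  rw [h1, h2]
  simp [mul_comm]

lemma inner2 (h : Rep U f G) (h' : Rep U' f' G') : ⟪q2 U, q2 U'⟫_ℝ = ∫ x, ⟪G x, G' x⟫_ℝ := by
  rw [L2.inner_def]
  apply integral_congr_ae
  filter_upwards [h.2, h'.2] with x h1 h2
  rw [h1, h2]

lemma norm1 (h : Rep U f G) : ‖q1 U‖ ^ 2 = ∫ x, f x ^ 2 := by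
  rw [← real_inner_self_eq_norm_sq, h.inner1 h]
  simp_rw [pow_two]

lemma norm2 (h : Rep U f G) : ‖q2 U‖ ^ 2 = ∫ x, ‖G x‖ ^ 2 := by
  rw [← real_inner_self_eq_norm_sq, h.inner2 h]
  simp_rw [real_inner_self_eq_norm_sq]

lemma add (h : Rep U f G) (h' : Rep U' f' G') :
    Rep (U + U') (fun x => f x + f' x) (fun x => G x + G' x) := by
  constructor
  · rw [map_add]
    filter_upwards [h.1, h'.1, Lp.coeFn_add (q1 U) (q1 U')] with x h1 h2 h3
    rw [h3, Pi.add_apply, h1, h2]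
  · rw [map_add]
    filter_upwards [h.2, h'.2, Lp.coeFn_add (q2 U) (q2 U')] with x h1 h2 h3
    rw [h3, Pi.add_apply, h1, h2]

lemma smul (h : Rep U f G) (c : ℝ) : Rep (c • U) (fun x => c * f x) (fun x => c • G x) := by
  constructor
  · rw [map_smul]
    filter_upwards [h.1, Lp.coeFn_smul c (q1 U)] with x h1 h3
    rw [h3, Pi.smul_apply, h1, smul_eq_mul]
  · rw [map_smul]
    filter_upwards [h.2, Lp.coeFn_smul c (q2 U)] with x h1 h3
    rw [h3, Pi.smul_apply, h1]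

lemma sub (h : Rep U f G) (h' : Rep U' f' G') :
    Rep (U - U') (fun x => f x - f' x) (fun x => G x - G' x) := by
  have := h.add (h'.smul (-1))
  simpa [sub_eq_add_neg] using this

lemma zero : Rep 0 (fun _ => 0) (fun _ => 0) := by
  constructor
  · rw [map_zero]
    exact Lp.coeFn_zero _ _ _
  · rw [map_zero]
    exact Lp.coeFn_zero _ _ _

lemma sum {ι : Type*} (s : Finset ι) {U : ι → HS} {f : ι → E3 → ℝ} {G : ι → E3 → E3}
    (h : ∀ i, Rep (U i) (f i) (G i)) :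
    Rep (∑ i ∈ s, U i) (fun x => ∑ i ∈ s, f i x) (fun x => ∑ i ∈ s, G i x) := by
  classical
  induction s using Finset.induction_on with
  | empty => simpa using zero
  | insert a s ha ih =>
    simp_rw [Finset.sum_insert ha]
    exact (h a).add ih

lemma congr (h : Rep U f G) (e1 : ∀ x, f x = f' x) (e2 : ∀ x, G x = G' x) : Rep U f' G' := by
  rw [← funext e1, ← funext e2]
  exact h

end Rep

lemma norm_grad (f : E3 → ℝ) (x : E3) : ‖gradient f x‖ = ‖fderiv ℝ f x‖ :=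
  (InnerProductSpace.toDual ℝ E3).symm.norm_map _

lemma grad_apply (f : E3 → ℝ) (x : E3) (i : Fin 3) : gradient f x i = fderiv ℝ f x (ev i) := by
  rw [← inner_gradient_left, ev, EuclideanSpace.inner_single_right]
  simp

lemma inner_grad (f g : E3 → ℝ) (x : E3) :
    ⟪gradient f x, gradient g x⟫_ℝ = ∑ i, fderiv ℝ f x (ev i) * fderiv ℝ g x (ev i) := by
  rw [PiLp.inner_apply]
  apply Finset.sum_congr rfl
  intro i _
  rw [grad_apply, grad_apply]
  simp [mul_comm]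

lemma grad_cont {f : E3 → ℝ} (h : ContDiff ℝ (⊤ : ℕ∞) f) : Continuous (gradient f) :=
  (InnerProductSpace.toDual ℝ E3).symm.continuous.comp (cfd h)

lemma grad_of_hasF {f : E3 → ℝ} {x : E3} {L : E3 →L[ℝ] ℝ} (h : HasFDerivAt f L x) :
    gradient f x = (InnerProductSpace.toDual ℝ E3).symm L := by
  unfold gradient
  rw [h.fderiv]

lemma grad_add {f g : E3 → ℝ} {x : E3} (hf : DifferentiableAt ℝ f x)
    (hg : DifferentiableAt ℝ g x) :
    gradient (fun x => f x + g x) x = gradient f x + gradient g x := by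
  rw [grad_of_hasF (hf.hasFDerivAt.fun_add hg.hasFDerivAt), map_add]
  rfl

lemma grad_sub {f g : E3 → ℝ} {x : E3} (hf : DifferentiableAt ℝ f x)
    (hg : DifferentiableAt ℝ g x) :
    gradient (fun x => f x - g x) x = gradient f x - gradient g x := by
  rw [grad_of_hasF (hf.hasFDerivAt.fun_sub hg.hasFDerivAt), map_sub]
  rfl

lemma grad_const_mul {f : E3 → ℝ} {x : E3} (hf : DifferentiableAt ℝ f x) (c : ℝ) :
    gradient (fun x => c * f x) x = c • gradient f x := by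
  rw [grad_of_hasF (hf.hasFDerivAt.const_mul c), map_smul]
  rfl

lemma grad_sum {ι : Type*} (s : Finset ι) {f : ι → E3 → ℝ} {x : E3}
    (hf : ∀ i, DifferentiableAt ℝ (f i) x) :
    gradient (fun x => ∑ i ∈ s, f i x) x = ∑ i ∈ s, gradient (f i) x := by
  rw [grad_of_hasF (HasFDerivAt.fun_sum fun i _ => (hf i).hasFDerivAt), map_sum]
  rfl

lemma grad_zero_of_notMem {f : E3 → ℝ} {x : E3} (h : x ∉ tsupport f) : gradient f x = 0 := by
  unfold gradient
  rw [fderiv_of_notMem_tsupport ℝ h, map_zero]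

lemma Tst.exists_rep {f : E3 → ℝ} (h : Tst f) : ∃ U, Rep U f (gradient f) := by
  apply DM.exists_rep (h.cont.memLp_of_hasCompactSupport h.cs)
  apply (grad_cont h.cd).memLp_of_hasCompactSupport
  apply h.cs.mono'
  intro x hx
  by_contra hn
  exact hx (grad_zero_of_notMem hn)

lemma Rep.en {U : HS} {f : E3 → ℝ} (h : Rep U f (gradient f)) : ‖q2 U‖ ^ 2 = En f := by
  rw [h.norm2]
  simp_rw [norm_grad]
  rfl

lemma Tst.const_mul {f : E3 → ℝ} (h : Tst f) (c : ℝ) : Tst (fun x => c * f x) :=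
  h.mul_left (g := fun _ => c) contDiff_const

lemma Tst.sum {ι : Type*} (s : Finset ι) {f : ι → E3 → ℝ} (h : ∀ i, Tst (f i)) :
    Tst (fun x => ∑ i ∈ s, f i x) := by
  classical
  induction s using Finset.induction_on with
  | empty => simpa using Tst.zero
  | insert a s ha ih =>
    simp_rw [Finset.sum_insert ha]
    exact (h a).add ih

/-- the elements represented by test functions of `Ω` -/
noncomputable def JT (Ω : Set E3) : Submodule ℝ HS where
  carrier := {U | ∃ f, Tst f ∧ tsupport f ⊆ Ω ∧ Rep U f (gradient f)}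
  zero_mem' := ⟨fun _ => 0, Tst.zero, by simp, Rep.zero.congr (fun _ => rfl) fun x => by simp⟩
  add_mem' := by
    rintro U U' ⟨f, h1, h2, h3⟩ ⟨g, h4, h5, h6⟩
    refine ⟨fun x => f x + g x, h1.add h4, (tsupport_add f g).trans (union_subset h2 h5),
      (h3.add h6).congr (fun _ => rfl) fun x => (grad_add (dif h1.cd x) (dif h4.cd x)).symm⟩
  smul_mem' := by
    rintro c U ⟨f, h1, h2, h3⟩
    exact ⟨fun x => c * f x, h1.const_mul c, (tsupport_mul_subset_right).trans h2,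
      (h3.smul c).congr (fun _ => rfl) fun x => (grad_const_mul (dif h1.cd x) c).symm⟩

/-- the energy space of `Ω` -/
noncomputable def VV (Ω : Set E3) : Submodule ℝ HS := (JT Ω).topologicalClosure

lemma JT_mono {Ω Ω' : Set E3} (h : Ω ⊆ Ω') : JT Ω ≤ JT Ω' := by
  rintro U ⟨f, h1, h2, h3⟩
  exact ⟨f, h1, h2.trans h, h3⟩

lemma VV_mono {Ω Ω' : Set E3} (h : Ω ⊆ Ω') : VV Ω ≤ VV Ω' :=
  Submodule.topologicalClosure_mono (JT_mono h)

lemma JT_le (Ω : Set E3) : JT Ω ≤ VV Ω := Submodule.le_topologicalClosure _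

lemma VV_closed (Ω : Set E3) : IsClosed (VV Ω : Set HS) := Submodule.isClosed_topologicalClosure _

lemma VV_ind {Ω : Set E3} {P : Set HS} (hP : IsClosed P)
    (h : ∀ U f, Tst f → tsupport f ⊆ Ω → Rep U f (gradient f) → U ∈ P) {U : HS} (hU : U ∈ VV Ω) :
    U ∈ P := by
  refine closure_minimal (s := (JT Ω : Set HS)) ?_ hP hU
  rintro U ⟨f, h1, h2, h3⟩
  exact h U f h1 h2 h3

lemma norm_fderiv_mul {θ u : E3 → ℝ} (hθ : ContDiff ℝ (⊤ : ℕ∞) θ) (hu : ContDiff ℝ (⊤ : ℕ∞) u)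
    {η : ℝ} (hη : 0 < η) (x : E3) : ‖fderiv ℝ (fun x => θ x * u x) x‖ ^ 2 ≤
      (1 + η) * (θ x ^ 2 * ‖fderiv ℝ u x‖ ^ 2) + (1 + 1 / η) * (u x ^ 2 * ‖fderiv ℝ θ x‖ ^ 2) := by
  rw [fderiv_fun_mul (dif hθ x) (dif hu x)]
  have h1 : ‖θ x • fderiv ℝ u x + u x • fderiv ℝ θ x‖ ≤
      |θ x| * ‖fderiv ℝ u x‖ + |u x| * ‖fderiv ℝ θ x‖ := by
    refine (norm_add_le _ _).trans (le_of_eq ?_)
    rw [norm_smul, norm_smul, Real.norm_eq_abs, Real.norm_eq_abs]
  refine (pow_le_pow_left₀ (norm_nonneg _) h1 2).trans ?_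
  rw [← sq_abs (θ x), ← sq_abs (u x), ← mul_pow, ← mul_pow]
  set a := |θ x| * ‖fderiv ℝ u x‖
  set b := |u x| * ‖fderiv ℝ θ x‖
  have : η * a ^ 2 + 1 / η * b ^ 2 - 2 * a * b = (η * a - b) ^ 2 / η := by
    field_simp
    ring
  have h2 : 0 ≤ (η * a - b) ^ 2 / η := by positivity
  nlinarith

end Pool.Agent.H771Z.DM
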