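import Mathlib
import Pool.Agent.H771Z.DM.Space
import Pool.Agent.H771Z.DM.BoxGap
import Pool.Agent.H771Z.DM.Abs2

set_option autoImplicit false

/-! Boxes: first eigenfunction, spectral gap and the boundary formula. -/

open MeasureTheory Set Filter Topology Real
open scoped InnerProductSpace

namespace Pool.Agent.H771Z.DM

/-- open box -/
def Box (lo d : Fin 3 → ℝ) : Set E3 := {x | ∀ i, lo i < x i ∧ x i < lo i + d i}

/-- closed box -/
def CBox (lo d : Fin 3 → ℝ) : Set E3 := {x | ∀ i, lo i ≤ x i ∧ x i ≤ lo i + d i}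

variable (lo d : Fin 3 → ℝ)

lemma Box_open : IsOpen (Box lo d) := by
  have : Box lo d = ⋂ i, ({x : E3 | lo i < x i} ∩ {x : E3 | x i < lo i + d i}) := by
    ext x
    simp [Box]
  rw [this]
  exact isOpen_iInter_of_finite fun i =>
    (isOpen_lt continuous_const (pr i).continuous).inter
      (isOpen_lt (pr i).continuous continuous_const)

lemma Box_convex : Convex ℝ (Box lo d) := by
  have : Box lo d = ⋂ i, ({x : E3 | lo i < pr i x} ∩ {x : E3 | pr i x < lo i + d i}) := by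
    ext x
    simp [Box, pr_apply]
  rw [this]
  exact convex_iInter fun i => (convex_halfSpace_gt (pr i).isLinear _).inter
    (convex_halfSpace_lt (pr i).isLinear _)

lemma CBox_compact : IsCompact (CBox lo d) := by
  have : CBox lo d = (WithLp.ofLp : E3 → (Fin 3 → ℝ)) ⁻¹' (Icc lo (fun i => lo i + d i)) := by
    ext x
    simp only [CBox, mem_ofPred_eq, mem_preimage, mem_Icc, Pi.le_def]
    exact forall_and
  rw [this]
  exact (PiLp.homeomorph 2 (fun _ : Fin 3 => ℝ)).isClosedEmbedding.isCompact_preimage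
    isCompact_Icc

lemma Box_sub : Box lo d ⊆ CBox lo d := fun _ hx i => ⟨(hx i).1.le, (hx i).2.le⟩

lemma Box_meas : MeasurableSet (Box lo d) := (Box_open lo d).measurableSet

instance Box_fin : IsFiniteMeasure (volume.restrict (Box lo d)) :=
  ⟨by
    rw [Measure.restrict_apply_univ]
    exact (measure_mono (Box_sub lo d)).trans_lt (CBox_compact lo d).measure_lt_top⟩

lemma intOn_Box {F : E3 → ℝ} (h : Continuous F) : IntegrableOn F (Box lo d) :=
  (h.continuousOn.integrableOn_compact (CBox_compact lo d)).mono_set (Box_sub lo d)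

lemma int_Box_pi (F : E3 → ℝ) : ∫ x in Box lo d, F x =
    ∫ y in univ.pi fun i => Ioo (lo i) (lo i + d i), F (WithLp.toLp 2 y) := by
  have hmp : MeasurePreserving (WithLp.toLp 2 : (Fin 3 → ℝ) → E3) :=
    PiLp.volume_preserving_toLp (Fin 3)
  have hemb : MeasurableEmbedding (WithLp.toLp 2 : (Fin 3 → ℝ) → E3) :=
    (PiLp.homeomorph 2 (fun _ : Fin 3 => ℝ)).symm.measurableEmbedding
  rw [← hmp.setIntegral_preimage_emb hemb]
  congr 2
  ext y
  simp [Box]

lemma int_Box (F : E3 → ℝ) : ∫ x in Box lo d, F x = ∫ y, F (WithLp.toLp 2 y) ∂(bμ lo d) := by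
  rw [int_Box_pi, bμ, ← Measure.restrict_pi_pi]
  rfl

/-- the normalised first eigenfunction of the box -/
noncomputable def Ph (x : E3) : ℝ :=
  sg (lo 0) (d 0) (x 0) * sg (lo 1) (d 1) (x 1) * sg (lo 2) (d 2) (x 2)

/-- its partial derivatives -/
noncomputable def dPh (i : Fin 3) (x : E3) : ℝ :=
  ![sg' (lo 0) (d 0) (x 0) * sg (lo 1) (d 1) (x 1) * sg (lo 2) (d 2) (x 2),
    sg (lo 0) (d 0) (x 0) * sg' (lo 1) (d 1) (x 1) * sg (lo 2) (d 2) (x 2),
    sg (lo 0) (d 0) (x 0) * sg (lo 1) (d 1) (x 1) * sg' (lo 2) (d 2) (x 2)] i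

lemma Ph_sp (y : Fin 3 → ℝ) : Ph lo d (WithLp.toLp 2 y) = sp lo d y := by
  simp [Ph, sp, Fin.prod_univ_three]

lemma tp_cd {g0 g1 g2 : ℝ → ℝ} (h0 : ContDiff ℝ (⊤ : ℕ∞) g0) (h1 : ContDiff ℝ (⊤ : ℕ∞) g1)
    (h2 : ContDiff ℝ (⊤ : ℕ∞) g2) :
    ContDiff ℝ (⊤ : ℕ∞) (fun x : E3 => g0 (x 0) * g1 (x 1) * g2 (x 2)) :=
  ((h0.comp (cd_coord 0)).mul (h1.comp (cd_coord 1))).mul (h2.comp (cd_coord 2))

lemma tp_D {g0 g1 g2 : ℝ → ℝ} {a0 a1 a2 : ℝ} {x : E3} (h0 : HasDerivAt g0 a0 (x 0))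
    (h1 : HasDerivAt g1 a1 (x 1)) (h2 : HasDerivAt g2 a2 (x 2)) (i : Fin 3) :
    fderiv ℝ (fun x : E3 => g0 (x 0) * g1 (x 1) * g2 (x 2)) x (ev i) =
      ![a0 * g1 (x 1) * g2 (x 2), g0 (x 0) * a1 * g2 (x 2), g0 (x 0) * g1 (x 1) * a2] i := by
  have k0 : HasFDerivAt (fun x : E3 => g0 (x 0)) (a0 • pr 0) x :=
    h0.comp_hasFDerivAt x (hasF_coord 0 x)
  have k1 : HasFDerivAt (fun x : E3 => g1 (x 1)) (a1 • pr 1) x :=
    h1.comp_hasFDerivAt x (hasF_coord 1 x)
  have k2 : HasFDerivAt (fun x : E3 => g2 (x 2)) (a2 • pr 2) x :=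
    h2.comp_hasFDerivAt x (hasF_coord 2 x)
  rw [((k0.fun_mul k1).fun_mul k2).fderiv]
  fin_cases i <;> simp [pr_ev] <;> ring

lemma Ph_cd : ContDiff ℝ (⊤ : ℕ∞) (Ph lo d) := tp_cd (sg_cd _ _) (sg_cd _ _) (sg_cd _ _)

lemma dPh_cd (i : Fin 3) : ContDiff ℝ (⊤ : ℕ∞) (dPh lo d i) := by
  fin_cases i
  · exact tp_cd (sg'_cd _ _) (sg_cd _ _) (sg_cd _ _)
  · exact tp_cd (sg_cd _ _) (sg'_cd _ _) (sg_cd _ _)
  · exact tp_cd (sg_cd _ _) (sg_cd _ _) (sg'_cd _ _)

lemma Ph_D (x : E3) (i : Fin 3) : fderiv ℝ (Ph lo d) x (ev i) = dPh lo d i x :=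
  tp_D (sg_deriv _ _ _) (sg_deriv _ _ _) (sg_deriv _ _ _) i

lemma dPh_D (x : E3) (i : Fin 3) :
    fderiv ℝ (dPh lo d i) x (ev i) = -((π / d i) ^ 2 * Ph lo d x) := by
  fin_cases i
  · refine (tp_D (sg'_deriv _ _ _) (sg_deriv _ _ _) (sg_deriv _ _ _) 0).trans ?_
    simp [Ph]
    ring
  · refine (tp_D (sg_deriv _ _ _) (sg'_deriv _ _ _) (sg_deriv _ _ _) 1).trans ?_
    simp [Ph]
    ring
  · refine (tp_D (sg_deriv _ _ _) (sg_deriv _ _ _) (sg'_deriv _ _ _) 2).trans ?_
    simp [Ph]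
    ring

variable {lo d}

lemma Ph_pos (hd : ∀ i, 0 < d i) {x : E3} (hx : x ∈ Box lo d) : 0 < Ph lo d x :=
  mul_pos (mul_pos (sg_pos (hd 0) (hx 0).1 (hx 0).2) (sg_pos (hd 1) (hx 1).1 (hx 1).2))
    (sg_pos (hd 2) (hx 2).1 (hx 2).2)

lemma Ph_face (hd : ∀ i, 0 < d i) {x : E3} (hx : x ∈ CBox lo d) (hn : x ∉ Box lo d) :
    Ph lo d x = 0 := by
  have : ∃ i, sg (lo i) (d i) (x i) = 0 := by
    by_contra hc
    push Not at hc
    apply hn
    intro i
    constructor
    · refine lt_of_le_of_ne (hx i).1 fun e => hc i ?_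
      rw [← e, sg_lo]
    · refine lt_of_le_of_ne (hx i).2 fun e => hc i ?_
      rw [e, sg_hi _ (hd i)]
  obtain ⟨i, hi⟩ := this
  unfold Ph
  fin_cases i
  · simp only [Fin.zero_eta] at hi
    simp [hi]
  · simp only [Fin.mk_one] at hi
    simp [hi]
  · simp only [Fin.reduceFinMk] at hi
    simp [hi]

lemma Ph_norm (hd : ∀ i, 0 < d i) : ∫ x in Box lo d, Ph lo d x ^ 2 = 1 := by
  rw [int_Box]
  simp_rw [Ph_sp]
  exact sp_norm lo d hd

lemma Tst.bm {f : E3 → ℝ} (h : Tst f) : BM f := by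
  obtain ⟨C, hC⟩ := h.cont.bounded_above_of_compact_support h.cs
  exact ⟨h.cont.measurable, C, hC⟩

lemma Tst.D {f : E3 → ℝ} (h : Tst f) (v : E3) : Tst (fun x => fderiv ℝ f x v) :=
  ⟨(h.cd.fderiv_right (m := (⊤ : ℕ∞)) (by simp)).clm_apply contDiff_const, h.cs.fderiv_apply ℝ v⟩

lemma line_deriv (x : Fin 3 → ℝ) (i : Fin 3) (s : ℝ) :
    HasDerivAt (fun s => (WithLp.toLp 2 (Function.update x i s) : E3)) (ev i) s := by
  have := (EuclideanSpace.equiv (Fin 3) ℝ).symm.hasFDerivAt.comp_hasDerivAt s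
    (hasDerivAt_update x i s)
  exact this

/-- the spectral gap of the box -/
theorem Box_gap (hd : ∀ i, 0 < d i) {γ : ℝ} (hγ : 0 ≤ γ) (hγd : ∀ i, γ ≤ 5 / 4 * (π / d i) ^ 2)
    {f : E3 → ℝ} (hf : Tst f) (h0 : ∀ x ∈ CBox lo d, x ∉ Box lo d → f x = 0) :
    γ * ((∫ x in Box lo d, f x ^ 2) - (∫ x in Box lo d, Ph lo d x * f x) ^ 2) ≤
      (∫ x in Box lo d, ‖fderiv ℝ f x‖ ^ 2) -
        (∑ i, (π / d i) ^ 2) * ∫ x in Box lo d, f x ^ 2 := by
  have mt : Measurable (WithLp.toLp 2 : (Fin 3 → ℝ) → E3) :=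
    (PiLp.continuous_toLp 2 _).measurable
  have := box_gap γ hγ 3 lo d hd hγd (fun y => f (WithLp.toLp 2 y))
    (fun i y => fderiv ℝ f (WithLp.toLp 2 y) (ev i)) (hf.bm.comp mt)
    (fun i => (hf.D (ev i)).bm.comp mt)
    (fun x i => by
      have h1 : HasFDerivAt f (fderiv ℝ f (WithLp.toLp 2 x))
          (WithLp.toLp 2 (Function.update x i (x i))) := by
        rw [Function.update_eq_self]
        exact (dif hf.cd _).hasFDerivAt
      exact h1.comp_hasDerivAt (x i) (line_deriv x i (x i)))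
    (fun x i => (hf.D (ev i)).cont.comp
      (continuous_iff_continuousAt.2 fun s => (line_deriv x i s).continuousAt))
    (fun x i h1 h2 => h0 _ h1 fun hb => by
      have := hb i
      rcases h2 with h2 | h2
      · exact absurd h2 this.1.ne'
      · exact absurd h2 this.2.ne)
  rw [← integral_const_mul, ← integral_sub (hf.int_nD.integrableOn)
    (hf.int_sq.integrableOn.const_mul _), int_Box, int_Box, int_Box]
  simp_rw [Ph_sp]
  refine this.trans (le_of_eq ?_)
  apply integral_congr_ae (ae_of_all _ fun y => ?_)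
  simp only
  rw [norm_sq_dual, Finset.sum_sub_distrib, Finset.sum_mul]

/-- points of a horizontal plane -/
def tr (z : ℝ) (y : Fin 2 → ℝ) : E3 := WithLp.toLp 2 (Fin.insertNth 2 z y)

lemma tr0 (z : ℝ) (y : Fin 2 → ℝ) : tr z y 0 = y 0 := rfl
lemma tr1 (z : ℝ) (y : Fin 2 → ℝ) : tr z y 1 = y 1 := rfl
lemma tr2 (z : ℝ) (y : Fin 2 → ℝ) : tr z y 2 = z := rfl

lemma tr_cont (z : ℝ) : Continuous (tr z) :=
  (PiLp.continuous_toLp 2 _).comp (continuous_const.finInsertNth 2 continuous_id)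

/-- the footprint of the box -/
def Foot (lo d : Fin 3 → ℝ) : Set (Fin 2 → ℝ) :=
  {y | (lo 0 ≤ y 0 ∧ y 0 ≤ lo 0 + d 0) ∧ (lo 1 ≤ y 1 ∧ y 1 ≤ lo 1 + d 1)}

/-- the normal derivative of the eigenfunction on the horizontal faces -/
noncomputable def wt (lo d : Fin 3 → ℝ) (y : Fin 2 → ℝ) : ℝ :=
  sg (lo 0) (d 0) (y 0) * sg (lo 1) (d 1) (y 1) * (√(2 / d 2) * (π / d 2))

lemma wt_cont (lo d : Fin 3 → ℝ) : Continuous (wt lo d) :=
  (((sg_cont _ _).comp (continuous_apply 0)).mul ((sg_cont _ _).comp (continuous_apply 1))).mul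
    continuous_const

theorem Box_div (hd : ∀ i, 0 < d i) {f : E3 → ℝ} (hf : ContDiff ℝ (⊤ : ℕ∞) f)
    (h0 : ∀ x ∈ CBox lo d, (x 0 = lo 0 ∨ x 0 = lo 0 + d 0 ∨ x 1 = lo 1 ∨ x 1 = lo 1 + d 1) →
      f x = 0) :
    (∫ x in Box lo d, ⟪gradient (Ph lo d) x, gradient f x⟫_ℝ) -
      (∑ i, (π / d i) ^ 2) * ∫ x in Box lo d, Ph lo d x * f x =
      -(∫ y in Foot lo d, wt lo d y * f (tr (lo 2 + d 2) y)) -
        ∫ y in Foot lo d, wt lo d y * f (tr (lo 2) y) := by
  set L := (EuclideanSpace.equiv (Fin 3) ℝ).symm with hL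
  set F : Fin 3 → E3 → ℝ := fun i x => dPh lo d i x * f x with hF
  have Fcd : ∀ i, ContDiff ℝ (⊤ : ℕ∞) (F i) := fun i => (dPh_cd lo d i).mul hf
  have hle : lo ≤ (fun i => lo i + d i) := fun i => by simp [(hd i).le]
  have key := integral_divergence_of_hasFDerivAt_off_countable' lo (fun i => lo i + d i) hle
    (fun i y => F i (L y))
    (fun i y => (fderiv ℝ (F i) (L y)).comp (L : (Fin 3 → ℝ) →L[ℝ] E3)) ∅
    countable_empty (fun j => ((Fcd j).continuous.comp L.continuous).continuousOn)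
    (fun x _ j => (dif (Fcd j) (L x)).hasFDerivAt.comp x L.hasFDerivAt) (by
      apply Continuous.integrableOn_Icc
      exact continuous_finsetSum _ fun j _ =>
        (((cfd (Fcd j)).comp L.continuous).clm_comp continuous_const).clm_apply continuous_const)
  have e1 : (∫ x in Box lo d, ⟪gradient (Ph lo d) x, gradient f x⟫_ℝ) -
      (∑ i, (π / d i) ^ 2) * ∫ x in Box lo d, Ph lo d x * f x =
      ∫ x in Box lo d, ∑ i, fderiv ℝ (F i) x (ev i) := by
    rw [← integral_const_mul, ← integral_sub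
      (intOn_Box lo d ((grad_cont (Ph_cd lo d)).inner (grad_cont hf)))
      ((intOn_Box lo d ((Ph_cd lo d).continuous.fun_mul hf.continuous)).const_mul _)]
    apply integral_congr_ae (ae_of_all _ fun x => ?_)
    rw [inner_grad, Finset.sum_mul, ← Finset.sum_sub_distrib]
    apply Finset.sum_congr rfl
    intro i _
    simp only [hF]
    rw [fderiv_fun_mul (dif (dPh_cd lo d i) x) (dif hf x)]
    simp only [add_apply, smul_apply, smul_eq_mul, dPh_D, Ph_D]
    ring
  have eae : (univ.pi fun i => Ioo (lo i) (lo i + d i) : Set (Fin 3 → ℝ)) =ᵐ[volume]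
      Icc lo (fun i => lo i + d i) := Measure.univ_pi_Ioo_ae_eq_Icc
  rw [e1, int_Box_pi, setIntegral_congr_set eae]
  refine key.trans ?_
  rw [Fin.sum_univ_three]
  have z0 : ∀ c, (c = lo 0 ∨ c = lo 0 + d 0) →
      ∫ y in Icc (lo ∘ Fin.succAbove 0) ((fun i => lo i + d i) ∘ Fin.succAbove 0),
        F 0 (L (Fin.insertNth 0 c y)) = 0 := by
    intro c hc
    apply setIntegral_eq_zero_of_forall_eq_zero
    intro y hy
    simp only [hF]
    rw [h0, mul_zero]
    · intro i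
      fin_cases i
      · rcases hc with rfl | rfl
        · exact ⟨le_rfl, hle 0⟩
        · exact ⟨hle 0, le_rfl⟩
      · exact ⟨hy.1 0, hy.2 0⟩
      · exact ⟨hy.1 1, hy.2 1⟩
    · rcases hc with rfl | rfl
      · exact Or.inl rfl
      · exact Or.inr (Or.inl rfl)
  have z1 : ∀ c, (c = lo 1 ∨ c = lo 1 + d 1) →
      ∫ y in Icc (lo ∘ Fin.succAbove 1) ((fun i => lo i + d i) ∘ Fin.succAbove 1),
        F 1 (L (Fin.insertNth 1 c y)) = 0 := by
    intro c hc
    apply setIntegral_eq_zero_of_forall_eq_zero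
    intro y hy
    simp only [hF]
    rw [h0, mul_zero]
    · intro i
      fin_cases i
      · exact ⟨hy.1 0, hy.2 0⟩
      · rcases hc with rfl | rfl
        · exact ⟨le_rfl, hle 1⟩
        · exact ⟨hle 1, le_rfl⟩
      · exact ⟨hy.1 1, hy.2 1⟩
    · rcases hc with rfl | rfl
      · exact Or.inr (Or.inr (Or.inl rfl))
      · exact Or.inr (Or.inr (Or.inr rfl))
  rw [z0 _ (Or.inl rfl), z0 _ (Or.inr rfl), z1 _ (Or.inl rfl), z1 _ (Or.inr rfl)]
  have ef : Icc (lo ∘ Fin.succAbove 2) ((fun i => lo i + d i) ∘ Fin.succAbove 2) = Foot lo d := by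
    ext y
    simp only [mem_Icc, Pi.le_def, Fin.forall_fin_two, Foot, mem_ofPred_eq]
    exact ⟨fun h => ⟨⟨h.1.1, h.2.1⟩, h.1.2, h.2.2⟩, fun h => ⟨⟨h.1.1, h.2.1⟩, h.1.2, h.2.2⟩⟩
  rw [ef, ← integral_neg]
  have t1 : ∀ y, F 2 (L (Fin.insertNth 2 (lo 2 + d 2) y)) =
      -(wt lo d y * f (tr (lo 2 + d 2) y)) := by
    intro y
    change sg (lo 0) (d 0) (y 0) * sg (lo 1) (d 1) (y 1) * sg' (lo 2) (d 2) (lo 2 + d 2) *
      f (tr (lo 2 + d 2) y) = _
    rw [sg'_hi _ (hd 2), wt]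
    ring
  have t2 : ∀ y, F 2 (L (Fin.insertNth 2 (lo 2) y)) = wt lo d y * f (tr (lo 2) y) := by
    intro y
    change sg (lo 0) (d 0) (y 0) * sg (lo 1) (d 1) (y 1) * sg' (lo 2) (d 2) (lo 2) *
      f (tr (lo 2) y) = _
    rw [sg'_lo, wt]
  simp_rw [t1, t2]
  ring

/-- truncation profile -/
noncomputable def Tn (n : ℕ) (s : ℝ) : ℝ := s * smoothTransition (n * s - 1)

noncomputable def Tn' (n : ℕ) (s : ℝ) : ℝ :=
  smoothTransition (n * s - 1) + s * (deriv smoothTransition (n * s - 1) * n)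

lemma Tn_cd (n : ℕ) : ContDiff ℝ (⊤ : ℕ∞) (Tn n) :=
  contDiff_id.mul (smoothTransition.contDiff.comp ((contDiff_const.mul contDiff_id).sub
    contDiff_const))

lemma Tn_deriv (n : ℕ) (s : ℝ) : HasDerivAt (Tn n) (Tn' n s) s := by
  have d1 : HasDerivAt smoothTransition (deriv smoothTransition (n * s - 1)) (n * s - 1) :=
    ((smoothTransition.contDiff (n := 1)).differentiable (by simp) _).hasDerivAt
  have d2 : HasDerivAt (fun s : ℝ => n * s - 1) n s := by
    simpa using ((hasDerivAt_id s).const_mul (n : ℝ)).sub_const 1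
  have := (hasDerivAt_id s).mul (d1.comp s d2)
  refine HasDerivAt.congr_deriv this ?_
  simp [Tn']

lemma ST_deriv_zero {s : ℝ} (h : 1 < s) : deriv smoothTransition s = 0 := by
  have : smoothTransition =ᶠ[𝓝 s] fun _ => 1 := by
    filter_upwards [Ioi_mem_nhds h] with t ht
    exact smoothTransition.one_of_one_le (le_of_lt ht)
  rw [this.deriv_eq, deriv_const]

lemma Tn_ev {s : ℝ} (hs : 0 < s) : ∀ᶠ n : ℕ in atTop, Tn n s = s ∧ Tn' n s = 1 := by
  filter_upwards [(tendsto_natCast_atTop_atTop (R := ℝ)).eventually_gt_atTop (2 / s)] with n hn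
  rw [div_lt_iff₀ hs] at hn
  have h1 : 1 < n * s - 1 := by linarith
  simp [Tn, Tn', smoothTransition.one_of_one_le h1.le, ST_deriv_zero h1]

lemma Tn'_bound : ∃ C, ∀ n s, 0 < s → |Tn' n s - 1| ≤ C := by
  obtain ⟨C, hC, h⟩ := ST_bound
  refine ⟨1 + 2 * C, fun n s hs => ?_⟩
  have h1 : |smoothTransition (n * s - 1) - 1| ≤ 1 := by
    rw [abs_le]
    constructor <;> linarith [smoothTransition.nonneg (n * s - 1),
      smoothTransition.le_one (n * s - 1)]
  have h2 : |s * (deriv smoothTransition (n * s - 1) * n)| ≤ 2 * C := by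
    by_cases hc : 1 < n * s - 1
    · rw [ST_deriv_zero hc]
      simp [hC.le]
    · have e : s * (deriv smoothTransition (n * s - 1) * n) =
        (n * s) * deriv smoothTransition (n * s - 1) := by ring
      rw [e, abs_mul, abs_of_nonneg (by positivity)]
      exact mul_le_mul (by linarith) (h _) (abs_nonneg _) (by norm_num)
  unfold Tn'
  rw [add_sub_right_comm]
  exact (abs_add_le _ _).trans (add_le_add h1 h2)

lemma memLp_ind {X : Type*} [NormedAddCommGroup X] {F : E3 → X} (h : Continuous F) :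
    MemLp ((Box lo d).indicator F) 2 volume := by
  rw [memLp_indicator_iff_restrict (Box_meas lo d)]
  obtain ⟨C, hC⟩ := (CBox_compact lo d).exists_bound_of_continuousOn h.continuousOn
  apply MemLp.of_bound h.aestronglyMeasurable C
  filter_upwards [ae_restrict_mem (Box_meas lo d)] with x hx
  exact hC x (Box_sub lo d hx)

theorem exists_phi (hd : ∀ i, 0 < d i) : ∃ U ∈ VV (Box lo d),
    Rep U ((Box lo d).indicator (Ph lo d)) ((Box lo d).indicator (gradient (Ph lo d))) := by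
  obtain ⟨U, hU⟩ := exists_rep (memLp_ind (lo := lo) (d := d) (Ph_cd lo d).continuous)
    (memLp_ind (lo := lo) (d := d) (grad_cont (Ph_cd lo d)))
  refine ⟨U, ?_, hU⟩
  set ψ : ℕ → E3 → ℝ := fun n => (Box lo d).indicator (fun x => Tn n (Ph lo d x)) with hψ
  set K : ℕ → Set E3 := fun n => CBox lo d ∩ {x | 1 ≤ n * Ph lo d x} with hK
  have Kc : ∀ n, IsCompact (K n) := fun n => (CBox_compact lo d).inter_right
    (isClosed_le continuous_const (continuous_const.mul (Ph_cd lo d).continuous))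
  have Ks : ∀ n, K n ⊆ Box lo d := by
    intro n x hx
    by_contra hn
    have := hx.2
    rw [mem_ofPred_eq, Ph_face hd hx.1 hn, mul_zero] at this
    norm_num at this
  have ψ0 : ∀ n, ∀ x ∉ K n, ψ n x = 0 := by
    intro n x hx
    by_cases hb : x ∈ Box lo d
    · simp only [hψ, indicator_of_mem hb, Tn]
      rw [smoothTransition.zero_of_nonpos, mul_zero]
      by_contra hc
      exact hx ⟨Box_sub lo d hb, by simp only [mem_ofPred_eq]; linarith⟩
    · simp only [hψ, indicator_of_notMem hb]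
  have ψe : ∀ n, ∀ x ∈ Box lo d, ψ n =ᶠ[𝓝 x] fun x => Tn n (Ph lo d x) := by
    intro n x hx
    filter_upwards [(Box_open lo d).mem_nhds hx] with y hy
    simp only [hψ, indicator_of_mem hy]
  have ψs : ∀ n, tsupport (ψ n) ⊆ K n := fun n =>
    closure_minimal (fun x hx => by_contra fun hn => hx (ψ0 n x hn)) (Kc n).isClosed
  have ψT : ∀ n, Tst (ψ n) := by
    intro n
    refine ⟨contDiff_iff_contDiffAt.2 fun x => ?_, HasCompactSupport.intro (Kc n) (ψ0 n)⟩
    by_cases hb : x ∈ Box lo d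
    · exact (((Tn_cd n).comp (Ph_cd lo d)).contDiffAt).congr_of_eventuallyEq (ψe n x hb)
    · have : x ∉ tsupport (ψ n) := fun h => hb (Ks n (ψs n h))
      exact contDiffAt_const.congr_of_eventuallyEq (notMem_tsupport_iff_eventuallyEq.1 this)
  have ψg : ∀ n x, gradient (ψ n) x =
      (Box lo d).indicator (fun x => Tn' n (Ph lo d x) • gradient (Ph lo d) x) x := by
    intro n x
    by_cases hb : x ∈ Box lo d
    · have hD : HasFDerivAt (fun x => Tn n (Ph lo d x))
          (Tn' n (Ph lo d x) • fderiv ℝ (Ph lo d) x) x :=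
        (Tn_deriv n _).comp_hasFDerivAt x (dif (Ph_cd lo d) x).hasFDerivAt
      rw [indicator_of_mem hb, (ψe n x hb).gradient_eq, grad_of_hasF hD, map_smul]
      rfl
    · rw [indicator_of_notMem hb, grad_zero_of_notMem fun h => hb (Ks n (ψs n h))]
  choose Un hUn using fun n => (ψT n).exists_rep
  have hmem : ∀ n, Un n ∈ (JT (Box lo d) : Set HS) := fun n =>
    ⟨ψ n, ψT n, (ψs n).trans (Ks n), hUn n⟩
  refine mem_closure_of_tendsto (f := Un) (b := atTop) ?_ (Eventually.of_forall hmem)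
  rw [tendsto_iff_norm_sub_tendsto_zero]
  have hsq : Tendsto (fun n => ‖Un n - U‖ ^ 2) atTop (𝓝 0) := by
    have e1 : ∀ n, ‖q1 (Un n - U)‖ ^ 2 = ∫ x in Box lo d, (Tn n (Ph lo d x) - Ph lo d x) ^ 2 := by
      intro n
      rw [((hUn n).sub hU).norm1, ← integral_indicator (Box_meas lo d)]
      apply integral_congr_ae (ae_of_all _ fun x => ?_)
      by_cases hb : x ∈ Box lo d <;> simp [hψ, hb]
    have e2 : ∀ n, ‖q2 (Un n - U)‖ ^ 2 =
        ∫ x in Box lo d, (Tn' n (Ph lo d x) - 1) ^ 2 * ‖gradient (Ph lo d) x‖ ^ 2 := by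
      intro n
      rw [((hUn n).sub hU).norm2, ← integral_indicator (Box_meas lo d)]
      apply integral_congr_ae (ae_of_all _ fun x => ?_)
      simp only [ψg]
      by_cases hb : x ∈ Box lo d
      · simp only [indicator_of_mem hb]
        have : Tn' n (Ph lo d x) • gradient (Ph lo d) x - gradient (Ph lo d) x =
            (Tn' n (Ph lo d x) - 1) • gradient (Ph lo d) x := by rw [sub_smul, one_smul]
        rw [this, norm_smul, mul_pow, Real.norm_eq_abs, sq_abs]
      · simp [hb]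
    simp_rw [HS_norm, e1, e2]
    have cP := (Ph_cd lo d).continuous
    have cG := grad_cont (Ph_cd lo d)
    have l1 : Tendsto (fun n => ∫ x in Box lo d, (Tn n (Ph lo d x) - Ph lo d x) ^ 2) atTop
        (𝓝 (∫ _x in Box lo d, (0 : ℝ))) := by
      apply tendsto_integral_of_dominated_convergence (fun x => Ph lo d x ^ 2)
      · intro n
        exact ((((Tn_cd n).continuous.comp cP).sub cP).pow 2).aestronglyMeasurable
      · exact intOn_Box lo d (cP.pow 2)
      · intro n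
        refine ae_of_all _ fun x => ?_
        rw [Real.norm_eq_abs, abs_of_nonneg (sq_nonneg _)]
        have h1 := smoothTransition.nonneg (n * Ph lo d x - 1)
        have h2 := smoothTransition.le_one (n * Ph lo d x - 1)
        have : (Tn n (Ph lo d x) - Ph lo d x) ^ 2 =
            Ph lo d x ^ 2 * (1 - smoothTransition (n * Ph lo d x - 1)) ^ 2 := by
          unfold Tn
          ring
        rw [this]
        exact mul_le_of_le_one_right (sq_nonneg _) (pow_le_one₀ (by linarith) (by linarith))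
      · filter_upwards [ae_restrict_mem (Box_meas lo d)] with x hx
        apply tendsto_const_nhds.congr'
        filter_upwards [Tn_ev (Ph_pos hd hx)] with n hn
        simp [hn.1]
    obtain ⟨C, hC⟩ := Tn'_bound
    have l2 : Tendsto (fun n => ∫ x in Box lo d, (Tn' n (Ph lo d x) - 1) ^ 2 *
        ‖gradient (Ph lo d) x‖ ^ 2) atTop (𝓝 (∫ _x in Box lo d, (0 : ℝ))) := by
      apply tendsto_integral_of_dominated_convergence (fun x => C ^ 2 * ‖gradient (Ph lo d) x‖ ^ 2)
      · intro n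
        have : Continuous (Tn' n) := by
          have := (Tn_cd n).continuous_deriv (by simp)
          rwa [show deriv (Tn n) = Tn' n from funext fun s => (Tn_deriv n s).deriv] at this
        exact ((((this.comp cP).sub continuous_const).pow 2).mul
          (cG.norm.pow 2)).aestronglyMeasurable
      · exact intOn_Box lo d (continuous_const.mul (cG.norm.pow 2))
      · intro n
        filter_upwards [ae_restrict_mem (Box_meas lo d)] with x hx
        rw [Real.norm_eq_abs, abs_of_nonneg (by positivity)]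
        apply mul_le_mul_of_nonneg_right _ (sq_nonneg _)
        rw [← sq_abs]
        exact pow_le_pow_left₀ (abs_nonneg _) (hC n _ (Ph_pos hd hx)) 2
      · filter_upwards [ae_restrict_mem (Box_meas lo d)] with x hx
        apply tendsto_const_nhds.congr'
        filter_upwards [Tn_ev (Ph_pos hd hx)] with n hn
        simp [hn.2]
    simpa using l1.add l2
  have := hsq.sqrt
  simpa using this

lemma phi_inner1 {φ U : HS} {f : E3 → ℝ} {G : E3 → E3}
    (hφ : Rep φ ((Box lo d).indicator (Ph lo d)) ((Box lo d).indicator (gradient (Ph lo d))))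
    (hU : Rep U f G) : ⟪q1 φ, q1 U⟫_ℝ = ∫ x in Box lo d, Ph lo d x * f x := by
  rw [hφ.inner1 hU, ← integral_indicator (Box_meas lo d)]
  apply integral_congr_ae (ae_of_all _ fun x => ?_)
  by_cases hb : x ∈ Box lo d <;> simp [hb]

lemma phi_inner2 {φ U : HS} {f : E3 → ℝ} {G : E3 → E3}
    (hφ : Rep φ ((Box lo d).indicator (Ph lo d)) ((Box lo d).indicator (gradient (Ph lo d))))
    (hU : Rep U f G) : ⟪q2 φ, q2 U⟫_ℝ = ∫ x in Box lo d, ⟪gradient (Ph lo d) x, G x⟫_ℝ := by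
  rw [hφ.inner2 hU, ← integral_indicator (Box_meas lo d)]
  apply integral_congr_ae (ae_of_all _ fun x => ?_)
  by_cases hb : x ∈ Box lo d <;> simp [hb]

theorem phi_ell (hd : ∀ i, 0 < d i) {φ U : HS} {f : E3 → ℝ}
    (hφ : Rep φ ((Box lo d).indicator (Ph lo d)) ((Box lo d).indicator (gradient (Ph lo d))))
    (hU : Rep U f (gradient f)) (hf : ContDiff ℝ (⊤ : ℕ∞) f)
    (h0 : ∀ x ∈ CBox lo d, (x 0 = lo 0 ∨ x 0 = lo 0 + d 0 ∨ x 1 = lo 1 ∨ x 1 = lo 1 + d 1) →
      f x = 0) :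
    ell q1 q2 (∑ i, (π / d i) ^ 2) φ U = -(∫ y in Foot lo d, wt lo d y * f (tr (lo 2 + d 2) y)) -
        ∫ y in Foot lo d, wt lo d y * f (tr (lo 2) y) := by
  rw [ell_apply, phi_inner1 hφ hU, phi_inner2 hφ hU, Box_div hd hf h0]

end Pool.Agent.H771Z.DM
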