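import Mathlib
import Pool.Agent.H771Z.DM.Cell

set_option autoImplicit false

/-! The domain: two layers of long boxes joined by small windows. -/

open MeasureTheory Set Filter Topology Real
open scoped InnerProductSpace

namespace Pool.Agent.H771Z.DM

variable {m : ℕ}

/-- position of a lower box -/
noncomputable def np (p : PP m) : ℕ := Fintype.equivFin (PP m) p

lemma np_lt (p : PP m) : np p < Fintype.card (PP m) := (Fintype.equivFin (PP m) p).2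

lemma np_inj {p q : PP m} (h : np p = np q) : p = q :=
  (Fintype.equivFin (PP m)).injective (Fin.ext h)

/-- length of the boxes -/
noncomputable def Lg (m : ℕ) : ℝ := 4 * (m + Fintype.card (PP m)) + 4

/-- corners -/
noncomputable def clo : KK m → Fin 3 → ℝ
  | Sum.inl i => ![0, 4 * (i : ℕ), 0]
  | Sum.inr p => ![4 * np p, 0, -3]

/-- sides -/
noncomputable def cdd : KK m → Fin 3 → ℝ
  | Sum.inl _ => ![Lg m, 3, 3]
  | Sum.inr _ => ![3, Lg m, 3]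

/-- the cells -/
def cell (j : KK m) : Set E3 := Box (clo j) (cdd j)

/-- first coordinate of a window -/
noncomputable def XN (w : WW m) : ℕ := 4 * np w.1 + 1 + if w.2 then 1 else 0

/-- second coordinate of a window -/
noncomputable def YY (w : WW m) : ℝ := 4 * (en w : ℕ) + 1

/-- the windows -/
def win (e : ℝ) (w : WW m) (t : ℝ) : Set E3 :=
  {x | |x 0 - XN w| < e ∧ YY w < x 1 ∧ x 1 < YY w + t ∧ |x 2| < 1}

/-- the domain -/
def Om (e : ℝ) (s : WW m → ℝ) : Set E3 := (⋃ j : KK m, cell j) ∪ ⋃ w, win e w (s w)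

lemma Lg_ge : 4 ≤ Lg m := by
  unfold Lg
  have : (0 : ℝ) ≤ m + Fintype.card (PP m) := by positivity
  linarith

lemma Lg_A (i : Fin m) : 4 * ((i : ℕ) : ℝ) + 4 ≤ Lg m := by
  unfold Lg
  have h1 : ((i : ℕ) : ℝ) ≤ m := by exact_mod_cast i.2.le
  have : (0 : ℝ) ≤ Fintype.card (PP m) := by positivity
  linarith

lemma Lg_B (p : PP m) : 4 * (np p : ℝ) + 4 ≤ Lg m := by
  unfold Lg
  have h1 : (np p : ℝ) ≤ Fintype.card (PP m) := by exact_mod_cast (np_lt p).le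
  have : (0 : ℝ) ≤ m := by positivity
  linarith

lemma cdd_pos (j : KK m) (i : Fin 3) : 0 < cdd j i := by
  have := Lg_ge (m := m)
  rcases j with j | j <;> fin_cases i <;> simp [cdd] <;> linarith

lemma cdd_le (j : KK m) (i : Fin 3) : cdd j i ≤ Lg m := by
  have := Lg_ge (m := m)
  rcases j with j | j <;> fin_cases i <;> simp [cdd] <;> linarith

lemma mem_A {i : Fin m} {x : E3} : x ∈ cell (Sum.inl i : KK m) ↔ (0 < x 0 ∧ x 0 < Lg m) ∧
    (4 * ((i : ℕ) : ℝ) < x 1 ∧ x 1 < 4 * (i : ℕ) + 3) ∧ (0 < x 2 ∧ x 2 < 3) := by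
  simp [cell, Box, clo, cdd, Fin.forall_fin_succ]

lemma mem_B {p : PP m} {x : E3} : x ∈ cell (Sum.inr p : KK m) ↔
    (4 * (np p : ℝ) < x 0 ∧ x 0 < 4 * np p + 3) ∧ (0 < x 1 ∧ x 1 < Lg m) ∧
      (-3 < x 2 ∧ x 2 < 0) := by
  simp [cell, Box, clo, cdd, Fin.forall_fin_succ]

lemma mem_CA {i : Fin m} {x : E3} : x ∈ CBox (clo (Sum.inl i : KK m)) (cdd (Sum.inl i : KK m)) ↔
    (0 ≤ x 0 ∧ x 0 ≤ Lg m) ∧ (4 * ((i : ℕ) : ℝ) ≤ x 1 ∧ x 1 ≤ 4 * (i : ℕ) + 3) ∧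
      (0 ≤ x 2 ∧ x 2 ≤ 3) := by
  simp [CBox, clo, cdd, Fin.forall_fin_succ]

lemma mem_CB {p : PP m} {x : E3} : x ∈ CBox (clo (Sum.inr p : KK m)) (cdd (Sum.inr p : KK m)) ↔
    (4 * (np p : ℝ) ≤ x 0 ∧ x 0 ≤ 4 * np p + 3) ∧ (0 ≤ x 1 ∧ x 1 ≤ Lg m) ∧
      (-3 ≤ x 2 ∧ x 2 ≤ 0) := by
  simp [CBox, clo, cdd, Fin.forall_fin_succ]

lemma nat_eq {a b : ℕ} (h1 : (a : ℝ) < b + 1) (h2 : (b : ℝ) < a + 1) : a = b := by
  have h1' : a < b + 1 := by exact_mod_cast h1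
  have h2' : b < a + 1 := by exact_mod_cast h2
  omega

lemma XN_bd (w : WW m) : 4 * (np w.1 : ℝ) + 1 ≤ XN w ∧ (XN w : ℝ) ≤ 4 * np w.1 + 2 := by
  unfold XN
  split_ifs <;> push_cast <;> constructor <;> linarith

lemma XN_inj {w w' : WW m} (h : |(XN w : ℝ) - XN w'| < 1) : w = w' := by
  rw [abs_lt] at h
  have := nat_eq (a := XN w) (b := XN w') (by linarith) (by linarith)
  obtain ⟨p, b⟩ := w
  obtain ⟨p', b'⟩ := w'
  unfold XN at this
  cases b <;> cases b' <;> simp at this ⊢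
  · exact np_inj this
  · omega
  · omega
  · exact np_inj this

lemma cell_disj {j j' : KK m} {x : E3} (h : x ∈ CBox (clo j) (cdd j)) (h' : x ∈ cell j') :
    j = j' := by
  rcases j with i | p <;> rcases j' with i' | p'
  · rw [mem_CA] at h
    rw [mem_A] at h'
    rw [Fin.ext (nat_eq (a := i) (b := i') (by linarith [h.2.1.1, h'.2.1.2])
      (by linarith [h.2.1.2, h'.2.1.1]))]
  · rw [mem_CA] at h
    rw [mem_B] at h'
    linarith [h.2.2.1, h'.2.2.2]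
  · rw [mem_CB] at h
    rw [mem_A] at h'
    linarith [h.2.2.2, h'.2.2.1]
  · rw [mem_CB] at h
    rw [mem_B] at h'
    rw [np_inj (nat_eq (a := np p) (b := np p') (by linarith [h.1.1, h'.1.2])
      (by linarith [h.1.2, h'.1.1]))]

lemma cell_open (j : KK m) : IsOpen (cell j) := Box_open _ _

lemma win_box (e : ℝ) (w : WW m) (t : ℝ) :
    win e w t = Box ![XN w - e, YY w, -1] ![2 * e, t, 2] := by
  ext x
  simp only [win, Box, mem_ofPred_eq, Fin.forall_fin_succ, abs_lt]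
  simp
  constructor
  · rintro ⟨⟨h1, h2⟩, h3, h4, h5, h6⟩
    exact ⟨⟨by linarith, by linarith⟩, ⟨h3, h4⟩, h5, by linarith⟩
  · rintro ⟨⟨h1, h2⟩, ⟨h3, h4⟩, h5, h6⟩
    exact ⟨⟨by linarith, by linarith⟩, h3, h4, h5, by linarith⟩

lemma Om_open (e : ℝ) (s : WW m → ℝ) : IsOpen (Om e s) :=
  (isOpen_iUnion cell_open).union (isOpen_iUnion fun w => by
    rw [win_box]
    exact Box_open _ _)

lemma Om_mono (e : ℝ) {s s' : WW m → ℝ} (h : s ≤ s') : Om e s ⊆ Om e s' := by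
  apply union_subset_union_right
  apply iUnion_mono
  intro w x hx
  exact ⟨hx.1, hx.2.1, by linarith [hx.2.2.1, h w], hx.2.2.2⟩

lemma cell_sub (e : ℝ) (s : WW m → ℝ) (j : KK m) : cell j ⊆ Om e s :=
  (subset_iUnion _ j).trans subset_union_left

lemma win_sub (e : ℝ) (s : WW m → ℝ) (w : WW m) : win e w (s w) ⊆ Om e s :=
  (subset_iUnion (fun w => win e w (s w)) w).trans subset_union_right

lemma win_bd {e t : ℝ} {w : WW m} (he : e ≤ 1 / 4) (ht : t ≤ 1) {x : E3} (hx : x ∈ win e w t) :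
    (4 * (np w.1 : ℝ) < x 0 ∧ x 0 < 4 * np w.1 + 3) ∧
      (4 * ((en w : ℕ) : ℝ) < x 1 ∧ x 1 < 4 * (en w : ℕ) + 3) := by
  obtain ⟨h1, h2, h3, -⟩ := hx
  rw [abs_lt] at h1
  have := XN_bd w
  unfold YY at h2 h3
  exact ⟨⟨by linarith, by linarith⟩, by linarith, by linarith⟩

lemma win_A {e t : ℝ} {w : WW m} (he : e ≤ 1 / 4) (ht : t ≤ 1) {x : E3} (hx : x ∈ win e w t)
    (h : 0 < x 2) : x ∈ cell (Sum.inl (en w) : KK m) := by
  have h1 := win_bd he ht hx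
  have h2 := abs_lt.1 hx.2.2.2
  have h3 := Lg_B w.1
  have h4 : (0 : ℝ) ≤ np w.1 := by positivity
  rw [mem_A]
  exact ⟨⟨by linarith, by linarith⟩, h1.2, h, by linarith⟩

lemma win_B {e t : ℝ} {w : WW m} (he : e ≤ 1 / 4) (ht : t ≤ 1) {x : E3} (hx : x ∈ win e w t)
    (h : x 2 < 0) : x ∈ cell (Sum.inr w.1 : KK m) := by
  have h1 := win_bd he ht hx
  have h2 := abs_lt.1 hx.2.2.2
  have h3 := Lg_A (en w)
  have h4 : (0 : ℝ) ≤ (en w : ℕ) := by positivity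
  rw [mem_B]
  exact ⟨h1.1, ⟨by linarith, by linarith⟩, by linarith, h⟩

lemma mem_Om {e : ℝ} {s : WW m → ℝ} (he : e ≤ 1 / 4) (hs : ∀ w, s w ≤ 1) {x : E3}
    (hx : x ∈ Om e s) : (∃ j : KK m, x ∈ cell j) ∨ (x 2 = 0 ∧ ∃ w, x ∈ win e w (s w)) := by
  rcases hx with hx | hx
  · exact Or.inl (mem_iUnion.1 hx)
  · obtain ⟨w, hw⟩ := mem_iUnion.1 hx
    rcases lt_trichotomy (x 2) 0 with h | h | h
    · exact Or.inl ⟨_, win_B he (hs w) hw h⟩
    · exact Or.inr ⟨h, w, hw⟩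
    · exact Or.inl ⟨_, win_A he (hs w) hw h⟩

lemma Om_bd {e : ℝ} {s : WW m → ℝ} (he : e ≤ 1 / 4) (hs : ∀ w, s w ≤ 1) {x : E3}
    (hx : x ∈ Om e s) (l : Fin 3) : |x l| ≤ Lg m := by
  have h0 := Lg_ge (m := m)
  have : |x 0| ≤ Lg m ∧ |x 1| ≤ Lg m ∧ |x 2| ≤ Lg m := by
    simp only [abs_le]
    rcases mem_Om he hs hx with ⟨i | p, h⟩ | ⟨h, w, hw⟩
    · rw [mem_A] at h
      have h3 := Lg_A i
      have h4 : (0 : ℝ) ≤ (i : ℕ) := by positivity
      obtain ⟨⟨a1, a2⟩, ⟨a3, a4⟩, a5, a6⟩ := h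
      exact ⟨⟨by linarith, by linarith⟩, ⟨by linarith, by linarith⟩, by linarith, by linarith⟩
    · rw [mem_B] at h
      have h3 := Lg_B p
      have h4 : (0 : ℝ) ≤ np p := by positivity
      obtain ⟨⟨a1, a2⟩, ⟨a3, a4⟩, a5, a6⟩ := h
      exact ⟨⟨by linarith, by linarith⟩, ⟨by linarith, by linarith⟩, by linarith, by linarith⟩
    · obtain ⟨⟨a1, a2⟩, a3, a4⟩ := win_bd he (hs w) hw
      have h3 := Lg_B w.1
      have h4 : (0 : ℝ) ≤ np w.1 := by positivity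
      have h5 := Lg_A (en w)
      have h6 : (0 : ℝ) ≤ (en w : ℕ) := by positivity
      exact ⟨⟨by linarith, by linarith⟩, ⟨by linarith, by linarith⟩, by linarith, by linarith⟩
  fin_cases l
  · exact this.1
  · exact this.2.1
  · exact this.2.2

lemma win_adj {e t : ℝ} {w : WW m} (he : e ≤ 1 / 4) (ht : t ≤ 1) {x : E3} (hx : x ∈ win e w t)
    {j : KK m} (hj : x ∈ CBox (clo j) (cdd j)) : j = Sum.inl (en w) ∨ j = Sum.inr w.1 := by
  obtain ⟨⟨a1, a2⟩, a3, a4⟩ := win_bd he ht hx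
  rcases j with i | p
  · rw [mem_CA] at hj
    left
    rw [Fin.ext (nat_eq (a := i) (b := en w) (by linarith [hj.2.1.1]) (by linarith [hj.2.1.2]))]
  · rw [mem_CB] at hj
    right
    rw [np_inj (nat_eq (a := np p) (b := np w.1) (by linarith [hj.1.1]) (by linarith [hj.1.2]))]

lemma Om_face {e : ℝ} {s : WW m → ℝ} (he : e ≤ 1 / 4) (hs : ∀ w, s w ≤ 1) {x : E3}
    (hx : x ∈ Om e s) {j : KK m} (hj : x ∈ CBox (clo j) (cdd j)) (hn : x ∉ cell j) :
    x 2 = 0 ∧ ∃ w, x ∈ win e w (s w) := by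
  rcases mem_Om he hs hx with ⟨j', h⟩ | h
  · exact absurd (cell_disj hj h ▸ h) hn
  · exact h

lemma win_lat {e t : ℝ} {w : WW m} (he : e ≤ 1 / 4) (ht : t ≤ 1) {x : E3} (hx : x ∈ win e w t)
    {j : KK m} (hj : j = Sum.inl (en w) ∨ j = Sum.inr w.1) :
    (clo j 0 < x 0 ∧ x 0 < clo j 0 + cdd j 0) ∧ (clo j 1 < x 1 ∧ x 1 < clo j 1 + cdd j 1) := by
  obtain ⟨⟨a1, a2⟩, a3, a4⟩ := win_bd he ht hx
  have h3 := Lg_B w.1
  have h4 : (0 : ℝ) ≤ np w.1 := by positivity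
  have h5 := Lg_A (en w)
  have h6 : (0 : ℝ) ≤ (en w : ℕ) := by positivity
  rcases hj with rfl | rfl <;> simp [clo, cdd] <;>
    exact ⟨⟨by linarith, by linarith⟩, by linarith, by linarith⟩

lemma Om_conn {e : ℝ} {s : WW m → ℝ} (hm : 0 < m) (he0 : 0 < e) (he : e ≤ 1 / 4)
    (hs : ∀ w, s w ≤ 1) (h1 : ∀ p, 0 < s (p, false))
    (h2 : ∀ p : PP m, p.1.1 ≠ p.1.2 → 0 < s (p, true)) : IsConnected (Om e s) := by
  set i0 : Fin m := ⟨0, hm⟩ with hi0
  have h0 := Lg_ge (m := m)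
  obtain ⟨a, ha⟩ : ∃ a, a ∈ cell (Sum.inl i0 : KK m) :=
    ⟨WithLp.toLp 2 ![1, 1, 1], by rw [mem_A]; simp [hi0]; linarith⟩
  set C := connectedComponentIn (Om e s) a with hC
  have key : ∀ P : Set E3, Convex ℝ P → P ⊆ Om e s → ∀ x ∈ P, x ∈ C → P ⊆ C := by
    intro P hP hs x hx hxC
    rw [hC, connectedComponentIn_eq hxC]
    exact hP.isPreconnected.subset_connectedComponentIn hx hs
  have kc : ∀ j : KK m, ∀ x ∈ cell j, x ∈ C → cell j ⊆ C := fun j =>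
    key _ (Box_convex _ _) (cell_sub e s j)
  have kw : ∀ w, ∀ x ∈ win e w (s w), x ∈ C → win e w (s w) ⊆ C := fun w =>
    key _ (by rw [win_box]; exact Box_convex _ _) (win_sub e s w)
  have pu : ∀ w, 0 < s w → ∃ x ∈ win e w (s w), x ∈ cell (Sum.inl (en w) : KK m) := by
    intro w hw
    have : (WithLp.toLp 2 ![(XN w : ℝ), YY w + s w / 2, 1 / 2] : E3) ∈ win e w (s w) := by
      simp [win, he0, hw]
      norm_num [abs_lt]
    exact ⟨_, this, win_A he (hs w) this (by simp)⟩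
  have pd : ∀ w, 0 < s w → ∃ x ∈ win e w (s w), x ∈ cell (Sum.inr w.1 : KK m) := by
    intro w hw
    have : (WithLp.toLp 2 ![(XN w : ℝ), YY w + s w / 2, -(1 / 2)] : E3) ∈ win e w (s w) := by
      simp [win, he0, hw]
      norm_num [abs_lt]
    exact ⟨_, this, win_B he (hs w) this (by simp)⟩
  have ud : ∀ w, 0 < s w → cell (Sum.inl (en w) : KK m) ⊆ C → cell (Sum.inr w.1 : KK m) ⊆ C := by
    intro w hw h
    obtain ⟨x, hx, hx'⟩ := pu w hw
    obtain ⟨y, hy, hy'⟩ := pd w hw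
    exact kc _ y hy' (kw w x hx (h hx') hy)
  have du : ∀ w, 0 < s w → cell (Sum.inr w.1 : KK m) ⊆ C → cell (Sum.inl (en w) : KK m) ⊆ C := by
    intro w hw h
    obtain ⟨x, hx, hx'⟩ := pu w hw
    obtain ⟨y, hy, hy'⟩ := pd w hw
    exact kc _ x hx' (kw w y hy (h hy') hx)
  have c0 : cell (Sum.inl i0 : KK m) ⊆ C :=
    kc _ a ha (mem_connectedComponentIn (cell_sub e s _ ha))
  have cA : ∀ i, cell (Sum.inl i : KK m) ⊆ C := by
    intro i
    by_cases h : i0 = i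
    · exact h ▸ c0
    · set p : PP m := ⟨(i0, i), Nat.zero_le _⟩ with hp
      exact du (p, true) (h2 p h) (ud (p, false) (h1 p) c0)
  have cB : ∀ p, cell (Sum.inr p : KK m) ⊆ C := fun p => ud (p, false) (h1 p) (cA _)
  have e1 : Om e s = C := by
    refine Subset.antisymm ?_ (connectedComponentIn_subset _ _)
    rintro x (hx | hx)
    · obtain ⟨i | p, h⟩ := mem_iUnion.1 hx
      · exact cA i h
      · exact cB p h
    · obtain ⟨w, h⟩ := mem_iUnion.1 hx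
      obtain ⟨y, hy, hy'⟩ := pu w (by linarith [h.2.1, h.2.2.1])
      exact kw w y hy (cA _ hy') h
  rw [e1]
  exact isConnected_connectedComponentIn_iff.2 (cell_sub e s _ ha)

lemma Om_bounded {e : ℝ} {s : WW m → ℝ} (he : e ≤ 1 / 4) (hs : ∀ w, s w ≤ 1) :
    Bornology.IsBounded (Om e s) := by
  refine (CBox_compact (fun _ => -Lg m) (fun _ => 2 * Lg m)).isBounded.subset fun x hx l => ?_
  have := abs_le.1 (Om_bd he hs hx l)
  exact ⟨this.1, by linarith [this.2]⟩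

end Pool.Agent.H771Z.DM
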