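import Mathlib
import Pool.Agent.H771Z.DM.Geo1

set_option autoImplicit false

/-! The residual functionals of the cell eigenfunctions, and the gap of the disjoint union. -/

open MeasureTheory Set Filter Topology Real
open scoped InnerProductSpace

namespace Pool.Agent.H771Z.DM

variable {m : ℕ}

/-- the common first eigenvalue of the cells -/
noncomputable def lamm (m : ℕ) : ℝ := (π / Lg m) ^ 2 + 2 * (π / 3) ^ 2

/-- the gap -/
noncomputable def gam (m : ℕ) : ℝ := 5 / 4 * (π / Lg m) ^ 2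

lemma lam_eq (j : KK m) : ∑ i, (π / cdd j i) ^ 2 = lamm m := by
  rcases j with j | j <;> simp [cdd, lamm, Fin.sum_univ_three] <;> ring

lemma lamm_pos : 0 < lamm m := by
  unfold lamm
  have := pi_pos
  positivity

lemma gam_pos : 0 < gam m := by
  unfold gam
  have := pi_pos
  have := Lg_ge (m := m)
  positivity

lemma gam_le (j : KK m) (i : Fin 3) : gam m ≤ 5 / 4 * (π / cdd j i) ^ 2 := by
  unfold gam
  have := pi_pos
  have := Lg_ge (m := m)
  have := cdd_pos j i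
  gcongr
  exact cdd_le j i

/-- `φ` represents the first eigenfunction of the cell -/
def IsPhi (j : KK m) (φ : HS) : Prop :=
  Rep φ ((cell j).indicator (Ph (clo j) (cdd j)))
    ((cell j).indicator (gradient (Ph (clo j) (cdd j))))

/-- weights -/
noncomputable def wj (j : KK m) : (Fin 2 → ℝ) → ℝ := wt (clo j) (cdd j)

lemma in_of_ne {f : E3 → ℝ} {Ω : Set E3} (h : tsupport f ⊆ Ω) {x : E3} (hx : f x ≠ 0) : x ∈ Ω :=
  h (subset_tsupport f hx)

lemma ortho_phi {φ : KK m → HS} (hφ : ∀ j, IsPhi j (φ j)) (i j : KK m) :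
    ⟪q1 (φ i), q1 (φ j)⟫_ℝ = if i = j then 1 else 0 := by
  rw [phi_inner1 (hφ i) (hφ j)]
  split_ifs with h
  · subst h
    rw [← Ph_norm (lo := clo i) (cdd_pos i)]
    apply setIntegral_congr_fun (Box_meas _ _)
    intro x hx
    simp only
    rw [indicator_of_mem (s := cell i) hx, pow_two]
  · apply setIntegral_eq_zero_of_forall_eq_zero
    intro x hx
    rw [indicator_of_notMem, mul_zero]
    exact fun hx' => h (cell_disj (Box_sub _ _ hx) hx')

lemma tr_mem {lo d : Fin 3 → ℝ} {y : Fin 2 → ℝ} (hy : y ∈ Foot lo d) {c : ℝ} (h1 : lo 2 ≤ c)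
    (h2 : c ≤ lo 2 + d 2) : tr c y ∈ CBox lo d := by
  intro i
  fin_cases i
  · exact hy.1
  · exact hy.2
  · exact ⟨h1, h2⟩

lemma cell_ne {j : KK m} {x : E3} (hx : x ∈ cell j) : x 2 ≠ 0 := by
  rcases j with j | j
  · exact (mem_A.1 hx).2.2.1.ne'
  · exact (mem_B.1 hx).2.2.2.ne

lemma clo_zero (j : KK m) : clo j 2 ≤ 0 ∧ 0 ≤ clo j 2 + cdd j 2 := by
  rcases j with j | j <;> simp [clo, cdd]

section
variable {e : ℝ} {s : WW m → ℝ} (he : e ≤ 1 / 4)
include he

lemma ell_foot (hs : ∀ w, s w ≤ 1) {j : KK m} {φ U : HS} {f : E3 → ℝ} (hφ : IsPhi j φ)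
    (hf : Tst f) (hsup : tsupport f ⊆ Om e s) (hU : Rep U f (gradient f)) :
    ell q1 q2 (lamm m) φ U = -∫ y in Foot (clo j) (cdd j), wj j y * f (tr 0 y) := by
  rw [← lam_eq j, phi_ell (cdd_pos j) hφ hU hf.cd]
  · have z : ∀ c, c ≠ 0 → (c = clo j 2 ∨ c = clo j 2 + cdd j 2) →
        ∫ y in Foot (clo j) (cdd j), wt (clo j) (cdd j) y * f (tr c y) = 0 := by
      intro c hc hc'
      apply setIntegral_eq_zero_of_forall_eq_zero
      intro y hy
      have hp := cdd_pos j 2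
      by_contra hne
      refine hc (Om_face he hs (in_of_ne hsup (right_ne_zero_of_mul hne))
        (tr_mem hy (by rcases hc' with h | h <;> linarith) (by rcases hc' with h | h <;> linarith))
        fun hx => ?_).1
      have := hx 2
      rw [tr2] at this
      rcases hc' with h | h <;> linarith [this.1, this.2]
    rcases j with j | j
    · rw [z _ (by simp [clo, cdd]) (Or.inr rfl)]
      simp [clo, wj]
    · rw [z _ (by simp [clo]) (Or.inl rfl)]
      simp [clo, cdd, wj]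
  · intro x hx hl
    by_contra hne
    have hn : x ∉ cell j := by
      intro hx'
      rcases hl with h | h | h | h <;> linarith [(hx' 0).1, (hx' 0).2, (hx' 1).1, (hx' 1).2]
    obtain ⟨-, w, hw⟩ := Om_face he hs (in_of_ne hsup hne) hx hn
    have := win_lat he (hs w) hw (win_adj he (hs w) hw hx)
    rcases hl with h | h | h | h <;> linarith [this.1.1, this.1.2, this.2.1, this.2.2]

lemma ell_zero (hs : ∀ w, s w ≤ 1) {j : KK m} {φ : HS} (hφ : IsPhi j φ)
    (hj : ∀ w, 0 < s w → j ≠ Sum.inl (en w) ∧ j ≠ Sum.inr w.1) {U : HS} (hU : U ∈ VV (Om e s)) :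
    ell q1 q2 (lamm m) φ U = 0 := by
  refine VV_ind (P := {U | ell q1 q2 (lamm m) φ U = 0})
    (isClosed_eq (ell q1 q2 (lamm m) φ).continuous continuous_const) ?_ hU
  intro U f hf hsup hU
  rw [mem_ofPred_eq, ell_foot he hs hφ hf hsup hU, neg_eq_zero]
  apply setIntegral_eq_zero_of_forall_eq_zero
  intro y hy
  by_contra hne
  have hx := tr_mem hy (clo_zero j).1 (clo_zero j).2
  obtain ⟨-, w, hw⟩ := Om_face he hs (in_of_ne hsup (right_ne_zero_of_mul hne)) hx
    fun h => cell_ne h rfl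
  have := hj w (by linarith [hw.2.1, hw.2.2.1])
  rcases win_adj he (hs w) hw hx with h | h
  · exact this.1 h
  · exact this.2 h

omit he in
lemma single_le {w : WW m} {t : ℝ} (ht : t ≤ 1) (w' : WW m) :
    (Pi.single w t : WW m → ℝ) w' ≤ 1 := by
  by_cases h : w' = w
  · subst h
    simpa using ht
  · simp [Pi.single_eq_of_ne h]

omit he in
lemma single_pos {w w' : WW m} {t : ℝ} (h : 0 < (Pi.single w t : WW m → ℝ) w') : w' = w := by
  by_contra hn
  simp [Pi.single_eq_of_ne hn] at h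

lemma tr_win {w : WW m} {t : ℝ} (ht : t ≤ 1) {f : E3 → ℝ}
    (hsup : tsupport f ⊆ Om e (Pi.single w t)) {y : Fin 2 → ℝ} (hy : f (tr 0 y) ≠ 0) :
    tr 0 y ∈ win e w t := by
  rcases mem_Om he (single_le ht) (in_of_ne hsup hy) with ⟨j, h⟩ | ⟨-, w', h⟩
  · exact absurd rfl (cell_ne h)
  · have : w' = w := single_pos (t := t) (by linarith [h.2.1, h.2.2.1])
    subst this
    simpa using h

lemma ell_single {w : WW m} {t : ℝ} (ht : t ≤ 1) {j : KK m}
    (hj : j = Sum.inl (en w) ∨ j = Sum.inr w.1) {φ U : HS} {f : E3 → ℝ} (hφ : IsPhi j φ)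
    (hf : Tst f) (hsup : tsupport f ⊆ Om e (Pi.single w t)) (hU : Rep U f (gradient f)) :
    ell q1 q2 (lamm m) φ U = -∫ y, wj j y * f (tr 0 y) := by
  rw [ell_foot he (single_le ht) hφ hf hsup hU, setIntegral_eq_integral_of_forall_compl_eq_zero]
  intro y hy
  by_contra hne
  have := win_lat he ht (tr_win he ht hsup (right_ne_zero_of_mul hne)) hj
  exact hy ⟨⟨this.1.1.le, this.1.2.le⟩, this.2.1.le, this.2.2.le⟩

lemma wj_pos {w : WW m} {t : ℝ} (ht : t ≤ 1) {j : KK m}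
    (hj : j = Sum.inl (en w) ∨ j = Sum.inr w.1) {y : Fin 2 → ℝ} (hy : tr 0 y ∈ win e w t) :
    0 < wj j y := by
  have := win_lat he ht hy hj
  have h2 := cdd_pos j 2
  have h3 := pi_pos
  exact mul_pos (mul_pos (sg_pos (cdd_pos j 0) this.1.1 this.1.2)
    (sg_pos (cdd_pos j 1) this.2.1 this.2.2)) (by positivity)

end

lemma Tst.cs_tr {f : E3 → ℝ} (hf : Tst f) : HasCompactSupport (fun y => f (tr 0 y)) := by
  have c : Continuous (fun x : E3 => (![x 0, x 1] : Fin 2 → ℝ)) := by fun_prop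
  apply HasCompactSupport.intro (hf.cs.isCompact.image c)
  intro y hy
  by_contra hne
  refine hy ⟨tr 0 y, subset_tsupport f hne, ?_⟩
  ext i
  fin_cases i <;> rfl

lemma Tst.int_tr {f : E3 → ℝ} (hf : Tst f) {g : (Fin 2 → ℝ) → ℝ} (hg : Continuous g) :
    Integrable (fun y => g y * f (tr 0 y)) :=
  (hg.mul (hf.cont.comp (tr_cont 0))).integrable_of_hasCompactSupport hf.cs_tr.mul_left

lemma pos_win {e : ℝ} (he0 : 0 < e) (he : e ≤ 1 / 4) (w : WW m) {φ : HS}
    (hφ : IsPhi (Sum.inl (en w) : KK m) φ) :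
    ∃ u ∈ VV (Om e (Pi.single w e)), ell q1 q2 (lamm m) φ u ≠ 0 := by
  have he1 : e ≤ 1 := by linarith
  set y0 : Fin 2 → ℝ := ![XN w, YY w + e / 2] with hy0
  have hc : tr 0 y0 ∈ win e w e := by
    simp [win, tr0, tr1, tr2, hy0, he0]
  have ho : IsOpen (win e w e) := by
    rw [win_box]
    exact Box_open _ _
  obtain ⟨f, h1, h2, h3, h4, h5⟩ := exists_contDiff_tsupport_subset (n := ⊤) (ho.mem_nhds hc)
  have hf : Tst f := ⟨h3, h2⟩
  obtain ⟨U, hU⟩ := hf.exists_rep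
  have hsup : tsupport f ⊆ Om e (Pi.single w e) := by
    refine h1.trans ?_
    have := win_sub e (Pi.single w e) w
    rwa [Pi.single_eq_same] at this
  refine ⟨U, JT_le _ ⟨f, hf, hsup, hU⟩, ?_⟩
  rw [ell_single he he1 (Or.inl rfl) hφ hf hsup hU, neg_ne_zero]
  apply ne_of_gt
  refine Continuous.integral_pos_of_hasCompactSupport_nonneg_nonzero (x := y0)
    ((wt_cont _ _).mul (hf.cont.comp (tr_cont 0))) hf.cs_tr.mul_left (fun y => ?_) ?_
  · by_cases h : f (tr 0 y) = 0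
    · simp [h]
    · exact mul_nonneg (wj_pos he he1 (Or.inl rfl) (tr_win he he1 hsup h)).le
        (h4 ⟨_, rfl⟩).1
  · rw [h5, mul_one]
    exact (wj_pos he he1 (Or.inl rfl) hc).ne'

lemma exists_abs {f : E3 → ℝ} (hf : Tst f) {σ : ℝ} (hσ : 0 < σ) : ∃ v, Tst v ∧
    tsupport v ⊆ tsupport f ∧ En v ≤ En f ∧ (∀ x, f x = 0 → v x = 0) ∧ ∀ x, |f x| ≤ v x + σ := by
  have hp : ∀ x, 0 < f x ^ 2 + σ ^ 2 := fun x => by positivity
  have z : ∀ x, f x = 0 → √(f x ^ 2 + σ ^ 2) - σ = 0 := by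
    intro x hx
    simp [hx, sqrt_sq hσ.le]
  have hs : tsupport (fun x => √(f x ^ 2 + σ ^ 2) - σ) ⊆ tsupport f :=
    closure_mono fun x hx h => hx (z x h)
  have hv : Tst (fun x => √(f x ^ 2 + σ ^ 2) - σ) :=
    ⟨(((hf.cd.pow 2).add contDiff_const).sqrt fun x => (hp x).ne').sub contDiff_const,
      hf.cs.isCompact.of_isClosed_subset (isClosed_tsupport _) hs⟩
  have ha : ∀ x, |f x| ≤ √(f x ^ 2 + σ ^ 2) := fun x => abs_le_sqrt (by nlinarith)
  refine ⟨_, hv, hs, integral_mono hv.int_nD hf.int_nD fun x => ?_, z, fun x => by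
    linarith [ha x]⟩
  have d := (((((dif hf.cd x).hasFDerivAt.pow 2).add_const (σ ^ 2)).sqrt
    (hp x).ne').sub_const σ).fderiv
  simp only
  rw [d, smul_smul, norm_smul, mul_pow]
  apply mul_le_of_le_one_left (sq_nonneg _)
  have hq := sqrt_pos.2 (hp x)
  have : 1 / (2 * √(f x ^ 2 + σ ^ 2)) * (2 • f x ^ (2 - 1)) = f x / √(f x ^ 2 + σ ^ 2) := by
    simp
    field_simp
  rw [this, Real.norm_eq_abs, sq_abs, div_pow, sq_sqrt (hp x).le, div_le_one (hp x)]
  nlinarith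

lemma cmp_win {e t k β N : ℝ} (he : e ≤ 1 / 4) (ht : t ≤ 1) (hk : 0 ≤ k) (hN : 0 ≤ N) (w : WW m)
    {φ φ' : HS} (hφ : IsPhi (Sum.inl (en w) : KK m) φ) (hφ' : IsPhi (Sum.inr w.1 : KK m) φ')
    (hβ : ∀ y, tr 0 y ∈ win e w t → |wj (Sum.inr w.1 : KK m) y - β * wj (Sum.inl (en w) : KK m) y|
      ≤ k * wj (Sum.inl (en w) : KK m) y)
    (h : ∀ u ∈ VV (Om e (Pi.single w t)), |ell q1 q2 (lamm m) φ u| ≤ N * ‖q2 u‖)
    {U : HS} (hU : U ∈ VV (Om e (Pi.single w t))) :
    |ell q1 q2 (lamm m) φ' U - β * ell q1 q2 (lamm m) φ U| ≤ k * N * ‖q2 U‖ := by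
  refine VV_ind (P := {U | |ell q1 q2 (lamm m) φ' U - β * ell q1 q2 (lamm m) φ U| ≤
    k * N * ‖q2 U‖}) (isClosed_le (by fun_prop) (by fun_prop)) ?_ hU
  intro U f hf hsup hU
  rw [mem_ofPred_eq, ell_single he ht (Or.inl rfl) hφ hf hsup hU,
    ell_single he ht (Or.inr rfl) hφ' hf hsup hU]
  set a := wj (Sum.inl (en w) : KK m) with ha
  set b := wj (Sum.inr w.1 : KK m) with hb
  have ca : Continuous a := wt_cont _ _
  have cb : Continuous b := wt_cont _ _
  set K := tsupport (fun y => f (tr 0 y)) with hK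
  have Kc : IsCompact K := hf.cs_tr
  have ic : Integrable (K.indicator fun y => |a y|) :=
    (ca.abs.continuousOn.integrableOn_compact Kc).integrable_indicator Kc.measurableSet
  set C := ∫ y, K.indicator (fun y => |a y|) y with hC
  have hC0 : 0 ≤ C := integral_nonneg fun y => indicator_nonneg (fun _ _ => abs_nonneg _) y
  apply le_of_forall_pos_le_add
  intro ε hε
  set σ := ε / (k * C + 1) with hσ
  have hσ0 : 0 < σ := by positivity
  obtain ⟨v, hv, v1, v2, v3, v4⟩ := exists_abs hf hσ0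
  obtain ⟨V, hV⟩ := hv.exists_rep
  have h1 := h V (JT_le _ ⟨v, hv, v1.trans hsup, hV⟩)
  rw [ell_single he ht (Or.inl rfl) hφ hv (v1.trans hsup) hV, abs_neg] at h1
  have h2 : ‖q2 V‖ ≤ ‖q2 U‖ := by
    apply le_of_sq_le_sq _ (norm_nonneg _)
    rwa [hV.en, hU.en]
  have e1 : -(∫ y, b y * f (tr 0 y)) - β * -∫ y, a y * f (tr 0 y) =
      -∫ y, (b y - β * a y) * f (tr 0 y) := by
    simp_rw [sub_mul, mul_assoc]
    rw [integral_sub (hf.int_tr cb) ((hf.int_tr ca).const_mul β), integral_const_mul]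
    ring
  rw [e1, abs_neg]
  have h3 : |∫ y, (b y - β * a y) * f (tr 0 y)| ≤
      ∫ y, k * (a y * v (tr 0 y) + σ * K.indicator (fun y => |a y|) y) := by
    rw [← Real.norm_eq_abs]
    apply norm_integral_le_of_norm_le (((hv.int_tr ca).fun_add (ic.const_mul σ)).const_mul k)
    refine ae_of_all _ fun y => ?_
    by_cases hy : f (tr 0 y) = 0
    · rw [hy, v3 _ hy]
      have : 0 ≤ K.indicator (fun y => |a y|) y := indicator_nonneg (fun _ _ => abs_nonneg _) y
      simp only [mul_zero, norm_zero, zero_add]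
      positivity
    · have hw := tr_win he ht hsup hy
      have p := wj_pos he ht (Or.inl rfl) hw
      rw [indicator_of_mem (s := K) (subset_tsupport _ hy), Real.norm_eq_abs, abs_mul,
        abs_of_pos p]
      have := mul_le_mul (hβ y hw) (v4 (tr 0 y)) (abs_nonneg _) (mul_nonneg hk p.le)
      linarith
  rw [integral_const_mul, integral_add (hv.int_tr ca) (ic.const_mul σ), integral_const_mul] at h3
  have h4 : k * C * σ ≤ ε := by
    rw [hσ, mul_div_assoc', div_le_iff₀ (by positivity)]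
    nlinarith
  have h5 := mul_le_mul_of_nonneg_left (((le_abs_self _).trans h1).trans
    (mul_le_mul_of_nonneg_left h2 hN)) hk
  rw [← hC] at h3
  linarith

lemma Om_zero {e : ℝ} : Om e (0 : WW m → ℝ) = ⋃ j : KK m, cell j := by
  apply union_eq_self_of_subset_right
  intro x hx
  obtain ⟨w, hw⟩ := mem_iUnion.1 hx
  have h1 := hw.2.1
  have h2 := hw.2.2.1
  simp only [Pi.zero_apply] at h2
  linarith

lemma int_cells {F : E3 → ℝ} (hF : Integrable F) (h : ∀ x ∉ ⋃ j : KK m, cell j, F x = 0) :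
    ∫ x, F x = ∑ j : KK m, ∫ x in cell j, F x := by
  rw [← integral_iUnion_fintype (s := fun j : KK m => cell j) (fun j => Box_meas _ _) _
    fun j => hF.integrableOn,
    setIntegral_eq_integral_of_forall_compl_eq_zero h]
  intro i j hij
  exact disjoint_left.2 fun x hx hx' => hij (cell_disj (Box_sub _ _ hx) hx')

lemma gap_zero {e : ℝ} {φ : KK m → HS} (hφ : ∀ j, IsPhi j (φ j)) {U : HS}
    (hU : U ∈ VV (Om e (0 : WW m → ℝ))) :
    gam m * (‖q1 U‖ ^ 2 - ∑ j, ⟪q1 (φ j), q1 U⟫_ℝ ^ 2) ≤ ‖q2 U‖ ^ 2 - lamm m * ‖q1 U‖ ^ 2 := by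
  refine VV_ind (P := {U | gam m * (‖q1 U‖ ^ 2 - ∑ j, ⟪q1 (φ j), q1 U⟫_ℝ ^ 2) ≤
    ‖q2 U‖ ^ 2 - lamm m * ‖q1 U‖ ^ 2}) (isClosed_le (by fun_prop) (by fun_prop)) ?_ hU
  intro U f hf hsup hU
  rw [Om_zero] at hsup
  rw [mem_ofPred_eq, hU.en, hU.norm1, En, int_cells (m := m) hf.int_sq,
    int_cells (m := m) hf.int_nD, ← Finset.sum_sub_distrib, Finset.mul_sum, Finset.mul_sum,
    ← Finset.sum_sub_distrib]
  · apply Finset.sum_le_sum
    intro j _
    rw [phi_inner1 (hφ j) hU, ← lam_eq j]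
    refine Box_gap (cdd_pos j) gam_pos.le (gam_le j) hf fun x hx hn => ?_
    by_contra hne
    obtain ⟨j', h⟩ := mem_iUnion.1 (in_of_ne hsup hne)
    exact hn (cell_disj hx h ▸ h : x ∈ cell j)
  · intro x hx
    rw [fderiv_of_notMem_tsupport ℝ fun h => hx (hsup h)]
    simp
  · intro x hx
    rw [image_eq_zero_of_notMem_tsupport fun h => hx (hsup h)]
    simp

lemma poinc_Om {e : ℝ} {s : WW m → ℝ} (he : e ≤ 1 / 4) (hs : ∀ w, s w ≤ 1) {U : HS}
    (hU : U ∈ VV (Om e s)) : ‖q1 U‖ ≤ 2 * Lg m * ‖q2 U‖ := by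
  have hL := Lg_ge (m := m)
  refine VV_ind (P := {U | ‖q1 U‖ ≤ 2 * Lg m * ‖q2 U‖})
    (isClosed_le (by fun_prop) (by fun_prop)) ?_ hU
  intro U f hf hsup hU
  rw [mem_ofPred_eq]
  apply le_of_sq_le_sq _ (by positivity)
  rw [mul_pow, hU.en, hU.norm1]
  have := poincare hf (R := Lg m) (by linarith) fun x hx => Om_bd he hs (in_of_ne hsup hx)
  linarith

end Pool.Agent.H771Z.DM
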