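import Mathlib
import Pool.Agent.H771Z.DM.Geo2

set_option autoImplicit false

/-! Localisation near the windows and continuity of the energy spaces. -/

open MeasureTheory Set Filter Topology Real
open scoped InnerProductSpace

namespace Pool.Agent.H771Z.DM

lemma exists_min_pos {ι : Type*} [Finite ι] (r : ι → ℝ) (h : ∀ i, 0 < r i) :
    ∃ e > 0, ∀ i, e ≤ r i := by
  rcases isEmpty_or_nonempty ι with he | he
  · exact ⟨1, one_pos, fun w => isEmptyElim w⟩
  · obtain ⟨w, hw⟩ := Finite.exists_min r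
    exact ⟨r w, h w, hw⟩

lemma ims {ι : Type*} [Fintype ι] {θ : ι → E3 → ℝ} (hθ : ∀ i, ContDiff ℝ (⊤ : ℕ∞) (θ i))
    {f : E3 → ℝ} (hf : Tst f) {η κ : ℝ} (hη : 0 < η)
    (h : ∀ x ∈ tsupport f, (1 - ∑ i, θ i x) ^ 2 + ∑ i, θ i x ^ 2 ≤ 1)
    (hκ : ∀ i, ∫ x, f x ^ 2 * ‖fderiv ℝ (θ i) x‖ ^ 2 ≤ κ * En f) :
    En (fun x => (1 - ∑ i, θ i x) * f x) + ∑ i, En (fun x => θ i x * f x) ≤
      (1 + η + (1 + 1 / η) * ((Fintype.card ι + 1) * (Fintype.card ι * κ))) * En f := by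
  have c0 : ContDiff ℝ (⊤ : ℕ∞) (fun x => 1 - ∑ i, θ i x) :=
    contDiff_const.sub (ContDiff.sum fun i _ => hθ i)
  have i1 := fun i => (hf.mul_left (hθ i)).int_nD
  have i2 := fun i => hf.int_sq_mul ((cfd (hθ i)).norm.fun_pow 2)
  have key : ∫ x, (‖fderiv ℝ (fun x => (1 - ∑ i, θ i x) * f x) x‖ ^ 2 +
      ∑ i, ‖fderiv ℝ (fun x => θ i x * f x) x‖ ^ 2) ≤ ∫ x, ((1 + η) * ‖fderiv ℝ f x‖ ^ 2 +
      (1 + 1 / η) * (Fintype.card ι + 1) * ∑ i, f x ^ 2 * ‖fderiv ℝ (θ i) x‖ ^ 2) := by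
    apply integral_mono ((hf.mul_left c0).int_nD.fun_add (integrable_finsetSum _ fun i _ => i1 i))
      ((hf.int_nD.const_mul _).fun_add ((integrable_finsetSum _ fun i _ => i2 i).const_mul _))
    intro x
    have a0 := norm_fderiv_mul c0 hf.cd hη x
    have a1 := Finset.sum_le_sum (s := Finset.univ) fun i _ => norm_fderiv_mul (hθ i) hf.cd hη x
    have a2 : ‖fderiv ℝ (fun x => 1 - ∑ i, θ i x) x‖ ^ 2 ≤
        Fintype.card ι * ∑ i, ‖fderiv ℝ (θ i) x‖ ^ 2 := by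
      rw [((HasFDerivAt.fun_sum fun i _ => (dif (hθ i) x).hasFDerivAt).const_sub 1).fderiv,
        norm_neg]
      exact (pow_le_pow_left₀ (norm_nonneg _) (norm_sum_le _ _) 2).trans
        sq_sum_le_card_mul_sum_sq
    have a3 : ((1 - ∑ i, θ i x) ^ 2 + ∑ i, θ i x ^ 2) * ‖fderiv ℝ f x‖ ^ 2 ≤
        ‖fderiv ℝ f x‖ ^ 2 := by
      by_cases hx : x ∈ tsupport f
      · exact mul_le_of_le_one_left (sq_nonneg _) (h x hx)
      · rw [fderiv_of_notMem_tsupport ℝ hx]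
        simp
    rw [Finset.sum_add_distrib, ← Finset.mul_sum, ← Finset.mul_sum, ← Finset.sum_mul,
      ← Finset.mul_sum] at a1
    simp only
    rw [← Finset.mul_sum]
    have a4 := mul_le_mul_of_nonneg_left a3 (show 0 ≤ 1 + η by positivity)
    have a5 := mul_le_mul_of_nonneg_left a2 (show 0 ≤ (1 + 1 / η) * f x ^ 2 by positivity)
    linarith
  rw [integral_add (hf.mul_left c0).int_nD (integrable_finsetSum _ fun i _ => i1 i),
    integral_add (hf.int_nD.const_mul _) ((integrable_finsetSum _ fun i _ => i2 i).const_mul _),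
    integral_finsetSum _ fun i _ => i1 i, integral_const_mul, integral_const_mul,
    integral_finsetSum _ fun i _ => i2 i] at key
  have b1 := Finset.sum_le_sum (s := Finset.univ) fun i _ => hκ i
  rw [Finset.sum_const, Finset.card_univ, nsmul_eq_mul] at b1
  have b2 := mul_le_mul_of_nonneg_left b1
    (show 0 ≤ (1 + 1 / η) * ((Fintype.card ι : ℝ) + 1) by positivity)
  unfold En at *
  linarith

variable {m : ℕ}

/-- elements whose gradient lives near a window -/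
def Lc (w : WW m) : Set HS := {U | ∀ᵐ x : E3, 1 / 4 < |x 0 - XN w| → (q2 U : E3 → E3) x = 0}

lemma loc_Lc {w w' : WW m} (h : w ≠ w') {u v : HS} (hu : u ∈ Lc w) (hv : v ∈ Lc w') :
    ⟪q2 u, q2 v⟫_ℝ = 0 := by
  rw [L2.inner_def]
  apply integral_eq_zero_of_ae
  filter_upwards [hu, hv] with x h1 h2
  by_cases a : 1 / 4 < |x 0 - XN w|
  · simp [h1 a]
  · by_cases b : 1 / 4 < |x 0 - XN w'|
    · simp [h2 b]
    · refine absurd (XN_inj ?_) h
      rw [not_lt, abs_le] at a b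
      rw [abs_lt]
      constructor <;> linarith

lemma dec_Om {k : ℝ} (hk : 0 < k) : ∃ e1 > 0, ∀ e, e ≤ e1 → e ≤ 1 / 4 → ∀ s : WW m → ℝ,
    (∀ w, 0 ≤ s w ∧ s w ≤ e) → ∀ U ∈ JT (Om e s), ∃ z : WW m → HS,
      U - ∑ w, z w ∈ VV (Om e (0 : WW m → ℝ)) ∧
      (∀ w, z w ∈ VV (Om e (Pi.single w (s w))) ∧ z w ∈ Lc w ∧ ‖q1 (z w)‖ ≤ k * ‖q2 U‖) ∧
      ‖q2 (U - ∑ w, z w)‖ ^ 2 + ∑ w, ‖q2 (z w)‖ ^ 2 ≤ (1 + k) * ‖q2 U‖ ^ 2 := by
  have hL := Lg_ge (m := m)
  set M : ℝ := (Fintype.card (WW m) : ℝ) with hM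
  have hM0 : 0 ≤ M := by positivity
  set κ := min (k ^ 2) (k / 2 / ((1 + 1 / (k / 2)) * ((M + 1) * M) + 1)) with hκ
  have hκ0 : 0 < κ := by positivity
  have hκ1 : κ ≤ k ^ 2 := min_le_left _ _
  have hκ2 : (1 + 1 / (k / 2)) * ((M + 1) * (M * κ)) ≤ k / 2 := by
    have : κ ≤ k / 2 / ((1 + 1 / (k / 2)) * ((M + 1) * M) + 1) := min_le_right _ _
    rw [le_div_iff₀ (by positivity)] at this
    nlinarith
  choose r0 hr0 θ θc θ01 θ1 θ0 θs using fun w : WW m =>
    exists_cutoff (i := 0) (j := 1) (by decide) (XN w) (YY w) (R := Lg m) (κ := κ) (r1 := 1 / 4)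
      (by linarith) hκ0 (by norm_num)
  obtain ⟨r, hr, hrr⟩ := exists_min_pos (fun w => min (r0 w) (1 / 4)) fun w =>
    lt_min (hr0 w) (by norm_num)
  refine ⟨r / 2, by positivity, fun e he1 he s hs U ⟨f, hf, hsup, hU⟩ => ?_⟩
  have hs1 : ∀ w, s w ≤ 1 := fun w => by linarith [(hs w).2]
  have bd : ∀ x ∈ tsupport f, ∀ l, |x l| ≤ Lg m := fun x hx => Om_bd he hs1 (hsup hx)
  have bd' : ∀ x, f x ≠ 0 → ∀ l, |x l| ≤ Lg m := fun x hx => bd x (subset_tsupport f hx)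
  have near : ∀ (w : WW m) (x : E3), rho 0 1 (XN w) (YY w) x < (1 / 4) ^ 2 → |x 0 - XN w| < 1 / 4 := by
    intro w x h
    unfold rho at h
    apply abs_lt_of_sq_lt_sq _ (by norm_num)
    nlinarith [sq_nonneg (x 1 - YY w)]
  have uniq : ∀ (w w' : WW m) (x : E3), |x 0 - XN w| ≤ 1 / 4 → |x 0 - XN w'| ≤ 1 / 4 → w = w' := by
    intro w w' x a b
    apply XN_inj
    rw [abs_le] at a b
    rw [abs_lt]
    constructor <;> linarith
  have sum1 : ∀ x ∈ tsupport f, ∀ w : WW m, |x 0 - XN w| ≤ 1 / 4 → ∀ n : ℕ, n ≠ 0 →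
      ∑ w', θ w' x ^ n = θ w x ^ n := by
    intro x hx w hw n hn
    apply Finset.sum_eq_single w _ (by simp)
    intro w' _ hw'
    rw [pow_eq_zero_iff hn]
    by_contra hne
    exact hw' (uniq _ _ x (near w' x (θ0 w' x (bd x hx) hne)).le hw)
  have T := fun w => hf.mul_left (θc w)
  choose z hz using fun w => (T w).exists_rep
  have sz : ∀ w, tsupport (fun x => θ w x * f x) ⊆ {x | |x 0 - XN w| ≤ 1 / 4} := by
    intro w
    apply closure_minimal _ (isClosed_le (by fun_prop) continuous_const)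
    intro x hx
    exact (near w x (θ0 w x (bd' x (right_ne_zero_of_mul hx)) (left_ne_zero_of_mul hx))).le
  have c0 : ContDiff ℝ (⊤ : ℕ∞) (fun x => 1 - ∑ i, θ i x) :=
    contDiff_const.sub (ContDiff.sum fun i _ => θc i)
  have e0 : (fun x => (1 - ∑ i, θ i x) * f x) = fun x => f x - ∑ i, θ i x * f x := by
    funext x
    rw [← Finset.sum_mul]
    ring
  have R0 : Rep (U - ∑ w, z w) (fun x => (1 - ∑ i, θ i x) * f x)
      (gradient fun x => (1 - ∑ i, θ i x) * f x) := by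
    rw [e0]
    refine (hU.sub (Rep.sum _ hz)).congr (fun _ => rfl) fun x => ?_
    rw [grad_sub (dif hf.cd x) (dif (Tst.sum _ T).cd x), grad_sum _ fun i => dif (T i).cd x]
  refine ⟨z, JT_le _ ⟨_, hf.mul_left c0, fun x hx => ?_, R0⟩, fun w => ⟨JT_le _ ⟨_, T w,
    fun x hx => ?_, hz w⟩, ?_, ?_⟩, ?_⟩
  · rcases hsup (tsupport_mul_subset_right hx) with h | h
    · exact Or.inl h
    · obtain ⟨w, hw⟩ := mem_iUnion.1 h
      refine absurd hx (notMem_tsupport_iff_eventuallyEq.2 ?_)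
      have h1 := (le_min_iff.1 (hrr w)).1
      have h2 := (le_min_iff.1 (hrr w)).2
      have hx1 : rho 0 1 (XN w) (YY w) x < r ^ 2 := by
        unfold rho
        obtain ⟨a1, a2, a3, -⟩ := hw
        have b1 : (x 0 - XN w) ^ 2 < (r / 2) ^ 2 := sq_lt_sq' (by linarith [(abs_lt.1 a1).1])
          (by linarith [(abs_lt.1 a1).2])
        have b2 : (x 1 - YY w) ^ 2 < (r / 2) ^ 2 := sq_lt_sq' (by linarith)
          (by linarith [(hs w).2])
        nlinarith
      filter_upwards [(isOpen_lt (rho_cd 0 1 (XN w) (YY w) (n := 0)).continuous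
        continuous_const).mem_nhds hx1] with y hy
      by_cases hy0 : f y = 0
      · simp [hy0]
      · have := sum1 y (subset_tsupport f hy0) w (near w y (hy.trans_le
          (pow_le_pow_left₀ hr.le h2 2))).le 1 one_ne_zero
        simp only [pow_one] at this
        rw [this, θ1 w y (hy.le.trans (pow_le_pow_left₀ hr.le h1 2))]
        simp
  · rcases hsup (tsupport_mul_subset_right hx) with h | h
    · exact Or.inl h
    · obtain ⟨w', hw⟩ := mem_iUnion.1 h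
      have : w' = w := uniq _ _ x (hw.1.le.trans he) (sz w hx)
      subst this
      apply win_sub e _ w'
      rwa [Pi.single_eq_same]
  · filter_upwards [(hz w).2] with x hx h
    rw [hx, grad_zero_of_notMem fun h' => absurd (sz w h') (not_le.2 h)]
  · apply le_of_sq_le_sq _ (by positivity)
    rw [(hz w).norm1, mul_pow, hU.en]
    exact (θs w f hf bd').2.trans (mul_le_mul_of_nonneg_right hκ1 (En_nonneg f))
  · simp_rw [R0.en, hU.en, fun w => (hz w).en]
    refine (ims θc hf (η := k / 2) (κ := κ) (by positivity) (fun x hx => ?_)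
      fun w => (θs w f hf bd').1).trans (mul_le_mul_of_nonneg_right (by linarith) (En_nonneg f))
    by_cases h : ∀ w, θ w x = 0
    · simp [h]
    · push Not at h
      obtain ⟨w, hw⟩ := h
      have a := (near w x (θ0 w x (bd x hx) hw)).le
      have a1 := sum1 x hx w a 1 one_ne_zero
      simp only [pow_one] at a1
      rw [a1, sum1 x hx w a 2 two_ne_zero]
      nlinarith [(θ01 w x).1, (θ01 w x).2]

lemma approx {Ω : Set E3} {u : HS} (hu : u ∈ VV Ω) {ε : ℝ} (hε : 0 < ε) :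
    ∃ U f, Tst f ∧ tsupport f ⊆ Ω ∧ Rep U f (gradient f) ∧ ‖U - u‖ < ε := by
  obtain ⟨U, ⟨f, h1, h2, h3⟩, h4⟩ := Metric.mem_closure_iff.1 hu ε hε
  exact ⟨U, f, h1, h2, h3, by rwa [← dist_eq_norm, dist_comm]⟩

lemma P1_Om (e : ℝ) (t : WW m → ℝ) {u : HS} (hu : u ∈ VV (Om e t)) {ε : ℝ} (hε : 0 < ε) :
    ∃ δ > 0, ∃ U ∈ VV (Om e fun w => t w - δ), ‖U - u‖ < ε := by
  obtain ⟨U, f, h1, h2, h3, h4⟩ := approx hu hε
  obtain ⟨n, hn⟩ := h1.cs.isCompact.elim_directed_cover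
    (fun n : ℕ => Om e fun w => t w - 1 / ((n : ℝ) + 1)) (fun n => Om_open _ _) (by
      intro x hx
      rcases h2 hx with h | h
      · exact mem_iUnion.2 ⟨0, Or.inl h⟩
      · obtain ⟨w, hw⟩ := mem_iUnion.1 h
        obtain ⟨n, hn⟩ := exists_nat_one_div_lt (sub_pos.2 hw.2.2.1)
        exact mem_iUnion.2 ⟨n, win_sub _ _ w ⟨hw.1, hw.2.1, by linarith, hw.2.2.2⟩⟩)
    (Monotone.directed_le fun a b hab => Om_mono e fun w => by
      have := Nat.one_div_le_one_div (α := ℝ) hab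
      simp only
      linarith)
  exact ⟨1 / ((n : ℝ) + 1), by positivity, U, JT_le _ ⟨f, h1, hn, h3⟩, h4⟩

lemma exists_cutoff_fin {ι : Type*} (S : Finset ι) {i j : Fin 3} (hij : i ≠ j) (p q : ι → ℝ)
    {R : ℝ} (hR : 0 < R) : ∀ κ > 0, ∃ r0 > 0, ∃ θ : E3 → ℝ, ContDiff ℝ (⊤ : ℕ∞) θ ∧
      (∀ x, 0 ≤ θ x ∧ θ x ≤ 1) ∧ (∀ w ∈ S, ∀ x, rho i j (p w) (q w) x ≤ r0 ^ 2 → θ x = 1) ∧
      ∀ u, Tst u → (∀ x, u x ≠ 0 → ∀ l, |x l| ≤ R) →
        ∫ x, u x ^ 2 * ‖fderiv ℝ θ x‖ ^ 2 ≤ κ * En u ∧ ∫ x, (θ x * u x) ^ 2 ≤ κ * En u := by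
  classical
  induction S using Finset.induction_on with
  | empty =>
    intro κ hκ
    refine ⟨1, one_pos, fun _ => 0, contDiff_const, by simp, by simp, fun u _ _ => ?_⟩
    have := mul_nonneg hκ.le (En_nonneg u)
    simp [this]
  | insert a S ha ih =>
    intro κ hκ
    obtain ⟨r, hr, θ, c1, b1, o1, s1⟩ := ih (κ / 4) (by positivity)
    obtain ⟨r', hr', θ', c2, b2, o2, -, s2⟩ := exists_cutoff hij (p a) (q a) hR
      (show 0 < κ / 4 by positivity) one_pos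
    have c3 : ContDiff ℝ (⊤ : ℕ∞) (fun x => 1 - (1 - θ x) * (1 - θ' x)) :=
      contDiff_const.sub ((contDiff_const.sub c1).mul (contDiff_const.sub c2))
    have hm : 0 < min r r' := lt_min hr hr'
    refine ⟨min r r', hm, _, c3, fun x => ?_, fun w hw x hx => ?_, fun u hu hs => ⟨?_, ?_⟩⟩
    · obtain ⟨a1, a2⟩ := b1 x
      obtain ⟨a3, a4⟩ := b2 x
      constructor <;> nlinarith [mul_nonneg (sub_nonneg.2 a2) (sub_nonneg.2 a4),
        mul_nonneg a1 (sub_nonneg.2 a4)]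
    · rcases Finset.mem_insert.1 hw with rfl | hw
      · simp [o2 x (hx.trans (pow_le_pow_left₀ hm.le (min_le_right _ _) 2))]
      · simp [o1 w hw x (hx.trans (pow_le_pow_left₀ hm.le (min_le_left _ _) 2))]
    · have i1 := hu.int_sq_mul ((cfd c1).norm.fun_pow 2)
      have i2 := hu.int_sq_mul ((cfd c2).norm.fun_pow 2)
      have : ∫ x, u x ^ 2 * ‖fderiv ℝ (fun x => 1 - (1 - θ x) * (1 - θ' x)) x‖ ^ 2 ≤
          ∫ x, 2 * (u x ^ 2 * ‖fderiv ℝ θ x‖ ^ 2 + u x ^ 2 * ‖fderiv ℝ θ' x‖ ^ 2) := by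
        apply integral_mono (hu.int_sq_mul ((cfd c3).norm.fun_pow 2)) ((i1.fun_add i2).const_mul _)
        intro x
        simp only
        rw [((((dif c1 x).hasFDerivAt.const_sub 1).fun_mul
          ((dif c2 x).hasFDerivAt.const_sub 1)).const_sub 1).fderiv, norm_neg]
        obtain ⟨a1, a2⟩ := b1 x
        obtain ⟨a3, a4⟩ := b2 x
        have n1 : ‖(1 - θ x) • -fderiv ℝ θ' x + (1 - θ' x) • -fderiv ℝ θ x‖ ≤
            ‖fderiv ℝ θ' x‖ + ‖fderiv ℝ θ x‖ := by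
          refine (norm_add_le _ _).trans (add_le_add ?_ ?_) <;>
          · rw [norm_smul, norm_neg, Real.norm_eq_abs, abs_of_nonneg (by linarith)]
            exact mul_le_of_le_one_left (norm_nonneg _) (by linarith)
        have n2 := pow_le_pow_left₀ (norm_nonneg _) n1 2
        have n3 : (‖fderiv ℝ θ' x‖ + ‖fderiv ℝ θ x‖) ^ 2 ≤
            2 * (‖fderiv ℝ θ x‖ ^ 2 + ‖fderiv ℝ θ' x‖ ^ 2) := by
          nlinarith [sq_nonneg (‖fderiv ℝ θ' x‖ - ‖fderiv ℝ θ x‖)]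
        have := mul_le_mul_of_nonneg_left (n2.trans n3) (sq_nonneg (u x))
        linarith
      rw [integral_const_mul, integral_add i1 i2] at this
      linarith [(s1 u hu hs).1, (s2 u hu hs).1]
    · have i1 := (hu.mul_left c1).int_sq
      have i2 := (hu.mul_left c2).int_sq
      have : ∫ x, ((1 - (1 - θ x) * (1 - θ' x)) * u x) ^ 2 ≤
          ∫ x, 2 * ((θ x * u x) ^ 2 + (θ' x * u x) ^ 2) := by
        apply integral_mono (hu.mul_left c3).int_sq ((i1.fun_add i2).const_mul _)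
        intro x
        obtain ⟨a1, a2⟩ := b1 x
        obtain ⟨a3, a4⟩ := b2 x
        have n1 : 1 - (1 - θ x) * (1 - θ' x) ≤ θ x + θ' x := by nlinarith [mul_nonneg a1 a3]
        have n0 : 0 ≤ 1 - (1 - θ x) * (1 - θ' x) := by
          nlinarith [mul_nonneg a1 (sub_nonneg.2 a4)]
        have n2 := pow_le_pow_left₀ n0 n1 2
        have n3 : (θ x + θ' x) ^ 2 ≤ 2 * (θ x ^ 2 + θ' x ^ 2) := by
          nlinarith [sq_nonneg (θ x - θ' x)]
        have := mul_le_mul_of_nonneg_right (n2.trans n3) (sq_nonneg (u x))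
        simp only [mul_pow]
        linarith
      rw [integral_const_mul, integral_add i1 i2] at this
      linarith [(s1 u hu hs).2, (s2 u hu hs).2]

lemma norm_q1 (U : HS) : ‖q1 U‖ ≤ ‖U‖ := by
  apply le_of_sq_le_sq _ (norm_nonneg _)
  rw [HS_norm]
  nlinarith [sq_nonneg ‖q2 U‖]

lemma norm_q2 (U : HS) : ‖q2 U‖ ≤ ‖U‖ := by
  apply le_of_sq_le_sq _ (norm_nonneg _)
  rw [HS_norm]
  nlinarith [sq_nonneg ‖q1 U‖]

lemma P2_Om {e : ℝ} (he : e ≤ 1 / 4) (t : WW m → ℝ) (ht : ∀ w, 0 ≤ t w ∧ t w ≤ e) (R : ℝ) {κ : ℝ}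
    (hκ : 0 < κ) : ∃ δ > 0, ∀ u ∈ VV (Om e fun w => t w + δ), ‖q2 u‖ ≤ R →
      ∃ U ∈ VV (Om e t), ‖q2 U‖ ≤ ‖q2 u‖ + κ ∧ ‖q1 (U - u)‖ ≤ κ := by
  have hL := Lg_ge (m := m)
  set a := κ / (2 * (|R| + κ)) with ha
  have ha0 : 0 < a := by positivity
  have ha1 : a * (|R| + κ) = κ / 2 := by
    rw [ha]
    field_simp
  obtain ⟨r, hr, θ, c1, b1, o1, s1⟩ := exists_cutoff_fin (Finset.univ : Finset (WW m))
    (i := 1) (j := 2) (by decide) (fun w => YY w + t w) (fun _ => 0) (R := Lg m) (by linarith)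
    (a ^ 2 / (1 + a)) (by positivity)
  refine ⟨min r (1 / 4), lt_min hr (by norm_num), fun u hu huR => ?_⟩
  have hs1 : ∀ w, t w + min r (1 / 4) ≤ 1 := fun w => by
    linarith [(ht w).2, min_le_right r (1 / 4)]
  obtain ⟨W, f, hf, hsup, hW, hd⟩ := approx hu (show 0 < κ / 2 by positivity)
  have bd' : ∀ x, f x ≠ 0 → ∀ l, |x l| ≤ Lg m := fun x hx => Om_bd he hs1 (in_of_ne hsup hx)
  have c0 : ContDiff ℝ (⊤ : ℕ∞) (fun x => 1 - θ x) := contDiff_const.sub c1
  obtain ⟨U, hU⟩ := (hf.mul_left c0).exists_rep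
  have n1 : ‖q2 W‖ ≤ ‖q2 u‖ + κ / 2 := by
    have := norm_q2 (W - u)
    rw [map_sub] at this
    linarith [norm_sub_norm_le (q2 W) (q2 u)]
  have n2 : a * ‖q2 W‖ ≤ κ / 2 := by
    rw [← ha1]
    exact mul_le_mul_of_nonneg_left (by linarith [le_abs_self R]) ha0.le
  refine ⟨U, JT_le _ ⟨_, hf.mul_left c0, fun x hx => ?_, hU⟩, ?_, ?_⟩
  · rcases mem_Om he hs1 (hsup (tsupport_mul_subset_right hx)) with ⟨j, h⟩ | ⟨h, w, hw⟩
    · exact cell_sub _ _ j h
    · by_cases h1 : x 1 < YY w + t w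
      · exact win_sub _ _ w ⟨hw.1, hw.2.1, h1, hw.2.2.2⟩
      · refine absurd hx (notMem_tsupport_iff_eventuallyEq.2 ?_)
        have hx1 : rho 1 2 (YY w + t w) 0 x < r ^ 2 := by
          unfold rho
          rw [h]
          have : (x 1 - (YY w + t w)) ^ 2 < r ^ 2 := sq_lt_sq' (by linarith)
            (by linarith [hw.2.2.1, min_le_left r (1 / 4)])
          linarith
        filter_upwards [(isOpen_lt (rho_cd 1 2 (YY w + t w) 0 (n := 0)).continuous
          continuous_const).mem_nhds hx1] with y hy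
        simp [o1 w (Finset.mem_univ _) y (le_of_lt hy)]
  · have : ‖q2 U‖ ≤ (1 + a) * ‖q2 W‖ := by
      apply le_of_sq_le_sq _ (by positivity)
      rw [mul_pow, hU.en, hW.en]
      have i1 := hf.int_sq_mul ((cfd c1).norm.fun_pow 2)
      have k1 : En (fun x => (1 - θ x) * f x) ≤ ∫ x, ((1 + a) * ‖fderiv ℝ f x‖ ^ 2 +
          (1 + 1 / a) * (f x ^ 2 * ‖fderiv ℝ θ x‖ ^ 2)) := by
        apply integral_mono (hf.mul_left c0).int_nD
          ((hf.int_nD.const_mul _).fun_add (i1.const_mul _))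
        intro x
        refine (norm_fderiv_mul c0 hf.cd ha0 x).trans ?_
        rw [((dif c1 x).hasFDerivAt.const_sub 1).fderiv, norm_neg]
        have : (1 - θ x) ^ 2 * ‖fderiv ℝ f x‖ ^ 2 ≤ ‖fderiv ℝ f x‖ ^ 2 :=
          mul_le_of_le_one_left (sq_nonneg _) (pow_le_one₀ (by linarith [(b1 x).2])
            (by linarith [(b1 x).1]))
        have := mul_le_mul_of_nonneg_left this (show 0 ≤ 1 + a by positivity)
        simp only
        linarith
      rw [integral_add (hf.int_nD.const_mul _) (i1.const_mul _), integral_const_mul,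
        integral_const_mul] at k1
      have k2 := mul_le_mul_of_nonneg_left (s1 f hf bd').1 (show 0 ≤ 1 + 1 / a by positivity)
      have k3 : (1 + 1 / a) * (a ^ 2 / (1 + a) * En f) = a * En f := by field_simp; ring
      have k4 := mul_nonneg (sq_nonneg a) (En_nonneg f)
      change _ ≤ (1 + a) * En f + _ at k1
      linarith
    linarith
  · have k1 : ‖q1 (U - W)‖ ≤ a * ‖q2 W‖ := by
      apply le_of_sq_le_sq _ (by positivity)
      rw [mul_pow, (hU.sub hW).norm1, hW.en]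
      have e1 : ∀ x, ((1 - θ x) * f x - f x) ^ 2 = (θ x * f x) ^ 2 := fun x => by ring
      simp_rw [e1]
      refine (s1 f hf bd').2.trans (mul_le_mul_of_nonneg_right ?_ (En_nonneg f))
      exact div_le_self (sq_nonneg _) (by linarith)
    have k2 : q1 (U - u) = q1 (U - W) + q1 (W - u) := by
      rw [← map_add, sub_add_sub_cancel]
    rw [k2]
    linarith [norm_add_le (q1 (U - W)) (q1 (W - u)), norm_q1 (W - u)]

end Pool.Agent.H771Z.DM
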