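import Mathlib
import Pool.Agent.H771Z.DM.Geo3
import Pool.Agent.H771Z.DM.Abs4

set_option autoImplicit false

/-! A domain with a degenerate second eigenvalue, in variational form. -/

open MeasureTheory Set Filter Topology Real
open scoped InnerProductSpace

namespace Pool.Agent.H771Z.DM

variable {m : ℕ}

/-- the corner point of a window -/
noncomputable def cw (w : WW m) : Fin 2 → ℝ := ![XN w, YY w]

lemma wj_cw (w : WW m) {j : KK m} (hj : j = Sum.inl (en w) ∨ j = Sum.inr w.1) :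
    0 < wj j (cw w) := by
  have h1 := XN_bd w
  have h3 := Lg_B w.1
  have h4 : (0 : ℝ) ≤ np w.1 := by positivity
  have h5 := Lg_A (en w)
  have h6 : (0 : ℝ) ≤ (en w : ℕ) := by positivity
  have h2 := cdd_pos j 2
  have h7 := pi_pos
  refine mul_pos (mul_pos (sg_pos (cdd_pos j 0) ?_ ?_) (sg_pos (cdd_pos j 1) ?_ ?_))
    (by positivity) <;> rcases hj with rfl | rfl <;> simp [clo, cdd, cw, YY] <;>
    first | linarith | (unfold XN; omega)

/-- ratio of the weights -/
noncomputable def bw (w : WW m) : ℝ :=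
  wj (Sum.inr w.1 : KK m) (cw w) / wj (Sum.inl (en w) : KK m) (cw w)

lemma bw_pos (w : WW m) : 0 < bw w := div_pos (wj_cw w (Or.inr rfl)) (wj_cw w (Or.inl rfl))

lemma bw_near {k : ℝ} (hk : 0 < k) (w : WW m) : ∃ r > 0, ∀ y, dist y (cw w) < r →
    |wj (Sum.inr w.1 : KK m) y - bw w * wj (Sum.inl (en w) : KK m) y| ≤
      k * wj (Sum.inl (en w) : KK m) y := by
  have ca : Continuous (wj (Sum.inl (en w) : KK m)) := wt_cont _ _
  have cb : Continuous (wj (Sum.inr w.1 : KK m)) := wt_cont _ _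
  have hp := wj_cw w (Or.inl rfl)
  have ho : IsOpen {y | |wj (Sum.inr w.1 : KK m) y - bw w * wj (Sum.inl (en w) : KK m) y| <
      k * wj (Sum.inl (en w) : KK m) y} := isOpen_lt (by fun_prop) (by fun_prop)
  obtain ⟨r, hr, h⟩ := Metric.isOpen_iff.1 ho (cw w) (by
    rw [mem_ofPred_eq, bw, div_mul_cancel₀ _ hp.ne', sub_self, abs_zero]
    positivity)
  exact ⟨r, hr, fun y hy => le_of_lt (h hy)⟩

theorem exists_domain (hm : 0 < m) : ∃ Ω : Set E3, IsOpen Ω ∧ IsConnected Ω ∧
    Bornology.IsBounded Ω ∧ ∃ (E : ℝ) (ψ : Fin m → HA), (∀ i, ‖ψ i‖ = 1) ∧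
      (∀ u ∈ VV Ω, ∑ i, ⟪ψ i, q1 u⟫_ℝ = 0 → E * ‖q1 u‖ ^ 2 ≤ ‖q2 u‖ ^ 2) ∧
      ∃ u : Fin m → HS, (∀ i, u i ∈ VV Ω) ∧
        (∀ i j, ⟪ψ i, q1 (u j)⟫_ℝ = if i = j then 1 else 0) ∧
        ∀ a : Fin m → ℝ, ‖q2 (∑ i, a i • u i)‖ ^ 2 ≤ E * ‖q1 (∑ i, a i • u i)‖ ^ 2 := by
  obtain ⟨k, hk, main⟩ := abstract_main (H := HS) (H1 := HA) (H2 := HB) (bw (m := m)) bw_pos
    (lamm_pos (m := m)) (gam_pos (m := m))
  choose φ hφV hφ using fun j : KK m => exists_phi (lo := clo j) (d := cdd j) (cdd_pos j)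
  obtain ⟨e1, he1, hdec⟩ := dec_Om (m := m) hk
  choose r hr hnear using bw_near (m := m) hk
  obtain ⟨e2, he2, hr2⟩ := exists_min_pos r hr
  set e := min (min e1 e2) (1 / 4) with he
  have e0 : 0 < e := by positivity
  have ea : e ≤ 1 / 4 := min_le_right _ _
  have eb : e ≤ e1 := (min_le_left _ _).trans (min_le_left _ _)
  have ec : e ≤ e2 := (min_le_left _ _).trans (min_le_right _ _)
  have hL := Lg_ge (m := m)
  have H : Hyp q1 q2 (fun s => VV (Om e s)) (fun s => JT (Om e s)) Lc φ bw (lamm m) (gam m)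
      (2 * Lg m) e k :=
    { hnorm := fun u => (HS_norm u).le
      closed := fun s => VV_closed _
      mono := fun s s' h => VV_mono (Om_mono e h)
      den := fun s => Subset.rfl
      dsub := fun s => JT_le _
      dzero := fun s => Submodule.zero_mem _
      mem := fun s j => VV_mono (cell_sub e s j) (hφV j)
      ortho := ortho_phi hφ
      ell0 := fun j u hu => ell_zero ea (fun _ => zero_le_one) (hφ j)
        (fun w hw => absurd hw (lt_irrefl _)) hu
      zero := fun w t _ h1 j h2 h3 u hu => ell_zero ea (single_le (by linarith)) (hφ j)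
        (fun w' hw => by
          rw [single_pos hw]
          exact ⟨h2, h3⟩) hu
      gap := fun u hu => gap_zero hφ hu
      cp := by linarith
      eps := e0.le
      poinc := fun s hs u hu => poinc_Om ea (fun w => by linarith [hs w]) hu
      pos := fun w => pos_win e0 ea w (hφ _)
      cmp := fun w t _ h1 N hN h u hu => cmp_win ea (by linarith) hk.le hN w (hφ _) (hφ _)
        (fun y hy => hnear w y (by
          obtain ⟨a1, a2, a3, -⟩ := hy
          rw [tr0] at a1
          rw [tr1] at a2 a3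
          rw [dist_pi_lt_iff (hr w), Fin.forall_fin_two, Real.dist_eq, Real.dist_eq]
          have := hr2 w
          refine ⟨by simpa [cw] using (by linarith : |y 0 - XN w| < r w), ?_⟩
          simp only [cw, Matrix.cons_val_one, Matrix.cons_val_zero, abs_lt]
          constructor <;> linarith)) h hu
      dec := fun s hs U hU => hdec e eb ea s hs U hU
      loc := fun w w' h u hu v hv => loc_Lc h hu hv
      P1 := fun t u hu ε hε => P1_Om e t hu hε
      P2 := fun t ht R κ hκ => P2_Om ea t ht R hκ }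
  obtain ⟨s, hs, h1, h2, E, h3, h4⟩ := main _ _ _ _ _ _ _ _ H
  have hs1 : ∀ w, s w ≤ 1 := fun w => by linarith [(hs w).2]
  exact ⟨Om e s, Om_open e s, Om_conn hm e0 ea hs1 h1 h2, Om_bounded ea hs1, E,
    fun i => q1 (φ (Sum.inl i)), fun i => H.nφ _, h3, h4⟩

end Pool.Agent.H771Z.DM
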