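import Mathlib
import Pool.Agent.H771Z.DM.Geo3

set_option autoImplicit false

/-! From the variational form to the min-max values. -/

open MeasureTheory Set Filter Topology Real
open scoped InnerProductSpace

namespace Pool.Agent.H771Z.DM

lemma Rep.unique {U U' : HS} {f : E3 → ℝ} {G : E3 → E3} (h : Rep U f G) (h' : Rep U' f G) :
    U = U' := by
  have := h.sub h'
  rw [← sub_eq_zero, ← norm_eq_zero, ← sq_eq_zero_iff, HS_norm, this.norm1, this.norm2]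
  simp

lemma Tst.sq_pos {f : E3 → ℝ} (hf : Tst f) (h : f ≠ 0) : 0 < ∫ x, f x ^ 2 := by
  obtain ⟨x, hx⟩ := Function.ne_iff.1 h
  exact integral_pos_of_integrable_nonneg_nonzero (x := x) (hf.cont.pow 2) hf.int_sq
    (fun _ => sq_nonneg _) (pow_ne_zero 2 hx)

lemma fin_bound {V H1 H2 : Type*} [AddCommGroup V] [Module ℝ V] [Module.Finite ℝ V]
    [NormedAddCommGroup H1] [NormedSpace ℝ H1] [NormedAddCommGroup H2] [NormedSpace ℝ H2]
    (A : V →ₗ[ℝ] H1) (B : V →ₗ[ℝ] H2) (hA : Function.Injective A) :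
    ∃ C, ∀ v, ‖B v‖ ≤ C * ‖A v‖ := by
  set T := LinearMap.toContinuousLinearMap
    (B ∘ₗ (LinearEquiv.ofInjective A hA).symm.toLinearMap) with hT
  refine ⟨‖T‖, fun v => ?_⟩
  have := T.le_opNorm (LinearEquiv.ofInjective A hA v)
  simpa [hT] using this

/-- Rayleigh quotient -/
noncomputable def Ray (f : E3 → ℝ) : ℝ := (∫ x, ‖fderiv ℝ f x‖ ^ 2) / (∫ x, f x ^ 2)

/-- admissible subspaces -/
def Adm (Ω : Set E3) (j : ℕ) : Set (Submodule ℝ (E3 → ℝ)) :=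
  {V | Module.finrank ℝ V = j ∧
    ∀ f ∈ V, ContDiff ℝ ((⊤ : ℕ∞) : WithTop ℕ∞) f ∧ HasCompactSupport f ∧ tsupport f ⊆ Ω}

lemma Ray_eq {U : HS} {f : E3 → ℝ} (h : Rep U f (gradient f)) :
    Ray f = ‖q2 U‖ ^ 2 / ‖q1 U‖ ^ 2 := by
  rw [h.en, h.norm1]
  rfl

lemma lower {Ω : Set E3} {E : ℝ} (ℓ : HS →L[ℝ] ℝ)
    (h : ∀ u ∈ VV Ω, ℓ u = 0 → E * ‖q1 u‖ ^ 2 ≤ ‖q2 u‖ ^ 2) {j : ℕ} (hj : 2 ≤ j)
    {V : Submodule ℝ (E3 → ℝ)} (hV : V ∈ Adm Ω j) : E ≤ sSup (Ray '' {f | f ∈ V ∧ f ≠ 0}) := by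
  obtain ⟨h1, h2⟩ := hV
  have : Module.Finite ℝ V := Module.finite_of_finrank_pos (by omega)
  have T : ∀ f : V, Tst f := fun f => ⟨(h2 f f.2).1, (h2 f f.2).2.1⟩
  choose J hJ using fun f : V => (T f).exists_rep
  have lin : IsLinearMap ℝ J :=
    ⟨fun f g => (hJ (f + g)).unique (((hJ f).add (hJ g)).congr (fun _ => rfl) fun x =>
        (grad_add (dif (T f).cd x) (dif (T g).cd x)).symm),
      fun c f => (hJ (c • f)).unique (((hJ f).smul c).congr (fun _ => rfl) fun x =>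
        (grad_const_mul (dif (T f).cd x) c).symm)⟩
  set L := lin.mk' J with hL
  have pos : ∀ f : V, f ≠ 0 → 0 < ‖q1 (J f)‖ ^ 2 := by
    intro f hf
    rw [(hJ f).norm1]
    exact (T f).sq_pos fun e => hf (Subtype.ext e)
  obtain ⟨C, hC⟩ := fin_bound (q1.toLinearMap ∘ₗ L) (q2.toLinearMap ∘ₗ L) (by
    rw [injective_iff_map_eq_zero]
    intro f hf
    by_contra hne
    have := pos f hne
    change q1 (J f) = 0 at hf
    simp [hf] at this)
  have bdd : BddAbove (Ray '' {f | f ∈ V ∧ f ≠ 0}) := by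
    refine ⟨C ^ 2, ?_⟩
    rintro _ ⟨f, ⟨hf, hne⟩, rfl⟩
    rw [Ray_eq (hJ ⟨f, hf⟩), div_le_iff₀ (pos _ fun e => hne (congrArg Subtype.val e)), ← mul_pow]
    exact pow_le_pow_left₀ (norm_nonneg _) (hC ⟨f, hf⟩) 2
  obtain ⟨f, hf, hne⟩ := (Submodule.ne_bot_iff _).1
    ((ℓ.toLinearMap ∘ₗ L).ker_ne_bot_of_finrank_lt (by rw [Module.finrank_self]; omega))
  refine le_csSup_of_le bdd ⟨f, ⟨f.2, fun e => hne (Subtype.ext e)⟩, rfl⟩ ?_
  rw [Ray_eq (hJ f), le_div_iff₀ (pos f hne)]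
  exact h _ (JT_le _ ⟨f, T f, (h2 f f.2).2.2, hJ f⟩) hf

lemma upper {Ω : Set E3} {E : ℝ} {m : ℕ} {ψ : Fin m → HA} (hψ : ∀ i, ‖ψ i‖ = 1)
    {u : Fin m → HS} (hu : ∀ i, u i ∈ VV Ω)
    (ho : ∀ i j, ⟪ψ i, q1 (u j)⟫_ℝ = if i = j then 1 else 0)
    (hE : ∀ a : Fin m → ℝ, ‖q2 (∑ i, a i • u i)‖ ^ 2 ≤ E * ‖q1 (∑ i, a i • u i)‖ ^ 2)
    (hE0 : 0 ≤ E) {j : ℕ} (hj : j ≤ m) {τ : ℝ} (hτ : 0 < τ) (hτ1 : m * τ < 1) :
    ∃ V ∈ Adm Ω j, sSup (Ray '' {f | f ∈ V ∧ f ≠ 0}) ≤ ((√E + m * τ) / (1 - m * τ)) ^ 2 := by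
  choose U f hf hs hU hd using fun i => approx (hu i) hτ
  have T : ∀ a : Fin m → ℝ, Tst (∑ i, a i • f i) := by
    intro a
    have := Tst.sum Finset.univ fun i => (hf i).const_mul (a i)
    rwa [show (∑ i, a i • f i) = fun x => ∑ i, a i * f i x from by ext x; simp]
  have R : ∀ a : Fin m → ℝ, Rep (∑ i, a i • U i) (∑ i, a i • f i) (gradient (∑ i, a i • f i)) := by
    intro a
    rw [show (∑ i, a i • f i) = fun x => ∑ i, a i * f i x from by ext x; simp]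
    refine (Rep.sum _ fun i => (hU i).smul (a i)).congr (fun _ => rfl) fun x => ?_
    rw [grad_sum _ fun i => dif ((hf i).const_mul (a i)).cd x]
    exact Finset.sum_congr rfl fun i _ => (grad_const_mul (dif (hf i).cd x) _).symm
  have co : ∀ (a : Fin m → ℝ) i, |a i| ≤ ‖q1 (∑ i, a i • u i)‖ := by
    intro a i
    have := abs_real_inner_le_norm (ψ i) (q1 (∑ i, a i • u i))
    rw [hψ, one_mul] at this
    refine le_of_eq_of_le ?_ this
    rw [map_sum, inner_sum]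
    simp_rw [map_smul, inner_smul_right, ho]
    simp
  have cl : ∀ a : Fin m → ℝ, ‖∑ i, a i • U i - ∑ i, a i • u i‖ ≤
      m * τ * ‖q1 (∑ i, a i • u i)‖ := by
    intro a
    rw [← Finset.sum_sub_distrib]
    refine (norm_sum_le _ _).trans ((Finset.sum_le_card_nsmul _ _
      (‖q1 (∑ i, a i • u i)‖ * τ) fun i _ => ?_).trans (le_of_eq ?_))
    · rw [← smul_sub, norm_smul]
      exact mul_le_mul (co a i) (hd i).le (norm_nonneg _) (norm_nonneg _)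
    · simp
      ring
  have n1 : ∀ a : Fin m → ℝ, (1 - m * τ) * ‖q1 (∑ i, a i • u i)‖ ≤ ‖q1 (∑ i, a i • U i)‖ := by
    intro a
    have h1 := (norm_q1 _).trans (cl a)
    rw [map_sub, norm_sub_rev] at h1
    linarith [norm_sub_norm_le (q1 (∑ i, a i • u i)) (q1 (∑ i, a i • U i))]
  have n2 : ∀ a : Fin m → ℝ, ‖q2 (∑ i, a i • U i)‖ ≤ (√E + m * τ) * ‖q1 (∑ i, a i • u i)‖ := by
    intro a
    have h1 := (norm_q2 _).trans (cl a)
    rw [map_sub] at h1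
    have h2 : ‖q2 (∑ i, a i • u i)‖ ≤ √E * ‖q1 (∑ i, a i • u i)‖ := by
      apply le_of_sq_le_sq _ (by positivity)
      rw [mul_pow, sq_sqrt hE0]
      exact hE a
    linarith [norm_sub_norm_le (q2 (∑ i, a i • U i)) (q2 (∑ i, a i • u i))]
  have li : LinearIndependent ℝ f := by
    rw [Fintype.linearIndependent_iff]
    intro a ha i
    have h1 := (R a).norm1
    rw [ha] at h1
    simp only [Pi.zero_apply, ne_eq, OfNat.ofNat_ne_zero, not_false_eq_true, zero_pow,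
      integral_zero, pow_eq_zero_iff] at h1
    have h2 := n1 a
    rw [h1] at h2
    have h3 : ‖q1 (∑ i, a i • u i)‖ ≤ 0 := by
      by_contra hc
      nlinarith [mul_pos (sub_pos.2 hτ1) (not_le.1 hc)]
    exact abs_nonpos_iff.1 ((co a i).trans h3)
  have mem : ∀ g ∈ Submodule.span ℝ (range (f ∘ Fin.castLE hj)), ∃ a : Fin m → ℝ,
      ∑ i, a i • f i = g := fun g hg => (Submodule.mem_span_range_iff_exists_fun ℝ).1
    (Submodule.span_mono (range_comp_subset_range _ _) hg)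
  refine ⟨Submodule.span ℝ (range (f ∘ Fin.castLE hj)), ⟨?_, fun g hg => ?_⟩, ?_⟩
  · rw [finrank_span_eq_card (li.comp _ (Fin.castLE_injective hj)), Fintype.card_fin]
  · obtain ⟨a, rfl⟩ := mem g hg
    refine ⟨(T a).cd, (T a).cs, ?_⟩
    have hc : IsClosed (⋃ i, tsupport (f i)) := isClosed_iUnion_of_finite fun i =>
      isClosed_tsupport _
    refine (closure_minimal (fun x hx => ?_) hc).trans (iUnion_subset hs)
    by_contra hn
    apply hx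
    rw [Finset.sum_apply]
    apply Finset.sum_eq_zero
    intro i _
    rw [Pi.smul_apply, image_eq_zero_of_notMem_tsupport fun h => hn (mem_iUnion.2 ⟨i, h⟩),
      smul_zero]
  · apply Real.sSup_le _ (sq_nonneg _)
    rintro _ ⟨g, ⟨hg, hne⟩, rfl⟩
    obtain ⟨a, rfl⟩ := mem g hg
    have hp : 0 < ‖q1 (∑ i, a i • U i)‖ ^ 2 := by
      rw [(R a).norm1]
      exact (T a).sq_pos hne
    rw [Ray_eq (R a), div_le_iff₀ hp, ← mul_pow]
    apply pow_le_pow_left₀ (norm_nonneg _)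
    rw [div_mul_eq_mul_div, le_div_iff₀ (sub_pos.2 hτ1)]
    have h1 := mul_le_mul_of_nonneg_right (n2 a) (sub_pos.2 hτ1).le
    have h2 := mul_le_mul_of_nonneg_left (n1 a) (show 0 ≤ √E + m * τ by positivity)
    linarith

theorem minmax_eq {Ω : Set E3} {E : ℝ} {m : ℕ} {ψ : Fin m → HA} (hψ : ∀ i, ‖ψ i‖ = 1)
    (h : ∀ u ∈ VV Ω, ∑ i, ⟪ψ i, q1 u⟫_ℝ = 0 → E * ‖q1 u‖ ^ 2 ≤ ‖q2 u‖ ^ 2)
    {u : Fin m → HS} (hu : ∀ i, u i ∈ VV Ω)
    (ho : ∀ i j, ⟪ψ i, q1 (u j)⟫_ℝ = if i = j then 1 else 0)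
    (hE : ∀ a : Fin m → ℝ, ‖q2 (∑ i, a i • u i)‖ ^ 2 ≤ E * ‖q1 (∑ i, a i • u i)‖ ^ 2)
    {j : ℕ} (hj2 : 2 ≤ j) (hj : j ≤ m) :
    sInf ((fun V : Submodule ℝ (E3 → ℝ) => sSup (Ray '' {f | f ∈ V ∧ f ≠ 0})) '' Adm Ω j) = E := by
  have hE0 : 0 ≤ E := by
    set i0 : Fin m := ⟨0, by omega⟩
    have h1 := hE (Pi.single i0 1)
    have h2 : ∑ i, (Pi.single i0 1 : Fin m → ℝ) i • u i = u i0 := by
      simp [Pi.single_apply]
    rw [h2] at h1
    have h3 := ho i0 i0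
    have h4 : 0 < ‖q1 (u i0)‖ ^ 2 := by
      apply pow_pos (norm_pos_iff.2 fun e => _)
      intro e
      simp [e] at h3
    exact nonneg_of_mul_nonneg_left ((sq_nonneg _).trans h1) h4
  have lo : ∀ r ∈ (fun V : Submodule ℝ (E3 → ℝ) => sSup (Ray '' {f | f ∈ V ∧ f ≠ 0})) '' Adm Ω j,
      E ≤ r := by
    rintro _ ⟨V, hV, rfl⟩
    refine lower (∑ i, (innerSL ℝ (ψ i)).comp q1) (fun u hu e => h u hu ?_) hj2 hV
    simpa using e
  have hm : (0 : ℝ) < m := by exact_mod_cast (show 0 < m by omega)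
  apply le_antisymm
  · have c : ContinuousAt (fun τ : ℝ => ((√E + m * τ) / (1 - m * τ)) ^ 2) 0 :=
      ContinuousAt.pow (ContinuousAt.div (by fun_prop) (by fun_prop) (by simp)) 2
    have c2 := c.tendsto.mono_left (nhdsWithin_le_nhds (s := Ioi 0))
    simp only [mul_zero, add_zero, sub_zero, div_one, sq_sqrt hE0] at c2
    apply ge_of_tendsto c2
    filter_upwards [Ioo_mem_nhdsGT (show (0 : ℝ) < 1 / m by positivity)] with τ hτ
    obtain ⟨V, hV, h1⟩ := upper hψ hu ho hE hE0 hj hτ.1 (by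
      have := hτ.2
      rwa [lt_div_iff₀ hm, mul_comm] at this)
    exact csInf_le_of_le ⟨E, lo⟩ ⟨V, hV, rfl⟩ h1
  · obtain ⟨V, hV, -⟩ := upper hψ hu ho hE hE0 hj (τ := 1 / (2 * m)) (by positivity) (by
      field_simp
      norm_num)
    exact le_csInf ⟨_, V, hV, rfl⟩ lo

end Pool.Agent.H771Z.DM
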